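import Pool.Agent.SYS.Lib.HidA
import Pool.Agent.SYS.Lib.GenA
import Pool.Agent.SST.D.DDefs

/-!
# SYS-UT-Flow: flows in a connected partial triangulation

`w : D → ℝ` antisymmetric under `T.a` = flow through the edges (`w d` = flow from the face of `d` to the face of `T.a d`);
`dvg T w d` = divergence of `w` at the face of `d`.

`con_flow`: two darts of the same component are joined by a flow with divergence `fci T d - fci T e` (induction over the steps),
and a suitable combination of these flows has the divergence `m`.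
-/

namespace SYS

open Classical SST

variable {D : Type}

/-- Antisymmetric function on the darts. -/
def ASy (T : Tri D) (w : D → ℝ) : Prop := ∀ d, w (T.a d) = - w d

/-- Divergence at the face of `d`. -/
def dvg (T : Tri D) (w : D → ℝ) (d : D) : ℝ := w d + w (T.f d) + w (T.f (T.f d))

/-- Indicator of the face of `d`. -/
noncomputable def fci (T : Tri D) (d c : D) : ℝ := if c = d ∨ c = T.f d ∨ c = T.f (T.f d) then 1 else 0

theorem isCoc_iff (T : Tri D) (w : D → ℝ) : T.IsCoc w ↔ ASy T w ∧ ∀ d, dvg T w d = 0 := Iff.rfl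

theorem ASy.add {T : Tri D} {w w' : D → ℝ} (h : ASy T w) (h' : ASy T w') : ASy T fun d => w d + w' d := by
  intro d
  show w (T.a d) + w' (T.a d) = -(w d + w' d)
  rw [h d, h' d]
  ring

theorem dvg_add (T : Tri D) (w w' : D → ℝ) (d : D) : dvg T (fun d => w d + w' d) d = dvg T w d + dvg T w' d := by
  unfold dvg
  ring

theorem dvg_f (T : Tri D) (w : D → ℝ) (d : D) : dvg T w (T.f d) = dvg T w d := by
  unfold dvg
  rw [T.fff]
  ring

private theorem f2_ne (T : Tri D) (d : D) : T.f (T.f d) ≠ d := by
  intro h
  have h1 := congrArg T.f h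
  rw [T.fff] at h1
  exact T.fne d h1.symm

private theorem f_iff (T : Tri D) (c d : D) : T.f c = d ↔ c = T.f (T.f d) := by
  constructor
  · rintro rfl
    rw [T.fff]
  · rintro rfl
    rw [T.fff]

private theorem ff_iff (T : Tri D) (c d : D) : T.f (T.f c) = d ↔ c = T.f d := by
  constructor
  · rintro rfl
    rw [T.fff]
  · rintro rfl
    rw [T.fff]

private theorem fci_sum (T : Tri D) (d c : D) : fci T d c =
    (if c = d then 1 else 0) + (if c = T.f d then 1 else 0) + (if c = T.f (T.f d) then 1 else 0) := by
  unfold fci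
  by_cases h1 : c = d
  · subst h1
    rw [if_pos (Or.inl rfl), if_pos rfl, if_neg (T.fne c).symm, if_neg (f2_ne T c).symm]
    ring
  · by_cases h2 : c = T.f d
    · subst h2
      rw [if_pos (Or.inr (Or.inl rfl)), if_neg h1, if_pos rfl, if_neg (T.fne _).symm]
      ring
    · by_cases h3 : c = T.f (T.f d)
      · rw [if_pos (Or.inr (Or.inr h3)), if_neg h1, if_neg h2, if_pos h3]
        ring
      · rw [if_neg (by rintro (h | h | h) <;> contradiction), if_neg h1, if_neg h2, if_neg h3]
        ring

private theorem fci_symm (T : Tri D) (d c : D) : fci T d c = fci T c d := by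
  unfold fci
  refine if_congr ?_ rfl rfl
  constructor
  · rintro (h | h | h)
    · exact Or.inl h.symm
    · exact Or.inr (Or.inr ((f_iff T d c).1 h.symm))
    · exact Or.inr (Or.inl ((ff_iff T d c).1 h.symm))
  · rintro (h | h | h)
    · exact Or.inl h.symm
    · exact Or.inr (Or.inr ((f_iff T c d).1 h.symm))
    · exact Or.inr (Or.inl ((ff_iff T c d).1 h.symm))

private theorem fci_f (T : Tri D) (d c : D) : fci T (T.f d) c = fci T d c := by
  rw [fci_sum, fci_sum, T.fff]
  ring

/-- flow inside `S` -/
private def Gd (S : Part D) (T : Tri D) (w : D → ℝ) : Prop :=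
  ASy T w ∧ ∀ d, w d ≠ 0 → d ∈ S.R ∧ d ∉ S.B

private theorem gd_zero (S : Part D) (T : Tri D) : Gd S T fun _ => 0 :=
  ⟨fun _ => neg_zero.symm, fun _ h => absurd rfl h⟩

private theorem gd_neg {S : Part D} {T : Tri D} {w : D → ℝ} (h : Gd S T w) : Gd S T fun d => -w d :=
  ⟨fun d => by
    show -w (T.a d) = - -w d
    rw [h.1 d], fun d hd => h.2 d (fun h' => hd (by
      show -w d = 0
      rw [h', neg_zero]))⟩

private theorem gd_add {S : Part D} {T : Tri D} {w w' : D → ℝ} (h : Gd S T w) (h' : Gd S T w') :
    Gd S T fun d => w d + w' d := by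
  refine ⟨h.1.add h'.1, fun d hd => ?_⟩
  by_cases h1 : w d = 0
  · by_cases h2 : w' d = 0
    · exact absurd (by
        show w d + w' d = 0
        rw [h1, h2, add_zero]) hd
    · exact h'.2 d h2
  · exact h.2 d h1

/-- the flow through one edge -/
private noncomputable def ev (x y : D) (c : D) : ℝ := (if c = x then 1 else 0) - (if c = y then 1 else 0)

private theorem dvg_ev (T : Tri D) (x y c : D) : dvg T (ev x y) c = fci T x c - fci T y c := by
  have h : ∀ z : D, (if c = z then (1 : ℝ) else 0) + (if T.f c = z then 1 else 0) +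
      (if T.f (T.f c) = z then 1 else 0) = fci T z c := by
    intro z
    rw [fci_sum]
    simp only [f_iff T c z, ff_iff T c z]
    ring
  rw [← h x, ← h y]
  unfold dvg ev
  ring

private theorem step_flow {S : Part D} {T : Tri D} (h : S.Le T) {d e : D} (h' : S.Cn d e) :
    (d ∈ S.R ↔ e ∈ S.R) ∧ (d ∈ S.R → ∃ w, Gd S T w ∧ ∀ c, dvg T w c = fci T d c - fci T e c) := by
  unfold Part.Cn at h'
  induction h' with
  | rel u v huv =>
    rcases huv with rfl | rfl
    · refine ⟨(Part.mem_R_a S u).symm, fun hu => ?_⟩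
      by_cases h1 : S.a u = u
      · refine ⟨fun _ => 0, gd_zero S T, fun c => ?_⟩
        rw [h1]
        unfold dvg
        ring
      · have h2 : T.a u = S.a u := h.2 u h1
        have h3 : S.a (S.a u) ≠ S.a u := fun h4 => h1 (S.a.injective h4)
        refine ⟨ev u (S.a u), ⟨fun c => ?_, fun c hc => ?_⟩, fun c => dvg_ev T u (S.a u) c⟩
        · have e1 : T.a c = u ↔ c = S.a u := by
            rw [← h2]
            constructor
            · rintro rfl
              rw [T.aa]
            · rintro rfl
              rw [T.aa]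
          have e2 : T.a c = S.a u ↔ c = u := by
            rw [← h2]
            exact T.a.injective.eq_iff
          unfold ev
          simp only [e1, e2]
          ring
        · by_cases h4 : c = u
          · rw [h4]
            exact ⟨hu, fun h5 => h1 h5.2⟩
          · by_cases h5 : c = S.a u
            · rw [h5]
              exact ⟨(Part.mem_R_a S u).2 hu, fun h6 => h3 h6.2⟩
            · exact absurd (by
                unfold ev
                rw [if_neg h4, if_neg h5, sub_zero]) hc
    · refine ⟨(Part.mem_R_f S u).symm, fun hu => ?_⟩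
      refine ⟨fun _ => 0, gd_zero S T, fun c => ?_⟩
      have h1 : S.f u = T.f u := (h.1 u hu).symm
      rw [h1, fci_f]
      unfold dvg
      ring
  | refl u =>
    refine ⟨Iff.rfl, fun _ => ⟨fun _ => 0, gd_zero S T, fun c => ?_⟩⟩
    unfold dvg
    ring
  | symm u v _ ih =>
    refine ⟨ih.1.symm, fun hv => ?_⟩
    obtain ⟨w, hw1, hw2⟩ := ih.2 (ih.1.2 hv)
    refine ⟨fun d => -w d, gd_neg hw1, fun c => ?_⟩
    have h1 := hw2 c
    have h2 : dvg T (fun d => -w d) c = -dvg T w c := by
      unfold dvg
      ring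
    rw [h2, h1]
    ring
  | trans u v x _ _ ih1 ih2 =>
    refine ⟨ih1.1.trans ih2.1, fun hu => ?_⟩
    obtain ⟨w, hw1, hw2⟩ := ih1.2 hu
    obtain ⟨w', hw3, hw4⟩ := ih2.2 (ih1.1.1 hu)
    refine ⟨fun d => w d + w' d, gd_add hw1 hw3, fun c => ?_⟩
    rw [dvg_add, hw2, hw4]
    ring

/-- Every divergence with total `0` on a connected partial triangulation is the divergence of a flow inside it. -/
theorem con_flow [Fintype D] {S : Part D} {T : Tri D} (h : S.Le T) (hS : S.Con) {m : D → ℝ}
    (hm : ∀ d, m (T.f d) = m d) (hR : ∀ d, d ∉ S.R → m d = 0) (h0 : ∑ d, m d = 0) :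
    ∃ w : D → ℝ, ASy T w ∧ (∀ d, w d ≠ 0 → d ∈ S.R ∧ d ∉ S.B) ∧ ∀ d, dvg T w d = m d := by
  by_cases hne : ∃ d₀, d₀ ∈ S.R
  · obtain ⟨d₀, hd₀⟩ := hne
    have hex : ∀ d, ∃ w, Gd S T w ∧ (d ∈ S.R → ∀ c, dvg T w c = fci T d c - fci T d₀ c) := by
      intro d
      by_cases hd : d ∈ S.R
      · obtain ⟨w, hw1, hw2⟩ := (step_flow h (hS d hd d₀ hd₀)).2 hd
        exact ⟨w, hw1, fun _ => hw2⟩
      · exact ⟨fun _ => 0, gd_zero S T, fun h' => absurd h' hd⟩
    choose W hW1 hW2 using hex
    refine ⟨fun c => 1 / 3 * ∑ d, m d * W d c, ?_, ?_, ?_⟩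
    · intro c
      show 1 / 3 * ∑ d, m d * W d (T.a c) = -(1 / 3 * ∑ d, m d * W d c)
      have h1 : ∑ d, m d * W d (T.a c) = -∑ d, m d * W d c := by
        rw [← Finset.sum_neg_distrib]
        refine Finset.sum_congr rfl fun d _ => ?_
        rw [(hW1 d).1 c]
        ring
      rw [h1]
      ring
    · intro c hc
      have h1 : ∃ d, W d c ≠ 0 := by
        by_contra hcon
        push Not at hcon
        apply hc
        show 1 / 3 * ∑ d, m d * W d c = 0
        rw [Finset.sum_eq_zero fun d _ => by rw [hcon d, mul_zero], mul_zero]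
      obtain ⟨d, hd⟩ := h1
      exact (hW1 d).2 c hd
    · intro c
      have h1 : dvg T (fun c => 1 / 3 * ∑ d, m d * W d c) c = 1 / 3 * ∑ d, m d * dvg T (W d) c := by
        unfold dvg
        simp only [mul_add, Finset.sum_add_distrib]
      have h2 : ∑ d, m d * dvg T (W d) c = ∑ d, m d * fci T c d := by
        have h3 : ∀ d, m d * dvg T (W d) c = m d * fci T c d - m d * fci T d₀ c := by
          intro d
          by_cases hd : d ∈ S.R
          · rw [hW2 d hd c, fci_symm T d c]
            ring
          · rw [hR d hd]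
            ring
        rw [Finset.sum_congr rfl fun d _ => h3 d, Finset.sum_sub_distrib, ← Finset.sum_mul, h0,
          zero_mul, sub_zero]
      have h4 : ∑ d, m d * fci T c d = m c + m (T.f c) + m (T.f (T.f c)) := by
        have h5 : ∀ d, m d * fci T c d = (if d = c then m d else 0) + (if d = T.f c then m d else 0) +
            (if d = T.f (T.f c) then m d else 0) := by
          intro d
          rw [fci_sum]
          simp only [mul_add, mul_ite, mul_one, mul_zero]
        rw [Finset.sum_congr rfl fun d _ => h5 d, Finset.sum_add_distrib, Finset.sum_add_distrib,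
          Finset.sum_ite_eq', Finset.sum_ite_eq', Finset.sum_ite_eq', if_pos (Finset.mem_univ _),
          if_pos (Finset.mem_univ _), if_pos (Finset.mem_univ _)]
      rw [h1, h2, h4, hm (T.f c), hm c]
      ring
  · push Not at hne
    refine ⟨fun _ => 0, fun _ => neg_zero.symm, fun _ h' => absurd rfl h', fun d => ?_⟩
    rw [hR d (hne d)]
    unfold dvg
    ring

end SYS
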