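import Pool.Agent.SYS.UT.Flow
import Pool.Agent.SYS.Lib.ExplC
import Pool.Agent.GNH.Defs

/-!
# SYS-UT-GrdA: vertex functions of the surface `S`

A vertex of the surface `S` is a class of corners (darts of `R`) under `d ~ S.s d`, `d ∈ R \ B` (`SYS.Part.Vt`); each class
contains at most one boundary dart, its last element.  `VInv S q`: `q` is constant on the classes.

The value at `d` is the value at the first boundary dart among `d, s d, s (s d), ...`.
-/

namespace SYS

open Classical SST GNH

variable {D : Type} [Finite D]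

/-- `q` is a function on the vertices of the surface `S`. -/
def VInv {G : Type} (S : Part D) (q : D → G) : Prop := ∀ d ∈ S.R, d ∉ S.B → q (S.s d) = q d

theorem VInv.vt {G : Type} {S : Part D} {q : D → G} (h : VInv S q) {d e : D} (h' : S.Vt d e) : q d = q e := by
  induction h' with
  | rel x y hh => rw [hh.2.2]; exact (h x hh.1 hh.2.1).symm
  | refl x => rfl
  | symm x y _ ih => exact ih.symm
  | trans x y z _ _ ih1 ih2 => exact ih1.trans ih2

theorem VInv.nx {G : Type} {S : Part D} {q : D → G} (h : VInv S q) {d : D} (hd : d ∈ S.B) : q (S.f d) = q (S.nx d) := by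
  obtain ⟨j, h1, _, h3⟩ := ret_spec S.s hd
  have h4 : S.nx d = (S.s ^ (j + 1)) d := h1
  have h0 : S.f d = (S.s ^ (0 + 1)) d := by
    rw [zero_add, pow_one, Part.s_apply, hd.2]
  have hR : ∀ i, (S.s ^ i) d ∈ S.R := by
    intro i
    induction i with
    | zero => exact hd.1
    | succ i ih => rw [pow_succ', Equiv.Perm.mul_apply, Part.mem_R_s]; exact ih
  have key : ∀ i ≤ j, q (S.f d) = q ((S.s ^ (i + 1)) d) := by
    intro i
    induction i with
    | zero => intro _; rw [← h0]
    | succ i ih =>
      intro hi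
      rw [ih (by omega), pow_succ' _ (i + 1), Equiv.Perm.mul_apply]
      exact (h _ (hR _) (h3 i (by omega))).symm
  rw [h4]
  exact key j le_rfl

theorem exists_vinv {G : Type} (S : Part D) (q₀ : D → G) : ∃ q : D → G, VInv S q ∧ ∀ e ∈ S.B, q e = q₀ e := by
  refine ⟨fun d => if h : ∃ i : ℕ, (S.s ^ i) d ∈ S.B then q₀ ((S.s ^ Nat.find h) d)
    else q₀ (Classical.choice ⟨d⟩), ?_, ?_⟩
  · intro d _ hB
    dsimp only
    by_cases h : ∃ i : ℕ, (S.s ^ i) d ∈ S.B
    · obtain ⟨m, hm⟩ : ∃ m, Nat.find h = m + 1 := by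
        refine ⟨Nat.find h - 1, ?_⟩
        have h1 : Nat.find h ≠ 0 := by
          intro h2
          have h3 := Nat.find_spec h
          rw [h2] at h3
          exact hB h3
        omega
      have e1 : ∀ k : ℕ, (S.s ^ k) (S.s d) = (S.s ^ (k + 1)) d := by
        intro k
        rw [pow_succ, Equiv.Perm.mul_apply]
      have h' : ∃ i : ℕ, (S.s ^ i) (S.s d) ∈ S.B := by
        refine ⟨m, ?_⟩
        rw [e1, ← hm]
        exact Nat.find_spec h
      have h2 : Nat.find h' = m := by
        rw [Nat.find_eq_iff]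
        refine ⟨?_, ?_⟩
        · rw [e1, ← hm]
          exact Nat.find_spec h
        · intro k hk
          rw [e1]
          exact Nat.find_min h (by omega)
      rw [dif_pos h, dif_pos h', h2, hm, e1]
    · have h' : ¬ ∃ i : ℕ, (S.s ^ i) (S.s d) ∈ S.B := by
        rintro ⟨i, hi⟩
        apply h
        refine ⟨i + 1, ?_⟩
        rw [pow_succ, Equiv.Perm.mul_apply]
        exact hi
      rw [dif_neg h, dif_neg h']
  · intro e he
    have h : ∃ i : ℕ, (S.s ^ i) e ∈ S.B := ⟨0, he⟩
    dsimp only
    have h2 : Nat.find h = 0 := by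
      rw [Nat.find_eq_zero]
      exact he
    rw [dif_pos h, h2]
    rfl

end SYS
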