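import Pool.Agent.SYS.UT.SumB

/-!
# SYS-UT-Ext: making a cocycle exact on an explored region

`w` is a cocycle which vanishes on the boundary darts of `S` outside the hole of `x`.  It may be changed inside `S` into a gradient.
-/

namespace SYS

open Classical SST GNH

variable {D : Type} [Fintype D]

private theorem ex_same (S : Part D) {d : D} (hd : d ∈ S.B) : S.s.SameCycle d (S.nx d) := by
  obtain ⟨j, h1, _, _⟩ := ret_spec S.s hd
  exact ⟨((j + 1 : ℕ) : ℤ), by rw [zpow_natCast]; exact h1.symm⟩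

private theorem ex_mem_nx (S : Part D) {x d : D} (hx : x ∈ S.B) (hd : d ∈ S.B) :
    S.nx d ∈ S.hw x ↔ d ∈ S.hw x := by
  rw [S.mem_hw hx, S.mem_hw hx]
  constructor
  · rintro ⟨_, h2⟩
    exact ⟨hd, h2.trans (ex_same S hd).symm⟩
  · rintro ⟨_, h2⟩
    exact ⟨S.nx_mem.2 hd, h2.trans (ex_same S hd)⟩

private theorem ex_get (S : Part D) (x : D) (i : ℕ) (hi : i < (S.hw x).length) :
    (S.hw x)[i] = (S.nx ^ i) x := by
  simp only [Part.hw, List.getElem_map, List.getElem_range]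

private theorem ex_mem (S : Part D) {x : D} (hx : x ∈ S.B) {i : ℕ} (hi : i < S.per x) :
    (S.nx ^ i) x ∈ S.hw x := by
  rw [← S.hw_length hx] at hi
  rw [← ex_get S x i hi]
  exact List.getElem_mem hi

private theorem ex_inj (S : Part D) {x : D} (hx : x ∈ S.B) {i j : ℕ} (hi : i < S.per x)
    (hj : j < S.per x) (h : (S.nx ^ i) x = (S.nx ^ j) x) : i = j := by
  rw [← S.hw_length hx] at hi hj
  rw [← ex_get S x i hi, ← ex_get S x j hj] at h
  exact (List.Nodup.getElem_inj_iff (S.hw_nodup hx)).1 h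

private theorem ex_idx (S : Part D) {x d : D} (hd : d ∈ S.hw x) :
    ∃ i < S.per x, (S.nx ^ i) x = d := by
  unfold Part.hw at hd
  obtain ⟨i, hi, h⟩ := List.mem_map.1 hd
  exact ⟨i, List.mem_range.1 hi, h⟩

private theorem ex_per (S : Part D) {x : D} (hx : x ∈ S.B) : (S.nx ^ S.per x) x = x := by
  have hp := S.per_pos hx
  obtain ⟨m, hm⟩ : ∃ m, S.per x = m + 1 := ⟨S.per x - 1, by omega⟩
  have h1 : (S.nx ^ m) x ∈ S.hw x := ex_mem S hx (by omega)
  have h2 : (S.nx ^ (m + 1)) x ∈ S.hw x := by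
    rw [pow_succ', Equiv.Perm.mul_apply]
    exact (ex_mem_nx S hx ((S.mem_hw hx).1 h1).1).2 h1
  obtain ⟨k, hk, h3⟩ := ex_idx S h2
  rcases Nat.eq_zero_or_pos k with h0 | h0
  · rw [hm, ← h3, h0, pow_zero, Equiv.Perm.one_apply]
  · exfalso
    obtain ⟨l, rfl⟩ : ∃ l, k = l + 1 := ⟨k - 1, by omega⟩
    rw [pow_succ', pow_succ', Equiv.Perm.mul_apply, Equiv.Perm.mul_apply] at h3
    have h4 := S.nx.injective h3
    have h5 := ex_inj S hx (by omega) (by omega) h4
    omega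

/-- the potential on the hole of `x` -/
private theorem ex_pot (S : Part D) {x : D} (hx : x ∈ S.B) (w : D → ℝ) (h0 : per w (S.hw x) = 0)
    (hw0 : ∀ d ∈ S.B, d ∉ S.hw x → w d = 0) :
    ∃ q₀ : D → ℝ, (∀ d ∈ S.B, q₀ (S.nx d) - q₀ d = w d) ∧ ∀ d, d ∉ S.hw x → q₀ d = 0 := by
  have key : ∀ d : D, ∃ r : ℝ, (∀ i < S.per x, (S.nx ^ i) x = d →
      r = ∑ j ∈ Finset.range i, w ((S.nx ^ j) x)) ∧ (d ∉ S.hw x → r = 0) := by
    intro d
    by_cases hd : d ∈ S.hw x
    · obtain ⟨i, hi, h⟩ := ex_idx S hd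
      refine ⟨∑ j ∈ Finset.range i, w ((S.nx ^ j) x), ?_, fun h => absurd hd h⟩
      intro i' hi' h'
      rw [ex_inj S hx hi hi' (h.trans h'.symm)]
    · refine ⟨0, ?_, fun _ => rfl⟩
      intro i hi h
      exact absurd (h ▸ ex_mem S hx hi) hd
  choose q₀ hq1 hq2 using key
  have htot : ∑ j ∈ Finset.range (S.per x), w ((S.nx ^ j) x) = 0 := by
    rw [← h0]
    unfold per Part.hw
    rw [List.map_map, ← List.sum_toFinset _ List.nodup_range, List.toFinset_range]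
    rfl
  refine ⟨q₀, ?_, hq2⟩
  intro d hd
  by_cases hdx : d ∈ S.hw x
  · obtain ⟨i, hi, h⟩ := ex_idx S hdx
    have e1 := hq1 d i hi h
    have e3 : (S.nx ^ (i + 1)) x = S.nx d := by
      rw [pow_succ', Equiv.Perm.mul_apply, h]
    rcases Nat.lt_or_ge (i + 1) (S.per x) with h4 | h4
    · have e2 := hq1 (S.nx d) (i + 1) h4 e3
      rw [e1, e2, Finset.sum_range_succ, h]
      ring
    · have h5 : i + 1 = S.per x := by omega
      have h6 : S.nx d = x := by
        rw [← e3, h5, ex_per S hx]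
      have e2 := hq1 (S.nx d) 0 (S.per_pos hx) (by
        rw [pow_zero, Equiv.Perm.one_apply, h6])
      rw [e1, e2, Finset.sum_range_zero]
      rw [← h5, Finset.sum_range_succ, h] at htot
      linarith
  · have h1 : S.nx d ∉ S.hw x := fun h => hdx ((ex_mem_nx S hx hd).1 h)
    rw [hq2 _ h1, hq2 _ hdx, hw0 d hd hdx, sub_zero]

theorem exists_ext {S : Part D} {T : Tri D} (h : S.Le T) {x : D} (hx : x ∈ S.B) {w : D → ℝ} (hw : T.IsCoc w)
    (h0 : ∀ d ∈ S.B, d ∉ S.hw x → w d = 0) : ∃ w' q : D → ℝ, T.IsCoc w' ∧ VInv S q ∧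
      (∀ d ∈ S.R, w' d = q (S.f d) - q d) ∧ (∀ d ∈ S.X, w' d = w d) ∧ ∀ d ∈ S.B, d ∉ S.hw x → q d = 0 := by
  obtain ⟨q₀, hq1, hq2⟩ := ex_pot S hx w (per_hw_zero h hx hw h0) h0
  obtain ⟨q, hq, hqB⟩ := exists_vinv S q₀
  obtain ⟨w', hw'⟩ : ∃ w' : D → ℝ, w' = fun d => if d ∈ S.R then q (S.f d) - q d else w d := ⟨_, rfl⟩
  have hR : ∀ d ∈ S.R, w' d = q (S.f d) - q d := by
    intro d hd
    rw [hw']
    simp only
    rw [if_pos hd]
  have hR' : ∀ d ∈ S.R, w' d = grd S q d := by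
    intro d hd
    rw [hR d hd]
    unfold grd
    rw [if_pos hd]
  have hN : ∀ d, d ∉ S.R → w' d = w d := by
    intro d hd
    rw [hw']
    simp only
    rw [if_neg hd]
  have hB : ∀ d ∈ S.B, w' d = w d := by
    intro d hd
    rw [hR d hd.1, hq.nx hd, hqB d hd, hqB _ (S.nx_mem.2 hd), hq1 d hd]
  have hX : ∀ d ∈ S.X, w' d = w d := by
    intro d hd
    rcases hd with h1 | h1
    · exact hN d h1
    · exact hB d h1
  refine ⟨w', q, ⟨?_, ?_⟩, hq, hR, hX, ?_⟩
  · intro d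
    by_cases hd : d ∈ S.X
    · rw [hX d hd, hX _ ((Part.X_a h d).2 hd), hw.1]
    · have h1 : T.a d ∉ S.X := fun h2 => hd ((Part.X_a h d).1 h2)
      have h2 : d ∈ S.R := by
        by_contra h3
        exact hd (Or.inl h3)
      have h3 : d ∉ S.B := fun h4 => hd (Or.inr h4)
      have h4 : T.a d ∈ S.R := by
        by_contra h3
        exact h1 (Or.inl h3)
      rw [hR' _ h4, hR' d h2]
      exact grd_a h hq h2 h3
  · intro d
    by_cases hd : d ∈ S.R
    · have h1 : T.f d ∈ S.R := (Part.le_f_mem h d).2 hd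
      have h2 : T.f (T.f d) ∈ S.R := (Part.le_f_mem h _).2 h1
      rw [hR' d hd, hR' _ h1, hR' _ h2]
      exact grd_dvg h hq d
    · have h1 : T.f d ∉ S.R := fun h3 => hd ((Part.le_f_mem h d).1 h3)
      have h2 : T.f (T.f d) ∉ S.R := fun h3 => h1 ((Part.le_f_mem h _).1 h3)
      rw [hN d hd, hN _ h1, hN _ h2]
      exact hw.2 d
  · intro d hd hdx
    rw [hqB d hd, hq2 d hdx]

end SYS
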