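import Pool.Agent.SYS.Lib.HidB

/-! SYS-UT-Hand: a non-planar hidden component contains a handle. -/

namespace SYS

open Classical SST

variable {D : Type} [Finite D]

omit [Finite D] in
private theorem hd_sub {S F : Part D} {T : Tri D} (h : S.Le T) (hF : F.Le T) (hR : S.R ⊆ F.R)
    (ha : ∀ d, S.a d ≠ d → F.a d ≠ d) : S.Sub F := by
  refine ⟨fun d hd => ?_, fun d hd => ?_⟩
  · rw [← h.1 d hd]
    exact (hF.1 d (hR hd)).symm
  · rw [← h.2 d hd]
    exact (hF.2 d (ha d hd)).symm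

omit [Finite D] in
private theorem hd_eq {S' F : Part D} (hsub : S'.Sub F) (hF : F.Con) {z : D} (hz : z ∈ S'.R) (hB : S'.B ⊆ F.B) :
    S' = F := by
  have key : ∀ d e, F.Cn d e → (d ∈ S'.R ↔ e ∈ S'.R) := by
    have kf : ∀ d, d ∈ S'.R → F.f d ∈ S'.R := fun d hd => by
      rw [hsub.1 d hd, Part.mem_R_f]
      exact hd
    have ka : ∀ d, d ∈ S'.R → F.a d ∈ S'.R := fun d hd => by
      by_cases h1 : S'.a d = d
      · have h2 : d ∈ F.B := hB ⟨hd, h1⟩
        rw [h2.2]
        exact hd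
      · rw [hsub.2 d h1, Part.mem_R_a]
        exact hd
    intro d e hde
    induction hde with
    | rel a b hab =>
      rcases hab with hab | hab
      · rw [hab]
        refine ⟨ka a, fun h => ?_⟩
        have := ka _ h
        rwa [F.aa] at this
      · rw [hab]
        refine ⟨kf a, fun h => ?_⟩
        have := kf _ (kf _ h)
        rwa [F.fff] at this
    | refl a => exact Iff.rfl
    | symm a b _ ih => exact ih.symm
    | trans a b c _ _ ih1 ih2 => exact ih1.trans ih2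
  have hR : ∀ d, d ∈ F.R → d ∈ S'.R := fun d hd =>
    (key z d (hF z (Part.Sub.R_sub hsub hz) d hd)).1 hz
  have hfix : ∀ d, d ∉ S'.R → S'.f d = d ∧ F.f d = d := fun d hd =>
    ⟨not_not.1 hd, not_not.1 fun h => hd (hR d h)⟩
  refine Part.ext' (Equiv.ext fun d => ?_) (Equiv.ext fun d => ?_)
  · by_cases h1 : S'.a d = d
    · by_cases h2 : d ∈ S'.R
      · rw [h1, (hB ⟨h2, h1⟩ : d ∈ F.B).2]
      · rw [h1, F.af d (hfix d h2).2]
    · exact (hsub.2 d h1).symm
  · by_cases h2 : d ∈ S'.R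
    · exact (hsub.1 d h2).symm
    · rw [(hfix d h2).1, (hfix d h2).2]

theorem exists_handle {T : Tri D} (hT : T.Conn) {S : Part D} (h : S.Le T) (hS : S.Con) {z : D} (hz : z ∈ S.B)
    (hg : (S.fill T h z).gen12 ≠ S.gen12) : ∃ S' : Part D, S.Sub S' ∧ S'.Le T ∧ S'.Con ∧
      (∀ d ∈ S'.R, d ∈ S.R ∨ d ∈ S.HC T z) ∧ (∀ d ∈ S.B, d ∉ S.HC T z → d ∈ S'.B) ∧
      ∃ x ∈ S'.B, T.a x ∈ S'.B ∧ x ∈ S.HC T z ∧ ¬ S'.s.SameCycle x (T.a x) := by
  set F : Part D := S.fill T h z with hFdef
  have hFT : F.Le T := Part.fill_le h z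
  have hFC : F.Con := Part.con_fill h hT hS ⟨z, hz.1⟩ z
  have hFR : F.R = S.R ∪ S.HC T z := Part.fill_R h z
  have hFB : F.B = S.B \ S.HC T z := Part.fill_B h z
  obtain ⟨S', ⟨h1, h2, h3, h4⟩, hmax⟩ := Set.exists_max_image
    {S' : Part D | S.Sub S' ∧ S'.Sub F ∧ S'.Con ∧ S'.gen12 = S.gen12}
    (fun S' => S'.R.ncard + {d | S'.a d ≠ d}.ncard) (Set.toFinite _)
    ⟨S, Part.sub_refl S, Part.sub_fill h z, hS, rfl⟩
  have h2T : S'.Le T := Part.sub_le h2 hFT
  have hzR : z ∈ S'.R := Part.Sub.R_sub h1 hz.1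
  have hne : S' ≠ F := fun e => hg (by rw [← e]; exact h4)
  obtain ⟨x, hxB, hxF⟩ : ∃ x, x ∈ S'.B ∧ x ∉ F.B := by
    by_contra hcon
    push Not at hcon
    exact hne (hd_eq h2 hFC hzR hcon)
  have hxFR : x ∈ F.R := Part.Sub.R_sub h2 hxB.1
  have hFa : F.a x ≠ x := fun e => hxF ⟨hxFR, e⟩
  have hy : T.a x = F.a x := hFT.2 x hFa
  have hyF : T.a x ∈ F.R := by
    rw [hy, Part.mem_R_a]
    exact hxFR
  have hFay : F.a (T.a x) ≠ T.a x := by
    rw [hy, F.aa]
    exact hFa.symm
  have hxC : x ∈ S.HC T z := by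
    rw [hFR] at hxFR
    rcases hxFR with h5 | h5
    · by_contra h6
      have h7 : S.a x = x := by
        by_contra h8
        have h9 := h1.2 x h8
        rw [hxB.2] at h9
        exact h8 h9.symm
      apply hxF
      rw [hFB]
      exact ⟨⟨h5, h7⟩, h6⟩
    · exact h5
  have hsupp : ∀ S'' : Part D, S'.Sub S'' → {d | S'.a d ≠ d} ⊆ {d | S''.a d ≠ d} := by
    intro S'' hs d hd
    show S''.a d ≠ d
    rw [hs.2 d hd]
    exact hd
  have hno : ∀ S'' : Part D, S'.Sub S'' → S''.Le T → S''.R ⊆ F.R → (∀ d, S''.a d ≠ d → F.a d ≠ d) → S''.Con →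
      S''.gen12 = S'.gen12 → S'.R.ncard + {d | S'.a d ≠ d}.ncard < S''.R.ncard + {d | S''.a d ≠ d}.ncard →
      False := by
    intro S'' hs hle hR ha hc hgen hlt
    have := hmax S'' ⟨Part.sub_trans h1 hs, hd_sub hle hFT hR ha, hc, by rw [hgen, h4]⟩
    exact absurd hlt (not_lt.2 this)
  refine ⟨S', h1, h2T, h3, fun d hd => ?_, fun d hd hd' => ?_, x, hxB, ?_⟩
  · have h5 := Part.Sub.R_sub h2 hd
    rw [hFR] at h5
    exact h5
  · refine ⟨Part.Sub.R_sub h1 hd.1, ?_⟩
    by_contra h5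
    have h6 : d ∈ F.B := by
      rw [hFB]
      exact ⟨hd, hd'⟩
    have h7 := h2.2 d h5
    rw [h6.2] at h7
    exact h5 h7.symm
  · rcases Part.peel h2T hxB with ⟨hyB, hyx⟩ | hyR
    · refine ⟨hyB, hxC, fun hsame => ?_⟩
      refine hno (S'.glue x (T.a x) hxB hyB) (Part.glue_sub S' hxB hyB) (Part.glue_le S' hxB hyB h2T rfl)
        (by rw [Part.glue_R]; exact Part.Sub.R_sub h2) ?_ (Part.con_glue S' hxB hyB h3)
        (Part.gen12_glue_split S' hxB hyB hyx.symm hsame) ?_
      · intro d hd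
        by_cases e1 : d = x
        · rw [e1]
          exact hFa
        · by_cases e2 : d = T.a x
          · rw [e2]
            exact hFay
          · have e3 : (S'.glue x (T.a x) hxB hyB).a d = S'.a d := by
              show S'.a (Equiv.swap x (T.a x) d) = S'.a d
              rw [Equiv.swap_apply_of_ne_of_ne e1 e2]
            rw [e3] at hd
            rw [h2.2 d hd]
            exact hd
      · rw [Part.glue_R]
        refine Nat.add_lt_add_left (Set.ncard_lt_ncard ⟨hsupp _ (Part.glue_sub S' hxB hyB), fun hc => ?_⟩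
          (Set.toFinite _)) _
        have h5 : x ∈ {d | (S'.glue x (T.a x) hxB hyB).a d ≠ d} := by
          show S'.a (Equiv.swap x (T.a x) x) ≠ x
          rw [Equiv.swap_apply_left, hyB.2]
          exact hyx
        exact (hc h5 : S'.a x ≠ x) hxB.2
    · exfalso
      have k1 : T.f (T.a x) ∉ S'.R := fun e => hyR ((Part.le_f_mem h2T _).1 e)
      have k2 : T.f (T.f (T.a x)) ∉ S'.R := fun e => k1 ((Part.le_f_mem h2T _).1 e)
      obtain ⟨n01, n12, n20⟩ := Part.tri_ne T (T.a x)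
      have hsub := Part.face_sub S' hxB hyR k1 k2 n01 n12 n20
      refine hno (S'.face x (T.a x) (T.f (T.a x)) (T.f (T.f (T.a x))) hxB hyR k1 k2 n01 n12 n20) hsub
        (Part.face_le S' h2T hxB hyR k1 k2 n01 n12 n20) ?_ ?_ (Part.con_face S' hxB hyR k1 k2 n01 n12 n20 h3)
        (Part.gen12_face S' hxB hyR k1 k2 n01 n12 n20) ?_
      · rw [Part.face_R]
        rintro d (hd | hd | hd | hd)
        · exact Part.Sub.R_sub h2 hd
        · rw [hd]
          exact hyF
        · rw [hd]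
          exact (Part.le_f_mem hFT _).2 hyF
        · rw [hd]
          exact (Part.le_f_mem hFT _).2 ((Part.le_f_mem hFT _).2 hyF)
      · intro d hd
        by_cases e1 : d = x
        · rw [e1]
          exact hFa
        · by_cases e2 : d = T.a x
          · rw [e2]
            exact hFay
          · have e3 : (S'.face x (T.a x) (T.f (T.a x)) (T.f (T.f (T.a x))) hxB hyR k1 k2 n01 n12 n20).a d = S'.a d := by
              show S'.a (Equiv.swap x (T.a x) d) = S'.a d
              rw [Equiv.swap_apply_of_ne_of_ne e1 e2]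
            rw [e3] at hd
            rw [h2.2 d hd]
            exact hd
      · refine Nat.add_lt_add_of_lt_of_le (Set.ncard_lt_ncard ⟨Part.Sub.R_sub hsub, fun hc => hyR (hc ?_)⟩
          (Set.toFinite _)) (Set.ncard_le_ncard (hsupp _ hsub) (Set.toFinite _))
        rw [Part.face_R]
        exact Or.inr (Or.inl rfl)

end SYS
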