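import Pool.Agent.SYS.UT.Ring
import Pool.Agent.SYS.UT.Ext
import Pool.Agent.SYS.UT.Hand

/-!
# SYS-UT-HandC: two cocycles of positive area in a non-planar hidden component with one hole, gradients on the explored region

PLAN.  `exists_handle` gives `S'`, `x`, `y = T.a x`.
* `w₁`: `u c := [c = x] - [c = y]` (antisymmetric), `m c := - dvg T u c` on `S'.R` (`x, y ∈ S'.B`, the faces of `x` and `y` are in `S'.R`), total `0`;
  `con_flow` for `S'` gives `v` supported on `S'.R \ S'.B`; `w₁ := u + v`, a cocycle; `w₁` vanishes on `S'.B \ {x, y}` and off `S'.R`.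
  On `S.B \ S.hw z`: these darts are not in `S.HC T z` (`hu`), so in `S'.B`, and `≠ x, y` (`x, y ∈ S.HC T z`, `hc_a`): `w₁ = 0`.
  `exists_ext` for `S`, `z`: `w₁'`, `q₁`.
* `w₂ := z_P`: `exists_ring` for `S'`, `x`: `q, w₂`.  `VInv S q`: for `d ∈ S.R \ S.B`: `S'.s d = S.s d` (`Sub`), `d ∈ S'.R \ S'.B`.  On `S.R`: `w₂ d = q (S'.f d) - q d`,
  `S'.f d = S.f d`.  For `d ∈ S.B`, `d ∉ S.hw z`: `d ∈ S'.B`, `d ∉ S'.hw x`?: the elements of `S'.hw x` are related to `x` in the hidden part ... therefore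
  we need `q d = 0`: `q d = 1` iff `d ∈ S'.hw x` (iff `S'.s.SameCycle x d`).  LEMMA: `S'.s`-cycles: a dart `d ∈ S.B`, `d ∉ S.HC T z` has `d ∈ S'.B` and the whole hole
  `S.hw d` is contained in `S'.B` (its elements are not in `HC`), so `S'.hw d = S.hw d` (`hw_eq_of`; `S'.s = S.s` on `S.R \ S.B`, so the successor of
  `d` is the same; `S'.s d = S'.f d = S.f d`), and `x ∉ S.hw d` because `x ∈ HC`, `hc_hole`; if `x ∉ S.R` clear.
* vanishing on `S.HC T z'`-type sets: for `d ∉ S.R`, `d ∉ S.HC T z`: `d ∉ S'.R`, so both cocycles are `0` (for `w₁'`: `w₁' = w₁` on `X`).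
  For `d ∈ S.B`, `d ∉ S.HC T z`: `w₁ d = 0` as above, `w₂ d = 0` (`d ∈ S'.B`).
* `Area w₁' w₂ = - Area w₂ w₁' = -6 per w₁' (S'.hw x)`; the darts of `S'.hw x` are in `S'.B`, those of them in `S.R` are in `S.B`, so in `S.X`: `w₁' = w₁`;
  `per w₁ (S'.hw x) = w₁ x = 1` (`y ∉ S'.hw x`, `per_hw_eq`).
-/

namespace SYS

open Classical SST GNH

variable {D : Type} [Fintype D]

/-- the flow through the edge of `x` -/
private noncomputable def hcu (x y c : D) : ℝ := (if c = x then 1 else 0) - (if c = y then 1 else 0)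

private theorem hcu_ne {x y c : D} (h1 : c ≠ x) (h2 : c ≠ y) : hcu x y c = 0 := by
  unfold hcu
  rw [if_neg h1, if_neg h2, sub_zero]

private theorem hcu_asy (T : Tri D) (x : D) : ASy T (hcu x (T.a x)) := by
  intro c
  have h1 : (T.a c = x) ↔ c = T.a x := by
    constructor
    · intro h
      rw [← h, T.aa]
    · intro h
      rw [h, T.aa]
  have h2 : (T.a c = T.a x) ↔ c = x := T.a.injective.eq_iff
  unfold hcu
  by_cases e1 : c = x
  · have e2 : c ≠ T.a x := by
      rw [e1]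
      exact (T.ane x).symm
    rw [if_neg (fun h => e2 (h1.1 h)), if_pos (h2.2 e1), if_pos e1, if_neg e2]
    ring
  · by_cases e2 : c = T.a x
    · rw [if_pos (h1.2 e2), if_neg (fun h => e1 (h2.1 h)), if_neg e1, if_pos e2]
      ring
    · rw [if_neg (fun h => e2 (h1.1 h)), if_neg (fun h => e1 (h2.1 h)), if_neg e1, if_neg e2]
      ring

private theorem hcu_sum (x y : D) : ∑ c, hcu x y c = 0 := by
  unfold hcu
  rw [Finset.sum_sub_distrib]
  have h1 : ∀ a : D, ∑ c : D, (if c = a then (1 : ℝ) else 0) = 1 := by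
    intro a
    rw [Finset.sum_ite_eq' Finset.univ a (fun _ => (1 : ℝ))]
    exact if_pos (Finset.mem_univ a)
  rw [h1, h1, sub_self]

private theorem dvg_sum (T : Tri D) (w : D → ℝ) : ∑ c, dvg T w c = 3 * ∑ c, w c := by
  unfold dvg
  rw [Finset.sum_add_distrib, Finset.sum_add_distrib]
  have h1 : ∀ g : D → ℝ, ∑ c, g (T.f c) = ∑ c, g c := fun g => Equiv.sum_comp T.f g
  have h2 : ∑ c, w (T.f (T.f c)) = ∑ c, w c := by
    rw [h1 (fun c => w (T.f c)), h1 w]
  rw [h1 w, h2]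
  ring

omit [Fintype D] in
private theorem hc_s_eq {S S' : Part D} (hsub : S.Sub S') {d : D} (hd : d ∈ S.R) (hb : d ∉ S.B) :
    S'.s d = S.s d ∧ S'.a d ≠ d := by
  have h1 : S.a d ≠ d := fun h' => hb ⟨hd, h'⟩
  have h2 := hsub.2 d h1
  constructor
  · show S'.f (S'.a d) = S.f (S.a d)
    rw [h2]
    exact hsub.1 _ ((Part.mem_R_a S d).2 hd)
  · rw [h2]
    exact h1

/-- the holes outside the hidden component of `z` are holes of `S'` -/
private theorem hc_orb {T : Tri D} {S S' : Part D} {z : D} (hsub : S.Sub S')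
    (hB : ∀ d ∈ S.B, d ∉ S.HC T z → d ∈ S'.B) {d : D} (hd : d ∈ S.B) (hd' : d ∉ S.HC T z) (i : ℕ) :
    (S'.s ^ i) d = (S.s ^ i) d ∧ (S.s ^ i) d ∈ S.R ∧ (S.s ^ i) d ∉ S.HC T z := by
  induction i with
  | zero => exact ⟨rfl, hd.1, hd'⟩
  | succ i ih =>
    obtain ⟨h1, h2, h3⟩ := ih
    rw [pow_succ', Equiv.Perm.mul_apply, pow_succ', Equiv.Perm.mul_apply, h1]
    have h4 : S'.s ((S.s ^ i) d) = S.s ((S.s ^ i) d) := by
      by_cases hb : (S.s ^ i) d ∈ S.B
      · have h5 := hB _ hb h3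
        show S'.f (S'.a _) = S.f (S.a _)
        rw [h5.2, hb.2]
        exact hsub.1 _ hb.1
      · exact (hc_s_eq hsub h2 hb).1
    refine ⟨h4, (Part.mem_R_s S _).2 h2, ?_⟩
    intro hc
    have hR : S.s ((S.s ^ i) d) ∈ S.R := (Part.mem_R_s S _).2 h2
    have hb : S.s ((S.s ^ i) d) ∈ S.B := hc.1.resolve_left (fun h' => h' hR)
    have h5 : S.s ((S.s ^ i) d) ∈ S.hw d := by
      rw [Part.mem_hw S hd]
      refine ⟨hb, ((i + 1 : ℕ) : ℤ), ?_⟩
      rw [zpow_natCast, pow_succ', Equiv.Perm.mul_apply]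
    exact hd' ⟨Or.inr hd, Part.hc_trans hc.2 (Part.hc_symm (Part.hc_hole hd h5))⟩

theorem handle_coc {T : Tri D} (hT : T.Conn) {S : Part D} (h : S.Le T) (hS : S.Con) {z : D} (hz : z ∈ S.B)
    (hu : ∀ d ∈ S.B, S.Hc T z d → d ∈ S.hw z) (hg : (S.fill T h z).gen12 ≠ S.gen12) :
    ∃ w1 w2 q1 q2 : D → ℝ, T.IsCoc w1 ∧ T.IsCoc w2 ∧ VInv S q1 ∧ VInv S q2 ∧
      (∀ d ∈ S.R, w1 d = q1 (S.f d) - q1 d) ∧ (∀ d ∈ S.R, w2 d = q2 (S.f d) - q2 d) ∧
      (∀ d ∈ S.B, d ∉ S.hw z → q1 d = 0) ∧ (∀ d ∈ S.B, d ∉ S.hw z → q2 d = 0) ∧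
      (∀ d ∈ S.X, d ∉ S.HC T z → w1 d = 0 ∧ w2 d = 0) ∧ T.Area w1 w2 ≠ 0 := by
  obtain ⟨S', hsub, hle', hcon', hR', hB', x, hx, hy, hxC, hns⟩ := exists_handle hT h hS hz hg
  have hyC : T.a x ∈ S.HC T z :=
    ⟨(Part.X_a h x).2 hxC.1, Part.hc_trans hxC.2 (Part.hc_a hxC.1)⟩
  have hout : ∀ d ∈ S.B, d ∉ S.hw z → d ∉ S.HC T z := fun d hd hd' hc => hd' (hu d hd hc.2)
  have hxn : ∀ d, d ∉ S.HC T z → d ≠ x ∧ d ≠ T.a x := by
    intro d hd
    constructor
    · rintro rfl
      exact hd hxC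
    · rintro rfl
      exact hd hyC
  -- the first cocycle
  obtain ⟨v, hv1, hv2, hv3⟩ := con_flow hle' hcon' (m := fun c => - dvg T (hcu x (T.a x)) c)
    (by
      intro d
      show - dvg T (hcu x (T.a x)) (T.f d) = - dvg T (hcu x (T.a x)) d
      rw [dvg_f])
    (by
      intro d hd
      have hne : ∀ e, e ∉ S'.R → hcu x (T.a x) e = 0 := by
        intro e he
        apply hcu_ne
        · rintro rfl
          exact he hx.1
        · rintro rfl
          exact he hy.1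
      have h1 : T.f d ∉ S'.R := fun h' => hd ((Part.le_f_mem hle' d).1 h')
      have h2 : T.f (T.f d) ∉ S'.R := fun h' => h1 ((Part.le_f_mem hle' _).1 h')
      show - dvg T (hcu x (T.a x)) d = 0
      unfold dvg
      rw [hne d hd, hne _ h1, hne _ h2]
      norm_num)
    (by
      rw [Finset.sum_neg_distrib, dvg_sum, hcu_sum]
      norm_num)
  have hv0B : ∀ d ∈ S'.B, v d = 0 := by
    intro d hd
    by_contra hc
    exact (hv2 d hc).2 hd
  have hv0R : ∀ d, d ∉ S'.R → v d = 0 := by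
    intro d hd
    by_contra hc
    exact hd (hv2 d hc).1
  have hw1 : T.IsCoc (fun d => hcu x (T.a x) d + v d) := by
    rw [isCoc_iff]
    refine ⟨(hcu_asy T x).add hv1, ?_⟩
    intro d
    rw [dvg_add, hv3]
    ring
  have hw1X : ∀ d ∈ S.X, d ∉ S.HC T z → hcu x (T.a x) d + v d = 0 := by
    intro d hd hd'
    have h1 := hxn d hd'
    rw [hcu_ne h1.1 h1.2, zero_add]
    rcases hd with hd | hd
    · apply hv0R
      intro h'
      rcases hR' d h' with h2 | h2
      · exact hd h2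
      · exact hd' h2
    · exact hv0B d (hB' d hd hd')
  obtain ⟨w1, q1, hc1, hq1, hg1, hX1, hz1⟩ := exists_ext h hz hw1
    (fun d hd hd' => hw1X d (Or.inr hd) (hout d hd hd'))
  -- the second cocycle
  obtain ⟨q2, w2, hq2, hc2, hg2, hs2, he2, ha2⟩ := exists_ring hle' hx
  refine ⟨w1, w2, q1, q2, hc1, hc2, hq1, ?_, hg1, ?_, hz1, ?_, ?_, ?_⟩
  · intro d hd hb
    obtain ⟨h1, h2⟩ := hc_s_eq hsub hd hb
    rw [← h1]
    exact hq2 d (hsub.R_sub hd) (fun h' => h2 h'.2)
  · intro d hd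
    rw [hg2 d (hsub.R_sub hd), hsub.1 d hd]
  · intro d hd hd'
    have hdC := hout d hd hd'
    have hdB := hB' d hd hdC
    rw [he2 d hdB]
    apply if_neg
    intro hm
    rw [Part.mem_hw S' hx] at hm
    obtain ⟨n, hn⟩ := hm.2.symm.exists_nat_pow_eq
    have h1 := hc_orb hsub hB' hd hdC n
    rw [h1.1] at hn
    apply h1.2.2
    rw [hn]
    exact hxC
  · intro d hd hd'
    refine ⟨?_, ?_⟩
    · rw [hX1 d hd]
      exact hw1X d hd hd'
    · by_contra hc
      obtain ⟨h1, h2⟩ := hs2 d hc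
      rcases hd with hd | hd
      · rcases hR' d h1 with h3 | h3
        · exact hd h3
        · exact hd' h3
      · exact h2 (hB' d hd hd')
  · have h1 : T.Area w1 w2 = - T.Area w2 w1 := by
      unfold Tri.Area
      rw [← Finset.sum_neg_distrib]
      apply Finset.sum_congr rfl
      intro d _
      ring
    have h2 : per w1 (S'.hw x) = 1 := by
      rw [per_hw_eq hx]
      have h3 : ∀ d ∈ Finset.univ.filter (fun d => d ∈ S'.hw x), w1 d = if d = x then 1 else 0 := by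
        intro d hd
        rw [Finset.mem_filter] at hd
        have h4 := (Part.mem_hw S' hx).1 hd.2
        have h5 : d ∈ S.X := by
          by_cases h6 : d ∈ S.R
          · right
            refine ⟨h6, ?_⟩
            by_contra h7
            have h8 := hsub.2 d h7
            rw [h4.1.2] at h8
            exact h7 h8.symm
          · exact Or.inl h6
        rw [hX1 d h5, hv0B d h4.1, add_zero]
        have h6 : d ≠ T.a x := by
          rintro rfl
          exact hns h4.2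
        unfold hcu
        rw [if_neg h6, sub_zero]
      rw [Finset.sum_congr rfl h3, Finset.sum_ite_eq' _ x (fun _ => (1 : ℝ))]
      apply if_pos
      rw [Finset.mem_filter]
      exact ⟨Finset.mem_univ x, (Part.mem_hw S' hx).2 ⟨hx, Equiv.Perm.SameCycle.refl _ _⟩⟩
    rw [h1, ha2 w1 hc1, h2]
    norm_num

end SYS
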