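import Pool.Agent.SYS.UT.Grd

/-!
# SYS-UT-Gau: change of gauge on an explored region

PLAN.  `l' d := k d * l d * (k (S.f d))⁻¹`.
* `gau_inv`: `d ∈ R \ B`: `T.a d = S.a d`, `k (S.s d) = k d` with `S.s d = S.f (S.a d)`, and (for the dart `S.a d ∈ R \ B`) `k (S.f d) = k (S.a d)`
  (`S.s (S.a d) = S.f (S.a (S.a d)) = S.f d`); `l (T.a d) = (l d)⁻¹`.
* `gau_face`: telescoping, `S.f = T.f` on `R`, `T.fff`.
* `gau_hol`: for a part `[e_0, …, e_m]` of the hole (`nx e_i = e_(i+1)`): `k (S.f e_i) = k (nx e_i)` (`VInv.nx`), so the product telescopes to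
  `k e_0 * hol l * (k (nx e_m))⁻¹`; at the end `nx e_m = x` (last element of `S.hw x`).  (`hw_chain`, or `hw` as `(List.range _).map`; the successor of the
  last element is `x`: `(nx ^ per) x = x`, or `hw_rot`.)
-/

namespace SYS

open Classical SST

variable {D : Type} [Finite D] {G : Type} [Group G]

/-- The labels after a change of gauge. -/
noncomputable def gau (S : Part D) (k l : D → G) (d : D) : G := k d * l d * (k (S.f d))⁻¹

/-- The successor of the last element of the hole word is its first element. -/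
private theorem gau_last {S : Part D} {x : D} (hx : x ∈ S.B) {u : List D} {y : D}
    (h : S.hw x = u ++ [y]) : S.nx y = x := by
  have hy : y ∈ S.B := ((S.mem_hw hx).1 (by rw [h]; simp)).1
  have h1 := S.hw_rot hx h
  rw [List.nil_append] at h1
  obtain ⟨v, hv⟩ := S.hw_cons hx
  cases u with
  | nil =>
    rw [hv, List.nil_append] at h
    have hxy : x = y := (List.cons.inj h).1
    obtain ⟨j, h2, h3, h4⟩ := ret_spec S.s hy
    have h5 : S.nx y ∈ S.hw y := (S.mem_hw hy).2 ⟨S.nx_mem.2 hy, ⟨((j + 1 : ℕ) : ℤ), by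
      rw [zpow_natCast]
      exact h2.symm⟩⟩
    rw [h1, List.mem_singleton] at h5
    rw [h5, hxy]
  | cons z u =>
    rw [hv, List.cons_append] at h
    have hz : x = z := (List.cons.inj h).1
    have hc := S.hw_chain hy
    rw [h1, List.isChain_cons_cons] at hc
    rw [hc.1, hz]

private theorem gau_tele {S : Part D} {k l : D → G} (hk : VInv S k) : ∀ (u : List D) (y : D),
    (∀ d ∈ y :: u, d ∈ S.B) → List.IsChain (fun d e => S.nx d = e) (y :: u) →
    hol (gau S k l) (y :: u) = k y * hol l (y :: u) * (k (S.nx ((y :: u).getLast (by simp))))⁻¹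
  | [], y, hB, _ => by
    have h1 : k (S.f y) = k (S.nx y) := hk.nx (hB y List.mem_cons_self)
    rw [hol_cons, hol_cons, hol_nil, hol_nil, mul_one, mul_one, List.getLast_singleton, ← h1]
    rfl
  | z :: u, y, hB, hc => by
    rw [List.isChain_cons_cons] at hc
    have h1 : k (S.f y) = k (S.nx y) := hk.nx (hB y List.mem_cons_self)
    have h2 := gau_tele (l := l) hk u z (fun d hd => hB d (List.mem_cons_of_mem _ hd)) hc.2
    have h3 : gau S k l y = k y * l y * (k z)⁻¹ := by
      show k y * l y * (k (S.f y))⁻¹ = _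
      rw [h1, hc.1]
    rw [hol_cons, h2, h3, hol_cons l y, List.getLast_cons_cons]
    group

section
variable {S : Part D} {T : Tri D} (h : S.Le T) {k l : D → G} (hk : VInv S k) (hl : Flat T l)
include h hk hl

theorem gau_inv {d : D} (hd : d ∈ S.R) (hd' : d ∉ S.B) : gau S k l (T.a d) = (gau S k l d)⁻¹ := by
  have hne : S.a d ≠ d := fun h1 => hd' ⟨hd, h1⟩
  have e1 : T.a d = S.a d := h.2 d hne
  have e2 : k (S.f (S.a d)) = k d := hk d hd hd'
  have e3 : k (S.f d) = k (S.a d) := by
    have h1 := hk (S.a d) ((S.mem_R_a d).2 hd) (fun h2 => hne (by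
      have h3 := h2.2
      rw [S.aa] at h3
      exact h3.symm))
    rw [Part.s_apply, S.aa] at h1
    exact h1
  have e4 : l (S.a d) = (l d)⁻¹ := by rw [← e1, hl.inv]
  unfold gau
  rw [e1, e2, e3, e4]
  group

theorem gau_face {d : D} (hd : d ∈ S.R) : gau S k l d * gau S k l (T.f d) * gau S k l (T.f (T.f d)) = 1 := by
  have hd2 : S.f d ∈ S.R := (S.mem_R_f d).2 hd
  have e1 : T.f d = S.f d := h.1 d hd
  have e2 : T.f (S.f d) = S.f (S.f d) := h.1 (S.f d) hd2
  have e3 := hl.face d
  rw [e1, e2] at e3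
  have e4 := hk
  rw [e1, e2]
  unfold gau
  rw [S.fff]
  calc k d * l d * (k (S.f d))⁻¹ * (k (S.f d) * l (S.f d) * (k (S.f (S.f d)))⁻¹) *
        (k (S.f (S.f d)) * l (S.f (S.f d)) * (k d)⁻¹)
      = k d * (l d * l (S.f d) * l (S.f (S.f d))) * (k d)⁻¹ := by group
    _ = 1 := by rw [e3]; group

theorem gau_hol {x : D} (hx : x ∈ S.B) : hol (gau S k l) (S.hw x) = k x * hol l (S.hw x) * (k x)⁻¹ := by
  have _ := h
  have _ := hl
  obtain ⟨u, hu⟩ := S.hw_cons hx
  have h1 : S.hw x = (x :: u).dropLast ++ [(x :: u).getLast (by simp)] := by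
    rw [List.dropLast_append_getLast, hu]
  have h2 := gau_last hx h1
  have h3 := gau_tele (l := l) hk u x (fun d hd => ((S.mem_hw hx).1 (by rw [hu]; exact hd)).1)
    (by rw [← hu]; exact S.hw_chain hx)
  rw [h2] at h3
  rw [hu]
  exact h3

end

end SYS
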