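import Pool.Agent.SYS.UT.Flow
import Pool.Agent.SYS.Lib.Flat

/-!
# SYS-UT-Heis: the Heisenberg group and flat labellings from two cocycles

Third component of the product of `(x, y, t) (x', y', t') (x'', y'', t'')` with `x'' = -(x + x')`, `y'' = -(y + y')` is
`t + t' + t'' + (x y' - x' y)`.
-/

namespace SYS

open Classical SST

/-- The Heisenberg group. -/
@[ext] structure Hs : Type where
  p : ℝ
  q : ℝ
  r : ℝ

namespace Hs

instance : Mul Hs := ⟨fun a b => ⟨a.p + b.p, a.q + b.q, a.r + b.r + (a.p * b.q - b.p * a.q)⟩⟩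

instance : One Hs := ⟨⟨0, 0, 0⟩⟩

instance : Inv Hs := ⟨fun a => ⟨-a.p, -a.q, -a.r⟩⟩

theorem mul_def (a b : Hs) : a * b = ⟨a.p + b.p, a.q + b.q, a.r + b.r + (a.p * b.q - b.p * a.q)⟩ := rfl

theorem one_def : (1 : Hs) = ⟨0, 0, 0⟩ := rfl

theorem inv_def (a : Hs) : a⁻¹ = ⟨-a.p, -a.q, -a.r⟩ := rfl

instance : Group Hs := Group.ofLeftAxioms
  (by
    intro a b c
    simp only [mul_def, Hs.mk.injEq]
    refine ⟨?_, ?_, ?_⟩ <;> ring)
  (by
    intro a
    simp only [mul_def, one_def]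
    ext <;> ring)
  (by
    intro a
    simp only [mul_def, inv_def, one_def]
    ext <;> ring)

end Hs

variable {D : Type}

theorem heis_flat {T : Tri D} {X Y t : D → ℝ} (hX : T.IsCoc X) (hY : T.IsCoc Y) (ht : ASy T t)
    (hA : ∀ d, dvg T t d = - (X d * Y (T.f d) - X (T.f d) * Y d)) :
    Flat T fun d => (⟨X d, Y d, t d⟩ : Hs) := by
  rw [isCoc_iff] at hX hY
  constructor
  · intro d
    change (⟨X (T.a d), Y (T.a d), t (T.a d)⟩ : Hs) = (⟨X d, Y d, t d⟩ : Hs)⁻¹
    rw [Hs.inv_def, hX.1 d, hY.1 d, ht d]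
  · intro d
    change (⟨X d, Y d, t d⟩ : Hs) * ⟨X (T.f d), Y (T.f d), t (T.f d)⟩ *
      ⟨X (T.f (T.f d)), Y (T.f (T.f d)), t (T.f (T.f d))⟩ = 1
    have h1 := hX.2 d
    have h2 := hY.2 d
    have h3 := hA d
    unfold dvg at h1 h2 h3
    have e1 : X (T.f (T.f d)) = -(X d + X (T.f d)) := by linarith
    have e2 : Y (T.f (T.f d)) = -(Y d + Y (T.f d)) := by linarith
    rw [Hs.mul_def, Hs.mul_def, Hs.one_def, Hs.mk.injEq]
    refine ⟨?_, ?_, ?_⟩
    · linarith
    · linarith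
    · simp only []
      rw [e1, e2]
      linear_combination h3

/-- The product of central elements. -/
theorem hol_central {l : D → Hs} {c : List D} (h : ∀ d ∈ c, (l d).p = 0 ∧ (l d).q = 0) :
    hol l c = ⟨0, 0, (c.map fun d => (l d).r).sum⟩ := by
  induction c with
  | nil => rfl
  | cons d c ih =>
    rw [hol_cons, ih (fun e he => h e (List.mem_cons_of_mem _ he)), Hs.mul_def, List.map_cons,
      List.sum_cons]
    have h1 := h d List.mem_cons_self
    rw [Hs.mk.injEq]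
    refine ⟨?_, ?_, ?_⟩
    · change (l d).p + 0 = 0
      rw [h1.1, add_zero]
    · change (l d).q + 0 = 0
      rw [h1.2, add_zero]
    · change (l d).r + (c.map fun d => (l d).r).sum + ((l d).p * 0 - 0 * (l d).q) = _
      ring

end SYS
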