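import Pool.Agent.SYS.UT.SumB
import Pool.Agent.SYS.Lib.HidB

/-!
# SYS-UT-SepS: Stokes on one side of a hole

The side `R ∪ HC z'` has the boundary `S.hw z`.

The darts inside of the side cancel in pairs.
-/

namespace SYS

open Classical SST GNH

variable {D : Type} [Fintype D]

theorem stokes_side {T : Tri D} {S : Part D} (h : S.Le T) {z z' : D} (hz : z ∈ S.B)
    (hne : ¬ S.Hc T z z') (hall : ∀ d ∈ S.B, S.Hc T z d ∨ S.Hc T z' d) (hu : ∀ d ∈ S.B, S.Hc T z d → d ∈ S.hw z)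
    {t : D → ℝ} (ht : ∀ d, (d ∈ S.R ∧ d ∉ S.B) ∨ d ∈ S.HC T z' → t (T.a d) = - t d) :
    ∑ d ∈ Finset.univ.filter (fun d => d ∈ S.R ∨ d ∈ S.HC T z'), (t d + t (T.f d) + t (T.f (T.f d))) =
      3 * ∑ e ∈ Finset.univ.filter (fun e => e ∈ S.hw z), t e := by
  have hYF : ∀ d, (T.f d ∈ S.R ∨ T.f d ∈ S.HC T z') ↔ (d ∈ S.R ∨ d ∈ S.HC T z') :=
    fun d => Part.fill_hY h z' d
  have hEA : ∀ d, ((T.a d ∈ S.R ∧ T.a d ∉ S.B) ∨ T.a d ∈ S.HC T z') ↔
      ((d ∈ S.R ∧ d ∉ S.B) ∨ d ∈ S.HC T z') := fun d => Part.fill_hE h z' d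
  have hf : ∑ d ∈ Finset.univ.filter (fun d => d ∈ S.R ∨ d ∈ S.HC T z'), t (T.f d) =
      ∑ d ∈ Finset.univ.filter (fun d => d ∈ S.R ∨ d ∈ S.HC T z'), t d := by
    refine Finset.sum_bij (fun d _ => T.f d) ?_ ?_ ?_ ?_
    · intro d hd
      rw [Finset.mem_filter] at hd ⊢
      exact ⟨Finset.mem_univ _, (hYF d).2 hd.2⟩
    · intro d _ e _ hde
      exact T.f.injective hde
    · intro d hd
      rw [Finset.mem_filter] at hd
      refine ⟨T.f.symm d, ?_, T.f.apply_symm_apply d⟩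
      rw [Finset.mem_filter]
      refine ⟨Finset.mem_univ _, (hYF _).1 ?_⟩
      rw [T.f.apply_symm_apply]
      exact hd.2
    · intro d _
      rfl
  have hf2 : ∑ d ∈ Finset.univ.filter (fun d => d ∈ S.R ∨ d ∈ S.HC T z'), t (T.f (T.f d)) =
      ∑ d ∈ Finset.univ.filter (fun d => d ∈ S.R ∨ d ∈ S.HC T z'), t (T.f d) := by
    refine Finset.sum_bij (fun d _ => T.f d) ?_ ?_ ?_ ?_
    · intro d hd
      rw [Finset.mem_filter] at hd ⊢
      exact ⟨Finset.mem_univ _, (hYF d).2 hd.2⟩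
    · intro d _ e _ hde
      exact T.f.injective hde
    · intro d hd
      rw [Finset.mem_filter] at hd
      refine ⟨T.f.symm d, ?_, T.f.apply_symm_apply d⟩
      rw [Finset.mem_filter]
      refine ⟨Finset.mem_univ _, (hYF _).1 ?_⟩
      rw [T.f.apply_symm_apply]
      exact hd.2
    · intro d _
      rfl
  have ha : ∑ d ∈ Finset.univ.filter (fun d => (d ∈ S.R ∧ d ∉ S.B) ∨ d ∈ S.HC T z'), t (T.a d) =
      ∑ d ∈ Finset.univ.filter (fun d => (d ∈ S.R ∧ d ∉ S.B) ∨ d ∈ S.HC T z'), t d := by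
    refine Finset.sum_bij (fun d _ => T.a d) ?_ ?_ ?_ ?_
    · intro d hd
      rw [Finset.mem_filter] at hd ⊢
      exact ⟨Finset.mem_univ _, (hEA d).2 hd.2⟩
    · intro d _ e _ hde
      exact T.a.injective hde
    · intro d hd
      rw [Finset.mem_filter] at hd
      refine ⟨T.a.symm d, ?_, T.a.apply_symm_apply d⟩
      rw [Finset.mem_filter]
      refine ⟨Finset.mem_univ _, (hEA _).1 ?_⟩
      rw [T.a.apply_symm_apply]
      exact hd.2
    · intro d _
      rfl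
  have ha2 : ∑ d ∈ Finset.univ.filter (fun d => (d ∈ S.R ∧ d ∉ S.B) ∨ d ∈ S.HC T z'), t (T.a d) =
      - ∑ d ∈ Finset.univ.filter (fun d => (d ∈ S.R ∧ d ∉ S.B) ∨ d ∈ S.HC T z'), t d := by
    rw [← Finset.sum_neg_distrib]
    apply Finset.sum_congr rfl
    intro d hd
    exact ht d (Finset.mem_filter.1 hd).2
  have h0 : ∑ d ∈ Finset.univ.filter (fun d => (d ∈ S.R ∧ d ∉ S.B) ∨ d ∈ S.HC T z'), t d = 0 := by
    linarith
  have hdisj : Disjoint (Finset.univ.filter (fun d => (d ∈ S.R ∧ d ∉ S.B) ∨ d ∈ S.HC T z'))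
      (Finset.univ.filter (fun e => e ∈ S.hw z)) := by
    rw [Finset.disjoint_left]
    intro d hd he
    have hd' := (Finset.mem_filter.1 hd).2
    have he' := (Finset.mem_filter.1 he).2
    rcases hd' with h1 | h1
    · exact h1.2 ((Part.mem_hw S hz).1 he').1
    · exact hne (Part.hc_trans (Part.hc_hole hz he') (Part.hc_symm h1.2))
  have hun : Finset.univ.filter (fun d => d ∈ S.R ∨ d ∈ S.HC T z') =
      Finset.univ.filter (fun d => (d ∈ S.R ∧ d ∉ S.B) ∨ d ∈ S.HC T z') ∪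
      Finset.univ.filter (fun e => e ∈ S.hw z) := by
    ext d
    rw [Finset.mem_union, Finset.mem_filter, Finset.mem_filter, Finset.mem_filter]
    constructor
    · rintro ⟨_, h1⟩
      rcases h1 with h1 | h1
      · by_cases hB : d ∈ S.B
        · rcases hall d hB with h2 | h2
          · exact Or.inr ⟨Finset.mem_univ _, hu d hB h2⟩
          · exact Or.inl ⟨Finset.mem_univ _, Or.inr ⟨Or.inr hB, h2⟩⟩
        · exact Or.inl ⟨Finset.mem_univ _, Or.inl ⟨h1, hB⟩⟩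
      · exact Or.inl ⟨Finset.mem_univ _, Or.inr h1⟩
    · rintro (⟨_, h1⟩ | ⟨_, h1⟩)
      · rcases h1 with h1 | h1
        · exact ⟨Finset.mem_univ _, Or.inl h1.1⟩
        · exact ⟨Finset.mem_univ _, Or.inr h1⟩
      · exact ⟨Finset.mem_univ _, Or.inl ((Part.mem_hw S hz).1 h1).1.1⟩
  have hF : ∑ d ∈ Finset.univ.filter (fun d => d ∈ S.R ∨ d ∈ S.HC T z'), t d =
      ∑ e ∈ Finset.univ.filter (fun e => e ∈ S.hw z), t e := by
    rw [hun, Finset.sum_union hdisj, h0, zero_add]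
  rw [Finset.sum_add_distrib, Finset.sum_add_distrib, hf2, hf, hF]
  ring

end SYS
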