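import Pool.Agent.SYS.UT.SepA
import Pool.Agent.SYS.UT.SepS
import Pool.Agent.SYS.UT.Heis
import Pool.Agent.SYS.UT.Gau
import Pool.Agent.SYS.Lib.HidB
import Pool.Agent.SST.D.Prim

/-!
# SYS-UT-SepH: a Heisenberg labelling with non-trivial holonomy along a hole which separates two non-planar sides

`S` explored, two hidden components `C = HC z` (whose only hole is that of `z`) and `C' = HC z'`, all holes belong to one of them.
`y1, y2`: cocycles supported inside `S ∪ C'`, `w1, w2`: cocycles which vanish on `C'` and are gradients (of `q1`, `q2`) on `S`,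
`q1 = q2 = 0` at the boundary darts which are not in the hole of `z`.
-/

namespace SYS

open Classical SST GNH

variable {D : Type} [Fintype D]

private theorem area_swap (T : Tri D) (x y : D → ℝ) : T.Area x y = - T.Area y x := by
  unfold SST.Tri.Area
  rw [← Finset.sum_neg_distrib]
  refine Finset.sum_congr rfl fun d _ => ?_
  ring

private theorem area_exp (T : Tri D) (w1 w2 y1 y2 : D → ℝ) (lam : ℝ) :
    T.Area (fun d => w1 d + y1 d) (fun d => w2 d + lam * y2 d) =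
      T.Area w1 w2 + lam * T.Area w1 y2 + T.Area y1 w2 + lam * T.Area y1 y2 := by
  unfold SST.Tri.Area
  rw [Finset.mul_sum, Finset.mul_sum, ← Finset.sum_add_distrib, ← Finset.sum_add_distrib,
    ← Finset.sum_add_distrib]
  refine Finset.sum_congr rfl fun d _ => ?_
  ring

omit [Fintype D] in
private theorem coc_lin {T : Tri D} {x y : D → ℝ} (hx : T.IsCoc x) (hy : T.IsCoc y) (c : ℝ) :
    T.IsCoc fun d => x d + c * y d := by
  refine ⟨fun d => ?_, fun d => ?_⟩
  · show x (T.a d) + c * y (T.a d) = - (x d + c * y d)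
    rw [hx.1, hy.1]
    ring
  · have h1 := hx.2 d
    have h2 := hy.2 d
    show x d + c * y d + (x (T.f d) + c * y (T.f d)) + (x (T.f (T.f d)) + c * y (T.f (T.f d))) = 0
    linear_combination h1 + c * h2

theorem sep_hol {T : Tri D} (hT : T.Conn) {S : Part D} (h : S.Le T) {z z' : D} (hz : z ∈ S.B)
    (hne : ¬ S.Hc T z z') (hall : ∀ d ∈ S.B, S.Hc T z d ∨ S.Hc T z' d)
    (hu : ∀ d ∈ S.B, S.Hc T z d → d ∈ S.hw z) {y1 y2 w1 w2 q1 q2 : D → ℝ}
    (hy1 : T.IsCoc y1) (hy2 : T.IsCoc y2) (hs1 : ∀ d, y1 d ≠ 0 → (d ∈ S.R ∧ d ∉ S.B) ∨ d ∈ S.HC T z')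
    (hs2 : ∀ d, y2 d ≠ 0 → (d ∈ S.R ∧ d ∉ S.B) ∨ d ∈ S.HC T z') (hyA : T.Area y1 y2 ≠ 0)
    (hw1 : T.IsCoc w1) (hw2 : T.IsCoc w2) (hq1 : VInv S q1) (hq2 : VInv S q2)
    (hg1 : ∀ d ∈ S.R, w1 d = q1 (S.f d) - q1 d) (hg2 : ∀ d ∈ S.R, w2 d = q2 (S.f d) - q2 d)
    (h01 : ∀ d ∈ S.B, d ∉ S.hw z → q1 d = 0) (h02 : ∀ d ∈ S.B, d ∉ S.hw z → q2 d = 0)
    (hz1 : ∀ d ∈ S.HC T z', w1 d = 0) (hz2 : ∀ d ∈ S.HC T z', w2 d = 0) (hwA : T.Area w1 w2 ≠ 0) :
    ∃ l : D → Hs, Flat T l ∧ hol l (S.hw z) ≠ 1 := by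
  have ha1 : T.Area w1 y2 = 0 := area_cross hT h hz hne hall hy2 hs2 hq1 hg1 h01 hz1
  have ha2 : T.Area y1 w2 = 0 := by
    rw [area_swap, area_cross hT h hz hne hall hy1 hs1 hq2 hg2 h02 hz2, neg_zero]
  set lam : ℝ := - T.Area w1 w2 / T.Area y1 y2 with hlam
  have hlA : lam * T.Area y1 y2 = - T.Area w1 w2 := by
    rw [hlam]
    field_simp
  set X : D → ℝ := fun d => w1 d + y1 d with hX
  set Y : D → ℝ := fun d => w2 d + lam * y2 d with hY
  have hXc : T.IsCoc X := by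
    have h1 := coc_lin hw1 hy1 1
    simp only [one_mul] at h1
    exact h1
  have hYc : T.IsCoc Y := coc_lin hw2 hy2 lam
  have hXY : T.Area X Y = 0 := by
    rw [hX, hY, area_exp, ha1, ha2, hlA]
    ring
  set A : D → ℝ := fun d => - (X d * Y (T.f d) - X (T.f d) * Y d) with hA
  have hAf : ∀ d, A (T.f d) = A d := by
    intro d
    have h1 := hXc.2 d
    have h2 := hYc.2 d
    show - (X (T.f d) * Y (T.f (T.f d)) - X (T.f (T.f d)) * Y (T.f d)) = - (X d * Y (T.f d) - X (T.f d) * Y d)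
    linear_combination Y (T.f d) * h1 - X (T.f d) * h2
  have hA0 : ∑ d, A d = 0 := by
    rw [hA, Finset.sum_neg_distrib]
    have h1 : ∑ d, (X d * Y (T.f d) - X (T.f d) * Y d) = 0 := hXY
    rw [h1, neg_zero]
  obtain ⟨t, ht1, ht2⟩ := T.exists_prim hT hAf hA0
  set l : D → Hs := fun d => ⟨X d, Y d, t d⟩ with hl
  have hlF : Flat T l := heis_flat hXc hYc ht1 ht2
  refine ⟨l, hlF, fun hcon => ?_⟩
  set k : D → Hs := fun d => ⟨q1 d, q2 d, 0⟩ with hk
  have hkV : VInv S k := by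
    intro d hd hd'
    show (⟨q1 (S.s d), q2 (S.s d), 0⟩ : Hs) = ⟨q1 d, q2 d, 0⟩
    rw [hq1 d hd hd', hq2 d hd hd']
  set L : D → Hs := gau S k l with hL
  have hLd : ∀ d, L d = (⟨q1 d, q2 d, 0⟩ : Hs) * ⟨X d, Y d, t d⟩ * (⟨q1 (S.f d), q2 (S.f d), 0⟩ : Hs)⁻¹ :=
    fun d => rfl
  have hLp : ∀ d ∈ S.R, (L d).p = y1 d := by
    intro d hd
    rw [hLd, Hs.inv_def, Hs.mul_def, Hs.mul_def]
    show q1 d + (w1 d + y1 d) + -q1 (S.f d) = y1 d
    rw [hg1 d hd]
    ring
  have hLq : ∀ d ∈ S.R, (L d).q = lam * y2 d := by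
    intro d hd
    rw [hLd, Hs.inv_def, Hs.mul_def, Hs.mul_def]
    show q2 d + (w2 d + lam * y2 d) + -q2 (S.f d) = lam * y2 d
    rw [hg2 d hd]
    ring
  set t' : D → ℝ := fun d => if d ∈ S.R then (L d).r else t d with ht'
  -- darts of the hidden component of z' do not belong to the hole of z
  have hzz : ∀ d ∈ S.HC T z', d ∉ S.hw z := by
    intro d hd hd'
    exact hne (Part.hc_trans (Part.hc_hole hz hd') (Part.hc_symm hd.2))
  have hHCB : ∀ d ∈ S.HC T z', d ∈ S.B → q1 d = 0 ∧ q2 d = 0 := fun d hd hB =>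
    ⟨h01 d hB (hzz d hd), h02 d hB (hzz d hd)⟩
  have ht'HC : ∀ d ∈ S.HC T z', t' d = t d := by
    intro d hd
    by_cases hR : d ∈ S.R
    · have hB : d ∈ S.B := by
        rcases hd.1 with h1 | h1
        · exact absurd hR h1
        · exact h1
      have hnB : S.nx d ∈ S.B := (S.nx_mem).2 hB
      have hnHC : S.nx d ∈ S.HC T z' := ⟨Or.inr hnB, Part.hc_trans hd.2 (Part.hc_nx hB)⟩
      obtain ⟨e1, e2⟩ := hHCB d hd hB
      obtain ⟨e3, e4⟩ := hHCB _ hnHC hnB
      have e5 : q1 (S.f d) = 0 := by rw [hq1.nx hB, e3]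
      have e6 : q2 (S.f d) = 0 := by rw [hq2.nx hB, e4]
      show (if d ∈ S.R then (L d).r else t d) = t d
      rw [if_pos hR, hLd, e1, e2, e5, e6, Hs.inv_def, Hs.mul_def, Hs.mul_def]
      show 0 + t d + (0 * Y d - X d * 0) + -0 + ((0 + X d) * -0 - -0 * (0 + Y d)) = t d
      ring
    · show (if d ∈ S.R then (L d).r else t d) = t d
      rw [if_neg hR]
  have ht'a : ∀ d, (d ∈ S.R ∧ d ∉ S.B) ∨ d ∈ S.HC T z' → t' (T.a d) = - t' d := by
    rintro d (⟨hR, hB⟩ | hd)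
    · have hX' : d ∉ S.X := by
        rintro (h1 | h1)
        · exact h1 hR
        · exact hB h1
      have hX2 : T.a d ∉ S.X := fun h' => hX' ((Part.X_a h d).1 h')
      have hR2 : T.a d ∈ S.R := by
        by_contra h'
        exact hX2 (Or.inl h')
      show (if T.a d ∈ S.R then (L (T.a d)).r else t (T.a d)) = - (if d ∈ S.R then (L d).r else t d)
      rw [if_pos hR2, if_pos hR, hL, gau_inv h hkV hlF hR hB]
      rfl
    · have h2 : T.a d ∈ S.HC T z' := ⟨(Part.X_a h d).2 hd.1, Part.hc_trans hd.2 (Part.hc_a hd.1)⟩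
      rw [ht'HC d hd, ht'HC _ h2, ht1]
  -- the faces
  have hface : ∀ d, d ∈ S.R ∨ d ∈ S.HC T z' → t' d + t' (T.f d) + t' (T.f (T.f d)) =
      -(lam * (y1 d * y2 (T.f d) - y1 (T.f d) * y2 d)) := by
    intro d hd
    by_cases hR : d ∈ S.R
    · have hR1 : T.f d ∈ S.R := (Part.le_f_mem h d).2 hR
      have hR2 : T.f (T.f d) ∈ S.R := (Part.le_f_mem h _).2 hR1
      have hF := gau_face h hkV hlF hR
      rw [← hL, Hs.mul_def, Hs.mul_def, Hs.one_def] at hF
      have hr := congrArg Hs.r hF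
      dsimp only at hr
      rw [hLp d hR, hLq d hR, hLp _ hR1, hLq _ hR1, hLp _ hR2, hLq _ hR2] at hr
      have e1 := hy1.2 d
      have e2 := hy2.2 d
      show (if d ∈ S.R then (L d).r else t d) + (if T.f d ∈ S.R then (L (T.f d)).r else t (T.f d)) +
        (if T.f (T.f d) ∈ S.R then (L (T.f (T.f d))).r else t (T.f (T.f d))) = _
      rw [if_pos hR, if_pos hR1, if_pos hR2]
      linear_combination hr - lam * (y1 d + y1 (T.f d)) * e2 + lam * (y2 d + y2 (T.f d)) * e1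
    · have hR1 : T.f d ∉ S.R := fun h' => hR ((Part.le_f_mem h d).1 h')
      have hR2 : T.f (T.f d) ∉ S.R := fun h' => hR1 ((Part.le_f_mem h _).1 h')
      have hd : d ∈ S.HC T z' := hd.resolve_left hR
      have hd1 : T.f d ∈ S.HC T z' := ⟨Or.inl hR1, Part.hc_trans hd.2 (Part.hc_f hR)⟩
      show (if d ∈ S.R then (L d).r else t d) + (if T.f d ∈ S.R then (L (T.f d)).r else t (T.f d)) +
        (if T.f (T.f d) ∈ S.R then (L (T.f (T.f d))).r else t (T.f (T.f d))) = _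
      rw [if_neg hR, if_neg hR1, if_neg hR2, ht2 d]
      show - ((w1 d + y1 d) * (w2 (T.f d) + lam * y2 (T.f d)) - (w1 (T.f d) + y1 (T.f d)) * (w2 d + lam * y2 d)) = _
      rw [hz1 d hd, hz1 _ hd1, hz2 d hd, hz2 _ hd1]
      ring
  have hst := stokes_side h hz hne hall hu ht'a
  have hsum : ∑ d ∈ Finset.univ.filter (fun d => d ∈ S.R ∨ d ∈ S.HC T z'),
      (t' d + t' (T.f d) + t' (T.f (T.f d))) = -(lam * T.Area y1 y2) := by
    have h1 : ∑ d ∈ Finset.univ.filter (fun d => d ∈ S.R ∨ d ∈ S.HC T z'),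
        (t' d + t' (T.f d) + t' (T.f (T.f d))) =
        ∑ d ∈ Finset.univ.filter (fun d => d ∈ S.R ∨ d ∈ S.HC T z'),
          -(lam * (y1 d * y2 (T.f d) - y1 (T.f d) * y2 d)) :=
      Finset.sum_congr rfl fun d hd => hface d (Finset.mem_filter.1 hd).2
    have h2 : ∑ d ∈ Finset.univ.filter (fun d => d ∈ S.R ∨ d ∈ S.HC T z'),
          -(lam * (y1 d * y2 (T.f d) - y1 (T.f d) * y2 d)) =
        ∑ d, -(lam * (y1 d * y2 (T.f d) - y1 (T.f d) * y2 d)) := by
      refine Finset.sum_subset (Finset.filter_subset _ _) fun d _ hd => ?_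
      have hd' : ¬ (d ∈ S.R ∨ d ∈ S.HC T z') := fun h' => hd (Finset.mem_filter.2 ⟨Finset.mem_univ _, h'⟩)
      have e1 : y1 d = 0 := by
        by_contra hh
        rcases hs1 d hh with h3 | h3
        · exact hd' (Or.inl h3.1)
        · exact hd' (Or.inr h3)
      have e2 : y2 d = 0 := by
        by_contra hh
        rcases hs2 d hh with h3 | h3
        · exact hd' (Or.inl h3.1)
        · exact hd' (Or.inr h3)
      rw [e1, e2]
      ring
    rw [h1, h2, Finset.sum_neg_distrib, ← Finset.mul_sum]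
    rfl
  -- the holonomy
  have hper : ∀ e ∈ S.hw z, e ∈ S.B := fun e he => ((S.mem_hw hz).1 he).1
  have hy0 : ∀ e ∈ S.hw z, y1 e = 0 ∧ y2 e = 0 := by
    intro e he
    constructor
    · by_contra hh
      rcases hs1 e hh with h3 | h3
      · exact h3.2 (hper e he)
      · exact hzz e h3 he
    · by_contra hh
      rcases hs2 e hh with h3 | h3
      · exact h3.2 (hper e he)
      · exact hzz e h3 he
  have hc := hol_central (l := L) (c := S.hw z) (fun e he => by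
    have hB := hper e he
    obtain ⟨e1, e2⟩ := hy0 e he
    rw [hLp e hB.1, hLq e hB.1, e1, e2]
    exact ⟨rfl, mul_zero _⟩)
  have hg := gau_hol h hkV hlF hz
  rw [← hL, hcon, mul_one, mul_inv_cancel, hc] at hg
  have hr := congrArg Hs.r hg
  rw [Hs.one_def] at hr
  dsimp only at hr
  have h2 : ((S.hw z).map fun d => (L d).r).sum = ∑ e ∈ Finset.univ.filter (fun e => e ∈ S.hw z), t' e := by
    have h3 := per_hw_eq hz (fun d => (L d).r)
    have h4 : per (fun d => (L d).r) (S.hw z) = ((S.hw z).map fun d => (L d).r).sum := rfl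
    rw [← h4, h3]
    refine Finset.sum_congr rfl fun e he => ?_
    have hB := hper e (Finset.mem_filter.1 he).2
    have hR : e ∈ S.R := hB.1
    show (L e).r = if e ∈ S.R then (L e).r else t e
    rw [if_pos hR]
  rw [h2] at hr
  rw [hsum, hr, hlA, mul_zero, neg_neg] at hst
  exact hwA hst

end SYS
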