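import Pool.Agent.SYS.UT.LInv

/-!
# SYS-UT-Run: the layer rule and the invariant of stage 2: runs and their first non-planar step
-/

namespace SYS

open Classical SST

/-- The layer rule as a local rule: `p` = perimeter at the start of the run. -/
def lrule (p : ℕ) (h : List Stp) : ℕ := if h.getLast? = some .T then 1 else wend p h - 1

theorem linv_start {D : Type} [Finite D] {S : Part D} {x : D} (hx : x ∈ S.B) :
    LInv S x (GR.start (S.per x)) fun _ => 0 :=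
  ⟨S.per_pos hx, rfl, fun _ _ _ => Nat.zero_le _⟩

section
variable {D : Type} [Finite D]

theorem gat_eq {S : Part D} {z : D} {s : Stp} {p : ℕ} {h : List Stp} (hp : S.per z = wend p (h ++ [s])) :
    (S.nx ^ lrule p (h ++ [s])) z = gat S s z := by
  unfold lrule
  rw [List.getLast?_concat]
  cases s with
  | T =>
    rw [if_pos rfl, pow_one]
    rfl
  | L k a =>
    rw [if_neg (by simp), ← hp]
    rfl
  | R k a =>
    rw [if_neg (by simp), ← hp]
    rfl

/-- A run by the layer rule in `T`. -/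
theorem tinv_rch {T : Tri D} (hT : T.Conn) {S0 S' : Part D} {y x' : D} {q p : ℕ} (w : List Stp) :
    ∀ {S : Part D} {x : D} {lab : D → ℕ} {l : GR.LS} {h : List Stp}, TInv T S0 S x y lab q → LInv S x l lab →
    S.per x = wend p h → Part.Rch (lrule p) h S x w S' x' → S'.Le T →
    ∃ lab' : D → ℕ, TInv T S0 S' x' y lab' q ∧ LInv S' x' (GR.lrun l w) lab' ∧
      (∀ d ∈ S.hw y, lab' d = lab d) ∧ S'.hw y = S.hw y := by
  induction w with
  | nil =>
    rintro S x lab l h hI hl hp ⟨rfl, rfl⟩ -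
    exact ⟨lab, hI, hl, fun _ _ => rfl, rfl⟩
  | cons s w ih =>
    rintro S x lab l h hI hl hp ⟨S₁, z, hs, hr⟩ hL
    have hL1 : S₁.Le T := Part.sub_le (Part.rch_sub hr) hL
    obtain ⟨hok, lab₁, hI1, hl1, hy1, hw1⟩ := tinv_st hT hI hl hs hL1
    have hper : S₁.per z = wend p (h ++ [s]) := by
      have hz : z ∈ S₁.B := (Part.st_sub hs).2.2
      have h1 : S₁.s.SameCycle z (gat S₁ s z) := by
        cases s with
        | T => exact ((Part.nx_pow_same S₁ hz 1).2)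
        | L k a => exact (Part.nx_pow_same S₁ hz _).2
        | R k a => exact (Part.nx_pow_same S₁ hz _).2
      rw [Part.per_same S₁ h1, hl1.p, GR.step_p l s hok, wend_append, ← hp, hl.p]
      rfl
    rw [gat_eq hper] at hr
    have hper2 : S₁.per (gat S₁ s z) = wend p (h ++ [s]) := by
      rw [hl1.p, GR.step_p l s hok, wend_append, ← hp, hl.p]
      rfl
    obtain ⟨lab', hI', hl', hy', hw'⟩ := ih hI1 hl1 hper2 hr hL
    refine ⟨lab', hI', hl', fun d hd => ?_, hw'.trans hw1⟩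
    rw [hy' d (by rw [hw1]; exact hd), hy1 d hd]

/-- The labels of the hole of the gate. -/
theorem LInv.bound {S : Part D} {x : D} {l : GR.LS} {lab : D → ℕ} (h : LInv S x l lab) (hx : x ∈ S.B) :
    ∀ e ∈ S.hw x, lab e ≤ l.r + 1 := by
  intro e he
  have h1 : e ∈ S.hw (S.nx x) := by
    have h2 := (S.mem_hw hx).1 he
    have h3 := (Part.nx_pow_same S hx 1).2
    exact (S.mem_hw (S.nx_mem.2 hx)).2 ⟨h2.1, h3.symm.trans h2.2⟩
  obtain ⟨i, hi, rfl⟩ := List.getElem_of_mem h1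
  have h2 := h.le i _ (List.getElem?_eq_getElem hi)
  split_ifs at h2 <;> omega

end

/-- The events at the gate. -/
def NPl {n : ℕ} (S : Part (Fin (6 * n))) (T : Tri (Fin (6 * n))) (x : Fin (6 * n)) : Prop :=
  (∃ u v, S.NSt T x u v) ∨ (∃ u v, S.Sep T x u v) ∨ S.Mrg T x

/-- The end of the exploration. -/
theorem topu_end {n g : ℕ} (hn : 1 ≤ n) (hg : 3 ≤ g) {T : Tri (Fin (6 * n))} (hT : T ∈ Trn n g)
    {S0 S : Part (Fin (6 * n))} (hS0 : S0.Con) {x y : Fin (6 * n)} {lab : Fin (6 * n) → ℕ} {q r : ℕ}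
    (h : TInv T S0 S x y lab q) (hr : ∀ e ∈ S.B, lab e ≤ r) (he : NPl S T x) :
    T.HasSep (4 * (r : ℝ) + 4 * q + 4 * S0.R.ncard) := by
  rcases he with ⟨u, v, hu, hv, hw, hx, hy, hc⟩ | ⟨u, v, hu, hv, hw, hx, hy, -, hd1, hd2⟩ | ⟨h1, h2⟩
  · obtain ⟨z₁, w₁, rfl⟩ := List.exists_cons_of_ne_nil hu
    obtain ⟨z, w, rfl⟩ := List.exists_cons_of_ne_nil hv
    have hz1 := mem_glue_B hx hy hw (Or.inl (List.mem_cons_self ..) : z₁ ∈ z₁ :: w₁ ∨ z₁ ∈ z :: w)
    have hz := mem_glue_B hx hy hw (Or.inr (List.mem_cons_self ..) : z ∈ z₁ :: w₁ ∨ z ∈ z :: w)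
    have hw1 := Part.hw_glue_split_left S hx hy hw rfl
    have hw2 := Part.hw_glue_split_right S hx hy hw rfl
    have hn2 := S.hw_nodup hx
    rw [hw, List.nodup_cons] at hn2
    have hn3 := List.nodup_append.1 hn2.2
    have hno : z ∉ z₁ :: w₁ := fun h9 => hn3.2.2 z h9 z (List.mem_cons_of_mem _ (List.mem_cons_self ..)) rfl
    have hno1 : z₁ ∉ z :: w := fun h9 => hn3.2.2 z₁ (List.mem_cons_self ..) z₁ (List.mem_cons_of_mem _ h9) rfl
    refine topu_split hn hg hT hS0 h hr hy rfl hw ?_ ?_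
    · rintro a ⟨-, h3, -, -⟩
      have h4 := h3 z hz (hc z₁ (Or.inr hz1) z (Or.inr hz))
      rw [hw1] at h4
      exact hno h4
    · rintro a ⟨-, h3, -, -⟩
      have h4 := h3 z₁ hz1 (hc z (Or.inr hz) z₁ (Or.inr hz1))
      rw [hw2] at h4
      exact hno1 h4
  · obtain ⟨z₁, w₁, rfl⟩ := List.exists_cons_of_ne_nil hu
    obtain ⟨z, w, rfl⟩ := List.exists_cons_of_ne_nil hv
    exact topu_split hn hg hT hS0 h hr hy rfl hw (hd1 z₁ (List.mem_cons_self ..)) (hd2 z (List.mem_cons_self ..))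
  · refine topu_merge hn hg hT hS0 h hr h1 rfl ?_
    intro h3
    exact h2 ((S.mem_hw h.hx).1 h3).2

/-- TOPU, event during the exploration of the first hole. -/
theorem topu_run1 {n g : ℕ} (hn : 1 ≤ n) (hg : 3 ≤ g) {T : Tri (Fin (6 * n))} (hT : T ∈ Trn n g)
    {S0 S1 : Part (Fin (6 * n))} {x0 y0 x1 : Fin (6 * n)} (hS0 : S0.Con) (hl : S0.HL [x0, y0])
    (hh : S0.HConn T) {w1 : List Stp} (hr1 : Part.Rch (lrule (S0.per x0)) [] S0 x0 w1 S1 x1) (hL : S1.Le T)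
    (he : NPl S1 T x1) {r : ℕ} (h1 : GR.lay (S0.per x0) w1 + 1 ≤ r) :
    T.HasSep (4 * (r : ℝ) + 8 * S0.R.ncard) := by
  have hx : x0 ∈ S0.B := hl.1 x0 (by simp)
  have hy : y0 ∈ S0.B := hl.1 y0 (by simp)
  have hne : ¬ S0.s.SameCycle x0 y0 := by
    have := hl.2.1
    rw [List.pairwise_cons] at this
    exact this.1 y0 (by simp)
  have hL0 : S0.Le T := Part.sub_le (Part.rch_sub hr1) hL
  have hI0 : TInv T S0 S0 x0 y0 (fun _ => 0) S0.R.ncard := by
    refine tinv_start hL0 hS0 hx hy hne (hh x0 (Or.inr hx) y0 (Or.inr hy)) ?_ _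
    intro d hd
    obtain ⟨e, he, h2⟩ := hl.2.2 d hd
    rcases List.mem_pair.1 he with rfl | rfl
    · exact Or.inl ((S0.mem_hw hx).2 ⟨hd, h2⟩)
    · exact Or.inr ((S0.mem_hw hy).2 ⟨hd, h2⟩)
  obtain ⟨lab', hI, hl', hy', hw'⟩ := tinv_rch hT.1 w1 hI0 (linv_start hx) rfl hr1 hL
  have hb : ∀ e ∈ S1.B, lab' e ≤ r := by
    intro e he
    rcases hI.all e he with h2 | h2
    · exact (hl'.bound hI.hx e h2).trans h1
    · rw [hy' e (by rw [← hw']; exact h2)]
      exact Nat.zero_le _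
  have := topu_end hn hg hT hS0 hI hb he
  convert this using 1
  push_cast
  ring

/-- TOPU, event during the exploration of the second hole. -/
theorem topu_run2 {n g : ℕ} (hn : 1 ≤ n) (hg : 3 ≤ g) {T : Tri (Fin (6 * n))} (hT : T ∈ Trn n g)
    {S0 S1 S2 : Part (Fin (6 * n))} {x0 y0 x1 x2 : Fin (6 * n)} (hS0 : S0.Con) (hl : S0.HL [x0, y0])
    (hh : S0.HConn T) {w1 w2 : List Stp} (hr1 : Part.Rch (lrule (S0.per x0)) [] S0 x0 w1 S1 x1)
    (hr2 : Part.Rch (lrule (S0.per y0)) [] S1 y0 w2 S2 x2) (hL : S2.Le T)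
    (he : NPl S2 T x2) {r : ℕ} (h1 : GR.lay (S0.per x0) w1 + 1 ≤ r) (h2 : GR.lay (S0.per y0) w2 + 1 ≤ r) :
    T.HasSep (4 * (r : ℝ) + 8 * S0.R.ncard) := by
  have hx : x0 ∈ S0.B := hl.1 x0 (by simp)
  have hy : y0 ∈ S0.B := hl.1 y0 (by simp)
  have hne : ¬ S0.s.SameCycle x0 y0 := by
    have := hl.2.1
    rw [List.pairwise_cons] at this
    exact this.1 y0 (by simp)
  have hL1 : S1.Le T := Part.sub_le (Part.rch_sub hr2) hL
  have hL0 : S0.Le T := Part.sub_le (Part.rch_sub hr1) hL1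
  have hI0 : TInv T S0 S0 x0 y0 (fun _ => 0) S0.R.ncard := by
    refine tinv_start hL0 hS0 hx hy hne (hh x0 (Or.inr hx) y0 (Or.inr hy)) ?_ _
    intro d hd
    obtain ⟨e, he, hs⟩ := hl.2.2 d hd
    rcases List.mem_pair.1 he with h9 | h9
    · exact Or.inl ((S0.mem_hw hx).2 ⟨hd, h9 ▸ hs⟩)
    · exact Or.inr ((S0.mem_hw hy).2 ⟨hd, h9 ▸ hs⟩)
  obtain ⟨lab1, hI1, hl1, hy1, hw1⟩ := tinv_rch hT.1 w1 hI0 (linv_start hx) rfl hr1 hL1
  have hper : S1.per y0 = S0.per y0 := by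
    rw [← S1.hw_length hI1.hy, ← S0.hw_length hy, hw1]
  -- labels at the start of the second run
  have hl2 : LInv S1 y0 (GR.start (S0.per y0)) lab1 := by
    refine ⟨S0.per_pos hy, hper, ?_⟩
    intro i e hi
    have h3 : e ∈ S1.hw y0 := by
      have h4 : e ∈ S1.hw (S1.nx y0) := List.mem_of_getElem? hi
      have h5 := (S1.mem_hw (S1.nx_mem.2 hI1.hy)).1 h4
      exact (S1.mem_hw hI1.hy).2 ⟨h5.1, ((Part.nx_pow_same S1 hI1.hy 1).2).trans h5.2⟩
    rw [hw1] at h3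
    rw [hy1 e h3]
    exact Nat.zero_le _
  obtain ⟨lab', hI, hl', hy', hw'⟩ := tinv_rch hT.1 w2 (tinv_swap hI1) hl2 (by rw [hper]; rfl) hr2 hL
  have hb : ∀ e ∈ S2.B, lab' e ≤ r := by
    intro e he
    rcases hI.all e he with h3 | h3
    · exact (hl'.bound hI.hx e h3).trans h2
    · rw [hw'] at h3
      rw [hy' e h3]
      exact (hl1.bound hI1.hx e h3).trans h1
  have := topu_end hn hg hT hS0 hI hb he
  convert this using 1
  push_cast
  ring

end SYS
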