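import Pool.Agent.SYS.Lib.Flat
import Pool.Agent.SYS.Lib.HidB

/-!
# SYS-UT-AbF: homology by flat labellings; the hole of a hidden component with one hole is null-homologous
-/

namespace SYS

open Classical SST

variable {D : Type}

/-- boundaries of the integral 2-chains -/
private def abN (T : Tri D) : AddSubgroup (D → ℤ) where
  carrier := {x | ∃ k : D → ℤ, (∀ d, k (T.f d) = k d) ∧ ∀ d, x d = k d - k (T.a d)}
  zero_mem' := ⟨fun _ => 0, fun _ => rfl, fun _ => rfl⟩
  add_mem' := by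
    rintro x y ⟨k, h1, h2⟩ ⟨k', h1', h2'⟩
    refine ⟨fun d => k d + k' d, fun d => ?_, fun d => ?_⟩
    · show k (T.f d) + k' (T.f d) = k d + k' d
      rw [h1, h1']
    · show x d + y d = k d + k' d - (k (T.a d) + k' (T.a d))
      rw [h2, h2']
      ring
  neg_mem' := by
    rintro x ⟨k, h1, h2⟩
    refine ⟨fun d => - k d, fun d => ?_, fun d => ?_⟩
    · show - k (T.f d) = - k d
      rw [h1]
    · show - x d = - k d - - k (T.a d)
      rw [h2]
      ring

private noncomputable def abl (T : Tri D) (d : D) : Multiplicative ((D → ℤ) ⧸ abN T) :=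
  Multiplicative.ofAdd (QuotientAddGroup.mk (T.chain [d]))

private theorem ab_hol (T : Tri D) (c : List D) :
    hol (abl T) c = Multiplicative.ofAdd (QuotientAddGroup.mk (T.chain c) : (D → ℤ) ⧸ abN T) := by
  induction c with
  | nil =>
    rw [hol_nil]
    have h1 : T.chain [] = 0 := rfl
    rw [h1]
    rfl
  | cons e c ih =>
    rw [hol_cons, ih]
    have h1 : T.chain (e :: c) = T.chain [e] + T.chain c := by
      funext d
      exact Tri.chain_append T [e] c d
    rw [h1]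
    rfl

private theorem ab_one (T : Tri D) (c : List D) : hol (abl T) c = 1 ↔ T.NullHom c := by
  rw [ab_hol]
  have h1 : (Multiplicative.ofAdd (QuotientAddGroup.mk (T.chain c) : (D → ℤ) ⧸ abN T) = 1) ↔
      (QuotientAddGroup.mk (T.chain c) : (D → ℤ) ⧸ abN T) = 0 := Iff.rfl
  rw [h1, QuotientAddGroup.eq_zero_iff]
  exact Iff.rfl

theorem exists_flat_ab (T : Tri D) : ∃ (G : Type) (_ : CommGroup G) (l : D → G), Flat T l ∧
    ∀ c : List D, hol l c = 1 ↔ T.NullHom c := by
  refine ⟨Multiplicative ((D → ℤ) ⧸ abN T), inferInstance, abl T, ⟨fun d => ?_, fun d => ?_⟩,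
    fun c => ab_one T c⟩
  · have h1 : T.chain [T.a d] = - T.chain [d] := by
      funext e
      exact Tri.chain_rev T [d] e
    unfold abl
    rw [h1]
    rfl
  · have h1 := (ab_one T [d, T.f d, T.f (T.f d)]).2 (Tri.nullHom_face T d)
    rw [hol_cons, hol_cons, hol_cons, hol_nil, mul_one, ← mul_assoc] at h1
    exact h1

private theorem ab_chain (T : Tri D) {c : List D} (hc : c.Nodup) (d : D) :
    T.chain c d = (if d ∈ c then 1 else 0) - (if T.a d ∈ c then 1 else 0) := by
  induction c with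
  | nil => simp [Tri.chain_nil]
  | cons e c ih =>
    rw [List.nodup_cons] at hc
    rw [Tri.chain_cons, ih hc.2]
    have key : ∀ x : D, Tri.ind e x + (if x ∈ c then (1 : ℤ) else 0) = if x ∈ e :: c then 1 else 0 := by
      intro x
      by_cases h : e = x
      · subst h
        rw [Tri.ind_self, if_neg hc.1, if_pos List.mem_cons_self, add_zero]
      · rw [Tri.ind_ne h, zero_add]
        by_cases h2 : x ∈ c
        · rw [if_pos h2, if_pos (List.mem_cons_of_mem _ h2)]
        · rw [if_neg h2, if_neg]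
          rw [List.mem_cons]
          rintro (h3 | h3)
          · exact h h3.symm
          · exact h2 h3
    rw [← key d, ← key (T.a d)]
    ring

theorem nullHom_side [Finite D] {S : Part D} {T : Tri D} (h : S.Le T) {z : D} (hz : z ∈ S.B)
    (hu : ∀ d ∈ S.B, S.Hc T z d → d ∈ S.hw z) : T.NullHom (S.hw z) := by
  have hCa : ∀ d, d ∈ S.HC T z → T.a d ∈ S.HC T z := fun d hd =>
    ⟨(Part.X_a h d).2 hd.1, Part.hc_trans hd.2 (Part.hc_a hd.1)⟩
  have hCa' : ∀ d, T.a d ∈ S.HC T z → d ∈ S.HC T z := fun d hd => by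
    have := hCa _ hd
    rwa [T.aa] at this
  have hwC : ∀ d, d ∈ S.hw z → d ∈ S.HC T z := fun d hd =>
    ⟨Or.inr ((Part.mem_hw S hz).1 hd).1, Part.hc_hole hz hd⟩
  have hkey : ∀ d, d ∈ S.HC T z → (if d ∈ S.HC T z ∧ d ∉ S.R then (-1 : ℤ) else 0) =
      (if d ∈ S.hw z then 1 else 0) - 1 := by
    intro d hd
    by_cases hR : d ∈ S.R
    · have hB : d ∈ S.B := hd.1.resolve_left (fun h' => h' hR)
      rw [if_neg (fun h' => h'.2 hR), if_pos (hu d hB hd.2)]
      rfl
    · rw [if_pos ⟨hd, hR⟩, if_neg (fun h' => hR ((Part.mem_hw S hz).1 h').1.1)]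
      rfl
  refine ⟨fun d => if d ∈ S.HC T z ∧ d ∉ S.R then -1 else 0, fun d => ?_, fun d => ?_⟩
  · show (if T.f d ∈ S.HC T z ∧ T.f d ∉ S.R then (-1 : ℤ) else 0) =
      if d ∈ S.HC T z ∧ d ∉ S.R then (-1 : ℤ) else 0
    by_cases hR : d ∈ S.R
    · have hR' : T.f d ∈ S.R := (Part.le_f_mem h d).2 hR
      rw [if_neg (fun h' => h'.2 hR'), if_neg (fun h' => h'.2 hR)]
    · have hR' : T.f d ∉ S.R := fun h' => hR ((Part.le_f_mem h d).1 h')
      by_cases hC : d ∈ S.HC T z
      · have hC' : T.f d ∈ S.HC T z := ⟨Or.inl hR', Part.hc_trans hC.2 (Part.hc_f hR)⟩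
        rw [if_pos ⟨hC', hR'⟩, if_pos ⟨hC, hR⟩]
      · have hC' : T.f d ∉ S.HC T z := fun h' =>
          hC ⟨Or.inl hR, Part.hc_trans h'.2 (Part.hc_symm (Part.hc_f hR))⟩
        rw [if_neg (fun h' => hC' h'.1), if_neg (fun h' => hC h'.1)]
  · rw [ab_chain T (Part.hw_nodup S hz)]
    by_cases hC : d ∈ S.HC T z
    · show _ = (if d ∈ S.HC T z ∧ d ∉ S.R then (-1 : ℤ) else 0) -
        (if T.a d ∈ S.HC T z ∧ T.a d ∉ S.R then (-1 : ℤ) else 0)
      rw [hkey d hC, hkey _ (hCa d hC)]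
      ring
    · have hC' : T.a d ∉ S.HC T z := fun h' => hC (hCa' d h')
      rw [if_neg (fun h' => hC (hwC d h')), if_neg (fun h' => hC' (hwC _ h'))]
      show _ = (if d ∈ S.HC T z ∧ d ∉ S.R then (-1 : ℤ) else 0) -
        (if T.a d ∈ S.HC T z ∧ T.a d ∉ S.R then (-1 : ℤ) else 0)
      rw [if_neg (fun h' => hC h'.1), if_neg (fun h' => hC' h'.1)]

end SYS
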