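import Pool.Agent.SYS.Lib.HidB

/-!
# SYS-UT-HCard: the number of hidden darts of a hidden component is divisible by 3
-/

namespace SYS
namespace Part

open Classical SST

variable {D : Type} [Finite D]

private theorem hcard_aux (T : Tri D) (Y : Set D) (hY : ∀ d ∈ Y, T.f d ∈ Y) :
    ∃ a : ℕ, Y.ncard = 3 * a := by
  have hY' : ∀ d, T.f d ∈ Y ↔ d ∈ Y := by
    refine fun d => ⟨fun h => ?_, hY d⟩
    have h1 := hY _ (hY _ h)
    rw [T.fff] at h1
    exact h1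
  have : Fintype {d // d ∈ Y} := Fintype.ofFinite _
  obtain ⟨σ, hσ⟩ : ∃ σ : Equiv.Perm {d // d ∈ Y}, ∀ x, ((σ x : {d // d ∈ Y}) : D) = T.f x :=
    ⟨T.f.subtypePerm hY', fun x => rfl⟩
  have h1 : σ ^ 3 ^ 1 = 1 := by
    ext x
    rw [pow_one, pow_succ, pow_succ, pow_one, Equiv.Perm.mul_apply, Equiv.Perm.mul_apply, hσ, hσ,
      hσ, T.fff]
    rfl
  have h2 : 3 ∣ Fintype.card {d // d ∈ Y} := by
    by_contra h
    have hp : Fact (Nat.Prime 3) := ⟨Nat.prime_three⟩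
    obtain ⟨x, hx⟩ := Equiv.Perm.exists_fixed_point_of_prime (p := 3) (n := 1) h h1
    have h3 := congrArg Subtype.val hx
    rw [hσ] at h3
    exact T.fne _ h3
  obtain ⟨a, ha⟩ := h2
  refine ⟨a, ?_⟩
  rw [← Nat.card_coe_set_eq, ← ha, Nat.card_eq_fintype_card]

theorem hc_three {S : Part D} {T : Tri D} (h : S.Le T) (x : D) : ∃ a : ℕ, (S.HC T x \ S.B).ncard = 3 * a := by
  refine hcard_aux T _ fun d hd => ?_
  obtain ⟨⟨h1, h2⟩, h3⟩ := hd
  have h4 : d ∉ S.R := h1.resolve_right h3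
  have h5 : T.f d ∉ S.R := fun h6 => h4 ((le_f_mem h d).1 h6)
  exact ⟨⟨Or.inl h5, hc_trans h2 (hc_f h4)⟩, fun h6 => h5 (B_sub_R S h6)⟩

end Part
end SYS
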