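import Pool.Agent.SYS.UT.GrdA

/-!
# SYS-UT-Grd: gradients of vertex functions of the surface `S`

PLAN.
* `grd_a`: `d ∈ R \ B`: `T.a d = S.a d ∈ R \ B`; `S.s (S.a d) = S.f d`, `S.s d = S.f (S.a d)`: `q (S.f d) = q (S.a d)`,
  `q (S.f (S.a d)) = q d`.
* `grd_B`: `grd d = q (S.f d) - q d = q (nx d) - q d`.
* `area_grd`: put `Y = ∑_{e ∈ R} q e * y (T.f e)`.  (i) `∑_{d ∈ R} (grd d * y (f d) - grd (f d) * y d) = -3 Y` (`grd` at `d, f d` in terms of
  `q`; sums over the `f`-invariant set `R` may be shifted by `f`, `f³ = 1`; `y d + y (f d) + y (f f d) = 0`).  (ii) `Y = - ∑_{e ∈ R} q e (y e + y (f f e))`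
  and in `∑_{e ∈ R} q e y (f (f e))` substitute `e = S.s d` (`S.s` permutes `R`): for `d ∉ B`: `q (s d) = q d`,
  `f (f (s d)) = f (f (f (a d))) = a d`: term `- q d * y d`; for `d ∈ B`: `s d = f d`, `q (s d) = q (nx d)`, `f (f (f d)) = d`: term `q (nx d) * y d`.
  So `Y = - ∑_{d ∈ B} (q (nx d) + q d) * y d`.
-/

namespace SYS

open Classical SST GNH

variable {D : Type} [Finite D]

/-- Gradient. -/
noncomputable def grd (S : Part D) (q : D → ℝ) (d : D) : ℝ := if d ∈ S.R then q (S.f d) - q d else 0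

private theorem grd_R {S : Part D} {q : D → ℝ} {d : D} (hd : d ∈ S.R) : grd S q d = q (S.f d) - q d :=
  if_pos hd

private theorem grd_Tf {S : Part D} {T : Tri D} (h : S.Le T) {d : D} (hd : d ∈ S.R) : T.f d = S.f d :=
  h.1 d hd

private theorem grd_nR {S : Part D} {T : Tri D} (h : S.Le T) {d : D} (hd : d ∉ S.R) : T.f d ∉ S.R := by
  intro h1
  apply hd
  have h2 : T.f (T.f d) = S.f (T.f d) := grd_Tf h h1
  have h3 : T.f (T.f d) ∈ S.R := by rw [h2, Part.mem_R_f]; exact h1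
  have h4 : T.f (T.f (T.f d)) = S.f (T.f (T.f d)) := grd_Tf h h3
  have h5 : T.f (T.f (T.f d)) ∈ S.R := by rw [h4, Part.mem_R_f]; exact h3
  rw [T.fff] at h5
  exact h5

private theorem grd_Ta {S : Part D} {T : Tri D} (h : S.Le T) {d : D} (hd : d ∈ S.R) (hd' : d ∉ S.B) :
    T.a d = S.a d :=
  h.2 d fun h1 => hd' ⟨hd, h1⟩

private theorem grd_aB {S : Part D} {d : D} (hd : d ∈ S.R) (hd' : d ∉ S.B) : S.a d ∉ S.B := by
  intro h1
  have h2 : S.a (S.a d) = S.a d := h1.2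
  rw [S.aa] at h2
  exact hd' ⟨hd, h2.symm⟩

section
variable {S : Part D} {T : Tri D} (h : S.Le T) {q : D → ℝ} (hq : VInv S q)
include h hq

theorem grd_dvg (d : D) : dvg T (grd S q) d = 0 := by
  unfold dvg
  by_cases hd : d ∈ S.R
  · have h1 : S.f d ∈ S.R := (Part.mem_R_f S d).2 hd
    have h2 : S.f (S.f d) ∈ S.R := (Part.mem_R_f S _).2 h1
    rw [grd_Tf h hd, grd_Tf h h1, grd_R hd, grd_R h1, grd_R h2, S.fff]
    ring
  · have h1 := grd_nR h hd
    have h2 := grd_nR h h1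
    unfold grd
    rw [if_neg hd, if_neg h1, if_neg h2]
    norm_num

theorem grd_a {d : D} (hd : d ∈ S.R) (hd' : d ∉ S.B) : grd S q (T.a d) = - grd S q d := by
  have h1 : S.a d ∈ S.R := (Part.mem_R_a S d).2 hd
  have h2 := grd_aB hd hd'
  rw [grd_Ta h hd hd', grd_R h1, grd_R hd]
  have h3 : q (S.f (S.a d)) = q d := hq d hd hd'
  have h4 : q (S.f (S.a (S.a d))) = q (S.a d) := hq (S.a d) h1 h2
  rw [S.aa] at h4
  rw [h3, h4]
  ring

theorem grd_B {d : D} (hd : d ∈ S.B) : grd S q d = q (S.nx d) - q d := by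
  rw [grd_R (Part.B_sub_R S hd), hq.nx hd]

theorem area_grd (F : Finset D) (B : Finset D) (hF : ∀ d, d ∈ F ↔ d ∈ S.R) (hB : ∀ d, d ∈ B ↔ d ∈ S.B) {y : D → ℝ}
    (hy : T.IsCoc y) : ∑ d ∈ F, (grd S q d * y (T.f d) - grd S q (T.f d) * y d) =
      3 * ∑ e ∈ B, (q (S.nx e) + q e) * y e := by
  obtain ⟨Y, hY⟩ : ∃ Y, Y = ∑ e ∈ F, q e * y (S.f e) := ⟨_, rfl⟩
  obtain ⟨Z, hZ⟩ : ∃ Z, Z = ∑ e ∈ F, q e * y e := ⟨_, rfl⟩
  obtain ⟨W, hW⟩ : ∃ W, W = ∑ e ∈ F, q e * y (S.f (S.f e)) := ⟨_, rfl⟩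
  have hf : ∀ d, d ∈ F ↔ S.f d ∈ F := fun d => by rw [hF, hF, Part.mem_R_f]
  have hs : ∀ d, d ∈ F ↔ S.s d ∈ F := fun d => by rw [hF, hF, Part.mem_R_s]
  have h0 : Z + Y + W = 0 := by
    rw [hZ, hY, hW, ← Finset.sum_add_distrib, ← Finset.sum_add_distrib]
    apply Finset.sum_eq_zero
    intro d hd
    have h1 : d ∈ S.R := (hF d).1 hd
    have h2 : S.f d ∈ S.R := (Part.mem_R_f S d).2 h1
    have h3 := hy.2 d
    rw [grd_Tf h h1, grd_Tf h h2] at h3
    have h4 : q d * y d + q d * y (S.f d) + q d * y (S.f (S.f d)) =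
        q d * (y d + y (S.f d) + y (S.f (S.f d))) := by ring
    rw [h4, h3, mul_zero]
  have e1 : ∑ d ∈ F, q (S.f d) * y (S.f d) = Z := by
    rw [hZ]
    exact Finset.sum_equiv S.f hf fun d _ => rfl
  have e2 : ∑ d ∈ F, q (S.f (S.f d)) * y d = Y := by
    rw [hY]
    refine Finset.sum_equiv (S.f.trans S.f) (fun d => (hf d).trans (hf (S.f d))) fun d _ => ?_
    show q (S.f (S.f d)) * y d = q (S.f (S.f d)) * y (S.f (S.f (S.f d)))
    rw [S.fff]
  have e3 : ∑ d ∈ F, q (S.f d) * y d = W := by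
    rw [hW]
    refine Finset.sum_equiv S.f hf fun d _ => ?_
    rw [S.fff]
  have e4 : ∑ d ∈ F, (grd S q d * y (T.f d) - grd S q (T.f d) * y d) = Z - Y - Y + W := by
    have h1 : ∀ d ∈ F, grd S q d * y (T.f d) - grd S q (T.f d) * y d =
        q (S.f d) * y (S.f d) - q d * y (S.f d) - q (S.f (S.f d)) * y d + q (S.f d) * y d := by
      intro d hd
      have h1 : d ∈ S.R := (hF d).1 hd
      have h2 : S.f d ∈ S.R := (Part.mem_R_f S d).2 h1
      rw [grd_Tf h h1, grd_R h1, grd_R h2]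
      ring
    rw [Finset.sum_congr rfl h1, Finset.sum_add_distrib, Finset.sum_sub_distrib,
      Finset.sum_sub_distrib, e1, e2, e3, ← hY]
  have e5 : W = - Z + ∑ e ∈ B, (q (S.nx e) + q e) * y e := by
    have hBF : B ⊆ F := fun d hd => (hF d).2 (Part.B_sub_R S ((hB d).1 hd))
    have h1 : ∑ e ∈ B, (q (S.nx e) + q e) * y e =
        ∑ d ∈ F, if d ∈ B then (q (S.nx d) + q d) * y d else 0 := by
      rw [← Finset.sum_subset hBF (fun d _ hd => if_neg hd)]
      exact Finset.sum_congr rfl fun d hd => (if_pos hd).symm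
    have h2 : W = ∑ d ∈ F, q (S.s d) * y (S.f (S.f (S.s d))) := by
      rw [hW]
      exact (Finset.sum_equiv S.s hs fun d _ => rfl).symm
    rw [h1, h2, hZ, ← Finset.sum_neg_distrib, ← Finset.sum_add_distrib]
    apply Finset.sum_congr rfl
    intro d hd
    have h3 : d ∈ S.R := (hF d).1 hd
    by_cases h4 : d ∈ B
    · have h5 : d ∈ S.B := (hB d).1 h4
      have h6 : S.s d = S.f d := by rw [Part.s_apply, h5.2]
      rw [if_pos h4, h6, S.fff, hq.nx h5]
      ring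
    · have h5 : d ∉ S.B := fun h6 => h4 ((hB d).2 h6)
      have h6 : y (S.f (S.f (S.s d))) = - y d := by
        rw [Part.s_apply, S.fff, ← grd_Ta h h3 h5]
        exact hy.1 d
      rw [if_neg h4, h6, hq d h3 h5]
      ring
  rw [e4]
  linarith

end

end SYS
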