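import Pool.Agent.SYS.UT.Grd

/-!
# SYS-UT-SumB: a closed flow has total flux 0 through the boundary of an explored region
-/

namespace SYS

open Classical SST GNH

variable {D : Type} [Fintype D]

private theorem sb_f1 {S : Part D} {T : Tri D} (h : S.Le T) {d : D} (hd : d ∈ S.R) : T.f d ∈ S.R := by
  rw [h.1 d hd]
  exact (Part.mem_R_f S d).mpr hd

private theorem sb_f {S : Part D} {T : Tri D} (h : S.Le T) (d : D) : d ∈ S.R ↔ T.f d ∈ S.R := by
  constructor
  · exact sb_f1 h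
  · intro hd
    have h1 := sb_f1 h (sb_f1 h hd)
    rwa [T.fff] at h1

private theorem sb_a1 {S : Part D} {T : Tri D} (h : S.Le T) {d : D} (hd : d ∈ S.R ∧ d ∉ S.B) :
    T.a d ∈ S.R ∧ T.a d ∉ S.B := by
  have h1 : S.a d ≠ d := fun h2 => hd.2 ⟨hd.1, h2⟩
  rw [h.2 d h1]
  refine ⟨(Part.mem_R_a S d).mpr hd.1, fun h2 => ?_⟩
  have h3 := h2.2
  rw [S.aa] at h3
  exact h1 h3.symm

private theorem sb_a {S : Part D} {T : Tri D} (h : S.Le T) (d : D) :
    (d ∈ S.R ∧ d ∉ S.B) ↔ (T.a d ∈ S.R ∧ T.a d ∉ S.B) := by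
  constructor
  · exact sb_a1 h
  · intro hd
    have h1 := sb_a1 h hd
    rwa [T.aa] at h1

theorem sum_bdry {S : Part D} {T : Tri D} (h : S.Le T) {w : D → ℝ} (hw : T.IsCoc w) :
    ∑ d ∈ Finset.univ.filter (fun d => d ∈ S.B), w d = 0 := by
  have e1 : ∑ d ∈ Finset.univ.filter (fun d => d ∈ S.R), w (T.f d) =
      ∑ d ∈ Finset.univ.filter (fun d => d ∈ S.R), w d :=
    Finset.sum_equiv T.f (fun d => by simpa using sb_f h d) (fun d _ => rfl)
  have e2 : ∑ d ∈ Finset.univ.filter (fun d => d ∈ S.R), w (T.f (T.f d)) =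
      ∑ d ∈ Finset.univ.filter (fun d => d ∈ S.R), w (T.f d) :=
    Finset.sum_equiv T.f (fun d => by simpa using sb_f h d) (fun d _ => rfl)
  have e3 : ∑ d ∈ Finset.univ.filter (fun d => d ∈ S.R), (w d + w (T.f d) + w (T.f (T.f d))) = 0 :=
    Finset.sum_eq_zero fun d _ => hw.2 d
  rw [Finset.sum_add_distrib, Finset.sum_add_distrib, e2, e1] at e3
  have e4 : ∑ d ∈ Finset.univ.filter (fun d => d ∈ S.R), w d = 0 := by linarith
  have e5 : ∑ d ∈ Finset.univ.filter (fun d => d ∈ S.R ∧ d ∉ S.B), w (T.a d) =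
      ∑ d ∈ Finset.univ.filter (fun d => d ∈ S.R ∧ d ∉ S.B), w d :=
    Finset.sum_equiv T.a (fun d => by simpa using sb_a h d) (fun d _ => rfl)
  have e6 : ∑ d ∈ Finset.univ.filter (fun d => d ∈ S.R ∧ d ∉ S.B), w (T.a d) =
      - ∑ d ∈ Finset.univ.filter (fun d => d ∈ S.R ∧ d ∉ S.B), w d := by
    rw [← Finset.sum_neg_distrib]
    exact Finset.sum_congr rfl fun d _ => hw.1 d
  have e7 : ∑ d ∈ Finset.univ.filter (fun d => d ∈ S.R ∧ d ∉ S.B), w d = 0 := by
    rw [e5] at e6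
    linarith
  have e8 := Finset.sum_filter_add_sum_filter_not (Finset.univ.filter (fun d => d ∈ S.R))
    (fun d => d ∈ S.B) w
  rw [Finset.filter_filter, Finset.filter_filter, e4, e7, add_zero] at e8
  rw [← e8]
  refine Finset.sum_congr ?_ fun _ _ => rfl
  ext d
  simp only [Finset.mem_filter, Finset.mem_univ, true_and]
  exact ⟨fun h1 => ⟨Part.B_sub_R S h1, h1⟩, fun h1 => h1.2⟩

theorem per_hw_eq {S : Part D} {x : D} (hx : x ∈ S.B) (w : D → ℝ) :
    per w (S.hw x) = ∑ d ∈ Finset.univ.filter (fun d => d ∈ S.hw x), w d := by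
  have h1 : Finset.univ.filter (fun d => d ∈ S.hw x) = (S.hw x).toFinset := by
    ext d
    simp
  rw [h1, List.sum_toFinset _ (Part.hw_nodup S hx)]
  rfl

theorem per_hw_zero {S : Part D} {T : Tri D} (h : S.Le T) {x : D} (hx : x ∈ S.B) {w : D → ℝ} (hw : T.IsCoc w)
    (h0 : ∀ d ∈ S.B, d ∉ S.hw x → w d = 0) : per w (S.hw x) = 0 := by
  rw [per_hw_eq hx, ← sum_bdry h hw]
  refine Finset.sum_subset ?_ ?_
  · intro d hd
    simp only [Finset.mem_filter, Finset.mem_univ, true_and] at hd ⊢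
    exact ((Part.mem_hw S hx).mp hd).1
  · intro d hd hd2
    simp only [Finset.mem_filter, Finset.mem_univ, true_and] at hd hd2
    exact h0 d hd hd2

end SYS
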