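import Pool.Agent.SYS.UT.SumB

/-!
# SYS-UT-Ring: the cocycle of a closed dual walk around a hole

`z = grd S q`, `q` the indicator of the hole on the boundary darts.
-/

namespace SYS

open Classical SST GNH

variable {D : Type} [Fintype D]

private theorem ring_nx {S : Part D} {x e : D} (hx : x ∈ S.B) (he : e ∈ S.B) :
    S.nx e ∈ S.hw x ↔ e ∈ S.hw x := by
  have h1 : S.nx e ∈ S.B := (Part.nx_mem S).2 he
  have h2 : S.s.SameCycle e (S.nx e) := by
    rw [← ret_same S.s he h1]
    exact Equiv.Perm.sameCycle_apply_right.2 (Equiv.Perm.SameCycle.refl _ _)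
  rw [Part.mem_hw S hx, Part.mem_hw S hx]
  constructor
  · rintro ⟨_, h4⟩
    exact ⟨he, h4.trans h2.symm⟩
  · rintro ⟨_, h4⟩
    exact ⟨h1, h4.trans h2⟩

theorem exists_ring {S : Part D} {T : Tri D} (h : S.Le T) {x : D} (hx : x ∈ S.B) :
    ∃ q z : D → ℝ, VInv S q ∧ T.IsCoc z ∧ (∀ d ∈ S.R, z d = q (S.f d) - q d) ∧
      (∀ d, z d ≠ 0 → d ∈ S.R ∧ d ∉ S.B) ∧ (∀ e ∈ S.B, q e = if e ∈ S.hw x then 1 else 0) ∧
      ∀ w : D → ℝ, T.IsCoc w → T.Area z w = 6 * per w (S.hw x) := by
  obtain ⟨q, hq, hq0⟩ := exists_vinv S (fun e : D => if e ∈ S.hw x then (1 : ℝ) else 0)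
  have hB : ∀ e ∈ S.B, grd S q e = 0 := by
    intro e he
    rw [grd_B h hq he, hq0 _ ((Part.nx_mem S).2 he), hq0 e he]
    by_cases h1 : e ∈ S.hw x
    · rw [if_pos h1, if_pos ((ring_nx hx he).2 h1), sub_self]
    · rw [if_neg h1, if_neg (fun h2 => h1 ((ring_nx hx he).1 h2)), sub_self]
  have hR : ∀ e, e ∉ S.R → grd S q e = 0 := by
    intro e he
    unfold grd
    rw [if_neg he]
  have hX : ∀ e ∈ S.X, grd S q e = 0 := by
    intro e he
    rcases he with he | he
    · exact hR e he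
    · exact hB e he
  refine ⟨q, grd S q, hq, ?_, ?_, ?_, hq0, ?_⟩
  · rw [isCoc_iff]
    refine ⟨?_, grd_dvg h hq⟩
    intro d
    by_cases hd : d ∈ S.X
    · rw [hX d hd, hX _ ((Part.X_a h d).2 hd), neg_zero]
    · have h1 : d ∈ S.R := by
        by_contra h2
        exact hd (Or.inl h2)
      have h2 : d ∉ S.B := fun h3 => hd (Or.inr h3)
      exact grd_a h hq h1 h2
  · intro d hd
    unfold grd
    rw [if_pos hd]
  · intro d hd
    constructor
    · by_contra h1
      exact hd (hR d h1)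
    · intro h1
      exact hd (hB d h1)
  · intro w hw
    have h1 := area_grd h hq (Finset.univ.filter fun d => d ∈ S.R) (Finset.univ.filter fun d => d ∈ S.B)
      (fun d => by simp) (fun d => by simp) hw
    have h2 : T.Area (grd S q) w = ∑ d ∈ Finset.univ.filter (fun d => d ∈ S.R),
        (grd S q d * w (T.f d) - grd S q (T.f d) * w d) := by
      unfold Tri.Area
      rw [Finset.sum_filter]
      refine Finset.sum_congr rfl fun d _ => ?_
      by_cases hd : d ∈ S.R
      · rw [if_pos hd]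
      · have hd' : T.f d ∉ S.R := fun h3 => hd ((Part.le_f_mem h d).1 h3)
        rw [if_neg hd, hR d hd, hR _ hd', zero_mul, zero_mul, sub_zero]
    rw [h2, h1, per_hw_eq hx w]
    have h3 : ∑ e ∈ Finset.univ.filter (fun d => d ∈ S.B), (q (S.nx e) + q e) * w e =
        2 * ∑ d ∈ Finset.univ.filter (fun d => d ∈ S.hw x), w d := by
      rw [Finset.mul_sum, Finset.sum_filter, Finset.sum_filter]
      refine Finset.sum_congr rfl fun e _ => ?_
      by_cases he : e ∈ S.B
      · rw [if_pos he, hq0 _ ((Part.nx_mem S).2 he), hq0 e he]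
        by_cases h4 : e ∈ S.hw x
        · rw [if_pos h4, if_pos h4, if_pos ((ring_nx hx he).2 h4)]
          ring
        · rw [if_neg h4, if_neg h4, if_neg (fun h5 => h4 ((ring_nx hx he).1 h5))]
          ring
      · have h4 : e ∉ S.hw x := fun h5 => he ((Part.mem_hw S hx).1 h5).1
        rw [if_neg he, if_neg h4]
    rw [h3]
    ring

end SYS
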