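import Pool.Agent.SYS.Lib.WordA

/-!
# SYS-UT-ColN: successors and hole words
-/

namespace SYS

open Classical SST

variable {D : Type} [Finite D]

theorem mem_hw_nx {S : Part D} {x e : D} (hx : x ∈ S.B) (he : e ∈ S.hw x) : S.nx e ∈ S.hw x := by
  rw [Part.mem_hw S hx] at he ⊢
  refine ⟨(Part.nx_mem S).2 he.1, ?_⟩
  obtain ⟨j, h1, -, -⟩ := ret_spec S.s he.1
  have h2 : S.nx e = (S.s ^ (j + 1)) e := h1
  rw [h2]
  exact he.2.trans ⟨((j + 1 : ℕ) : ℤ), by rw [zpow_natCast]⟩

theorem nx_append {S : Part D} {x d e : D} (hx : x ∈ S.B) {u v : List D} (hw : S.hw x = u ++ d :: e :: v) :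
    S.nx d = e := by
  have h := S.hw_chain hx
  rw [hw] at h
  have h2 := (List.isChain_append.1 h).2.1
  exact (List.isChain_cons_cons.1 h2).1

theorem nx_last {S : Part D} {x d : D} (hx : x ∈ S.B) {u : List D} (hw : S.hw x = u ++ [d]) : S.nx d = x := by
  obtain ⟨w, hw'⟩ := S.hw_cons hx
  rcases u with _ | ⟨a, u⟩
  · have h1 : x :: w = [d] := by rw [← hw', hw]; rfl
    have h2 : x = d := (List.cons.inj h1).1
    have h3 : S.nx x ∈ S.hw x := mem_hw_nx hx (by rw [hw']; exact List.mem_cons_self)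
    rw [hw, ← h2] at h3
    rw [← h2]
    simpa using h3
  · have h1 : x :: w = a :: (u ++ [d]) := by rw [← hw', hw]; rfl
    have h2 : x = a := (List.cons.inj h1).1
    have h3 := S.hw_rot hx hw
    rw [List.nil_append, ← h2] at h3
    have hd : d ∈ S.B := by
      have h4 : d ∈ S.hw x := by
        rw [hw]
        exact List.mem_append_right _ (List.mem_singleton.2 rfl)
      exact ((Part.mem_hw S hx).1 h4).1
    exact nx_append hd (u := []) h3

/-- `nx` on the hole is determined by the hole word. -/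
theorem nx_of_hw {S S' : Part D} {x : D} (hx : x ∈ S.B) (hx' : x ∈ S'.B) (hw : S'.hw x = S.hw x) {e : D}
    (he : e ∈ S.hw x) : S'.nx e = S.nx e := by
  obtain ⟨u, v, h⟩ := List.append_of_mem he
  rcases v with _ | ⟨a, v⟩
  · rw [nx_last hx h, nx_last hx' (hw.trans h)]
  · rw [nx_append hx h, nx_append hx' (hw.trans h)]

end SYS
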