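import Pool.Agent.SYS.UT.Zeta
import Pool.Agent.SYS.UT.ColN

/-!
# SYS-UT-Col: collars of the hole of `x` in `S` over a region `S0`

`e` in the hole word: `π e` = walk from the corner of `e` to the corner `b e` of `S0`, of length at most `lab e`; `A e` = walk from `b e` to
`b (nx e)`; total length of the `A e` at most `q`; `e ~ π e · A e · (π (nx e))⁻¹` for every flat labelling.

PLAN.
* `col_start`: `π e = []`, `b e = e`, `A e = [e]`; `car_single`, `vt_nx`, `car_vt`.
* `col_rep`: the hole word of `y` is a rotation of the one of `x` (`hw_rot`, `List.append_of_mem`): same elements, same sum (permutation).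
* `col_lab`: monotone.
* `col_other`: `nx_of_hw`, `car_sub`, `mem_hw_nx`.
-/

namespace SYS

open Classical SST

variable {D : Type} [Finite D]

/-- The product of the labels of `c` is `1` for every flat labelling. -/
def FTriv (T : Tri D) (c : List D) : Prop := ∀ (G : Type) (_ : Group G) (l : D → G), Flat T l → hol l c = 1

/-- Collar. -/
def Col (T : Tri D) (S S0 : Part D) (x : D) (lab : D → ℕ) (q : ℕ) : Prop :=
  ∃ (π A : D → List D) (b : D → D),
    (∀ e ∈ S.hw x, b e ∈ S0.R ∧ S.Car T e (π e) (b e) ∧ (π e).length ≤ lab e) ∧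
    (∀ e ∈ S.hw x, S.Car T (b e) (A e) (b (S.nx e))) ∧
    ((S.hw x).map fun e => (A e).length).sum ≤ q ∧
    ∀ e ∈ S.hw x, ∀ (G : Type) (_ : Group G) (l : D → G), Flat T l →
      l e = hol l (π e) * hol l (A e) * (hol l (π (S.nx e)))⁻¹

omit [Finite D] in
theorem DW.ftriv {T : Tri D} {c : List D} (h : DW T c) : FTriv T c := fun _ _ _ hl => DW.hol_eq hl h

omit [Finite D] in
theorem FTriv.nil (T : Tri D) : FTriv T [] := fun _ _ _ _ => rfl

omit [Finite D] in
private theorem co_sum_one (l : List D) : (l.map fun e => ([e] : List D).length).sum = l.length := by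
  induction l with
  | nil => rfl
  | cons a l ih =>
    rw [List.map_cons, List.sum_cons, ih, List.length_cons, List.length_cons, List.length_nil]
    omega

theorem col_start {T : Tri D} {S : Part D} (h : S.Le T) {x : D} (hx : x ∈ S.B) (lab : D → ℕ) :
    Col T S S x lab (S.per x) := by
  have _ := h
  refine ⟨fun _ => [], fun e => [e], fun e => e, ?_, ?_, ?_, ?_⟩
  · intro e he
    have h1 := (Part.mem_hw S hx).1 he
    exact ⟨h1.1.1, Relation.EqvGen.refl _, Nat.zero_le _⟩
  · intro e he
    have h1 := (Part.mem_hw S hx).1 he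
    exact Part.car_vt (Relation.EqvGen.refl _) (Part.car_single T h1.1.1) (Part.vt_nx h1.1)
  · rw [← Part.hw_length S hx, co_sum_one]
  · intro e _ G _ l _
    simp [hol]

theorem col_rep {T : Tri D} {S S0 : Part D} {x y : D} (hx : x ∈ S.B) (hy : y ∈ S.hw x) {lab : D → ℕ} {q : ℕ}
    (h : Col T S S0 x lab q) : Col T S S0 y lab q := by
  obtain ⟨u, v, hw⟩ := List.append_of_mem hy
  have hw' := Part.hw_rot S hx hw
  have hm : ∀ e, e ∈ S.hw y → e ∈ S.hw x := by
    intro e he
    rw [hw'] at he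
    rw [hw]
    simp only [List.mem_cons, List.mem_append] at he ⊢
    tauto
  obtain ⟨π, A, b, h1, h2, h3, h4⟩ := h
  refine ⟨π, A, b, fun e he => h1 e (hm e he), fun e he => h2 e (hm e he), ?_, fun e he => h4 e (hm e he)⟩
  rw [hw] at h3
  rw [hw']
  simp only [List.map_cons, List.map_append, List.sum_cons, List.sum_append] at h3 ⊢
  omega

theorem col_lab {T : Tri D} {S S0 : Part D} {x : D} {lab lab' : D → ℕ} {q q' : ℕ}
    (h : Col T S S0 x lab q) (hl : ∀ e ∈ S.hw x, lab e ≤ lab' e) (hq : q ≤ q') : Col T S S0 x lab' q' := by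
  obtain ⟨π, A, b, h1, h2, h3, h4⟩ := h
  exact ⟨π, A, b, fun e he => ⟨(h1 e he).1, (h1 e he).2.1, (h1 e he).2.2.trans (hl e he)⟩, h2, h3.trans hq, h4⟩

theorem col_other {T : Tri D} {S S' S0 : Part D} (h : S.Sub S') {x : D} (hx : x ∈ S.B) (hx' : x ∈ S'.B)
    (hw : S'.hw x = S.hw x) {lab : D → ℕ} {q : ℕ} (hc : Col T S S0 x lab q) : Col T S' S0 x lab q := by
  obtain ⟨π, A, b, h1, h2, h3, h4⟩ := hc
  have hn : ∀ e ∈ S.hw x, S'.nx e = S.nx e := fun e he => nx_of_hw hx hx' hw he
  refine ⟨π, A, b, ?_, ?_, ?_, ?_⟩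
  · intro e he
    rw [hw] at he
    exact ⟨(h1 e he).1, Part.car_sub h (h1 e he).2.1, (h1 e he).2.2⟩
  · intro e he
    rw [hw] at he
    rw [hn e he]
    exact Part.car_sub h (h2 e he)
  · rw [hw]
    exact h3
  · intro e he
    rw [hw] at he
    rw [hn e he]
    exact h4 e he

end SYS
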