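import Pool.Agent.SYS.UT.Col

/-!
# SYS-UT-ColF: collar after a new face

`S' = S.face x t0 t1 t2`: the hole word `x :: u` becomes `t1 :: t2 :: u`; the collar of `t1` is the one of `x`,
the one of `t2` goes to the next boundary dart.
-/

namespace SYS

open Classical SST

variable {D : Type} [Finite D]

private theorem colF_aux {T : Tri D} {S S' S0 : Part D} {x t0 t1 t2 : D} (hx : x ∈ S.B) (h0 : t0 ∉ S.R)
    (h1 : t1 ∉ S.R) (h2 : t2 ∉ S.R) (h01 : t0 ≠ t1) (h12 : t1 ≠ t2) (h20 : t2 ≠ t0)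
    (hS' : S' = S.face x t0 t1 t2 hx h0 h1 h2 h01 h12 h20)
    (hflat : ∀ (G : Type) (_ : Group G) (l : D → G), Flat T l → l t1 = l x * (l t2)⁻¹)
    {lab lab' : D → ℕ} {q : ℕ} (hc : Col T S S0 x lab q)
    (hl1 : lab x ≤ lab' t1) (hl2 : lab (S.nx x) + 1 ≤ lab' t2)
    (hl : ∀ e ∈ S.hw x, e ≠ x → lab e ≤ lab' e) : Col T S' S0 t1 lab' q := by
  obtain ⟨π, A, b, c1, c2, c3, c4⟩ := hc
  obtain ⟨u, hu⟩ := S.hw_cons hx
  have hw' : S'.hw t1 = t1 :: t2 :: u := by
    rw [hS']
    exact Part.hw_face S hx h0 h1 h2 h01 h12 h20 hu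
  have hsub : S.Sub S' := by
    rw [hS']
    exact Part.face_sub S hx h0 h1 h2 h01 h12 h20
  have hB' : S'.B = (S.B \ {x}) ∪ {t1, t2} := by
    rw [hS']
    exact Part.face_B S hx h0 h1 h2 h01 h12 h20
  have hR' : S'.R = S.R ∪ {t0, t1, t2} := by
    rw [hS']
    exact Part.face_R S hx h0 h1 h2 h01 h12 h20
  have sx : S'.s x = t1 := by
    rw [hS']
    exact Part.face_s_x S hx h0 h1 h2 h01 h12 h20
  have st0 : S'.s t0 = S.s x := by
    rw [hS']
    exact Part.face_s_t0 S hx h0 h1 h2 h01 h12 h20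
  have st2 : S'.s t2 = t0 := by
    rw [hS']
    exact Part.face_s_t2 S hx h0 h1 h2 h01 h12 h20
  have hxR : x ∈ S.R := hx.1
  have ne1 : x ≠ t1 := fun e => h1 (e ▸ hxR)
  have ne2 : x ≠ t2 := fun e => h2 (e ▸ hxR)
  have ht1B : t1 ∈ S'.B := by
    rw [hB']
    exact Or.inr (Or.inl rfl)
  have ht2B : t2 ∈ S'.B := by
    rw [hB']
    exact Or.inr (Or.inr rfl)
  have hxR' : x ∈ S'.R := by
    rw [hR']
    exact Or.inl hxR
  have hxB' : x ∉ S'.B := by
    rw [hB']
    rintro (h | h | h)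
    · exact h.2 rfl
    · exact ne1 h
    · exact ne2 h
  have ht0R' : t0 ∈ S'.R := by
    rw [hR']
    exact Or.inr (Or.inl rfl)
  have ht0B' : t0 ∉ S'.B := by
    rw [hB']
    rintro (h | h | h)
    · exact h0 h.1.1
    · exact h01 h
    · exact h20 h.symm
  have hft2 : S'.f t2 = t0 := by
    have e1 : S'.s t2 = S'.f (S'.a t2) := rfl
    rw [ht2B.2] at e1
    rw [← e1, st2]
  -- the elements of `u`
  have hn := S.hw_nodup hx
  rw [hu, List.nodup_cons] at hn
  have hmem : ∀ e ∈ u, e ∈ S.hw x := fun e he => by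
    rw [hu]
    exact List.mem_cons_of_mem x he
  have huR : ∀ e ∈ u, e ∈ S.R := fun e he => ((S.mem_hw hx).1 (hmem e he)).1.1
  have u1 : ∀ e ∈ u, e ≠ t1 := fun e he h => h1 (h ▸ huR e he)
  have u2 : ∀ e ∈ u, e ≠ t2 := fun e he h => h2 (h ▸ huR e he)
  have ux : ∀ e ∈ u, e ≠ x := fun e he h => hn.1 (h ▸ he)
  have hxm : x ∈ S.hw x := by
    rw [hu]
    exact List.mem_cons_self
  have hnm : S.nx x ∈ S.hw x := mem_hw_nx hx hxm
  -- successors
  have nx1 : S'.nx t1 = t2 := nx_append (u := []) (v := u) ht1B hw'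
  have nxu : ∀ e ∈ u, (S'.nx e = S.nx e ∧ S.nx e ∈ u) ∨ (S'.nx e = t1 ∧ S.nx e = x) := by
    intro e he
    obtain ⟨v, w, hvw⟩ := List.append_of_mem he
    rcases w with _ | ⟨z, w⟩
    · right
      constructor
      · refine nx_last (u := t1 :: t2 :: v) ht1B ?_
        rw [hw', hvw]
        rfl
      · refine nx_last (u := x :: v) hx ?_
        rw [hu, hvw]
        rfl
    · left
      have e1 : S.nx e = z := by
        refine nx_append (u := x :: v) (v := w) hx ?_
        rw [hu, hvw]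
        rfl
      have e2 : S'.nx e = z := by
        refine nx_append (u := t1 :: t2 :: v) (v := w) ht1B ?_
        rw [hw', hvw]
        rfl
      rw [e1, e2]
      refine ⟨rfl, ?_⟩
      rw [hvw]
      simp
  have nx2 : (S'.nx t2 = S.nx x ∧ S.nx x ∈ u) ∨ (S'.nx t2 = t1 ∧ S.nx x = x) := by
    rcases u with _ | ⟨z, w⟩
    · right
      exact ⟨nx_last (u := [t1]) ht1B hw', nx_last (u := []) hx hu⟩
    · left
      have e1 : S.nx x = z := nx_append (u := []) (v := w) hx hu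
      have e2 : S'.nx t2 = z := nx_append (u := [t1]) (v := w) ht1B hw'
      rw [e1, e2]
      exact ⟨rfl, List.mem_cons_self⟩
  -- the new collar
  obtain ⟨π', hπ⟩ : ∃ π' : D → List D, π' = fun e => if e = t1 then π x else if e = t2 then
    t2 :: π (S.nx x) else π e := ⟨_, rfl⟩
  obtain ⟨b', hb⟩ : ∃ b' : D → D, b' = fun e => if e = t1 then b x else if e = t2 then
    b (S.nx x) else b e := ⟨_, rfl⟩
  obtain ⟨A', hA⟩ : ∃ A' : D → List D, A' = fun e => if e = t1 then A x else if e = t2 then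
    [] else A e := ⟨_, rfl⟩
  have π1 : π' t1 = π x := by rw [hπ]; exact if_pos rfl
  have π2 : π' t2 = t2 :: π (S.nx x) := by
    rw [hπ]
    show (if t2 = t1 then π x else if t2 = t2 then t2 :: π (S.nx x) else π t2) = _
    rw [if_neg h12.symm, if_pos rfl]
  have πu : ∀ e ∈ u, π' e = π e := by
    intro e he
    rw [hπ]
    show (if e = t1 then π x else if e = t2 then t2 :: π (S.nx x) else π e) = _
    rw [if_neg (u1 e he), if_neg (u2 e he)]
  have b1 : b' t1 = b x := by rw [hb]; exact if_pos rfl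
  have b2 : b' t2 = b (S.nx x) := by
    rw [hb]
    show (if t2 = t1 then b x else if t2 = t2 then b (S.nx x) else b t2) = _
    rw [if_neg h12.symm, if_pos rfl]
  have bu : ∀ e ∈ u, b' e = b e := by
    intro e he
    rw [hb]
    show (if e = t1 then b x else if e = t2 then b (S.nx x) else b e) = _
    rw [if_neg (u1 e he), if_neg (u2 e he)]
  have A1 : A' t1 = A x := by rw [hA]; exact if_pos rfl
  have A2 : A' t2 = [] := by
    rw [hA]
    show (if t2 = t1 then A x else if t2 = t2 then [] else A t2) = _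
    rw [if_neg h12.symm, if_pos rfl]
  have Au : ∀ e ∈ u, A' e = A e := by
    intro e he
    rw [hA]
    show (if e = t1 then A x else if e = t2 then [] else A e) = _
    rw [if_neg (u1 e he), if_neg (u2 e he)]
  have bnu : ∀ e ∈ u, b' (S'.nx e) = b (S.nx e) := by
    intro e he
    rcases nxu e he with ⟨h3, h4⟩ | ⟨h3, h4⟩
    · rw [h3, bu _ h4]
    · rw [h3, h4, b1]
  have πnu : ∀ e ∈ u, π' (S'.nx e) = π (S.nx e) := by
    intro e he
    rcases nxu e he with ⟨h3, h4⟩ | ⟨h3, h4⟩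
    · rw [h3, πu _ h4]
    · rw [h3, h4, π1]
  have bn2 : b' (S'.nx t2) = b (S.nx x) := by
    rcases nx2 with ⟨h3, h4⟩ | ⟨h3, h4⟩
    · rw [h3, bu _ h4]
    · rw [h3, h4, b1]
  have πn2 : π' (S'.nx t2) = π (S.nx x) := by
    rcases nx2 with ⟨h3, h4⟩ | ⟨h3, h4⟩
    · rw [h3, πu _ h4]
    · rw [h3, h4, π1]
  have hcases : ∀ e ∈ S'.hw t1, e = t1 ∨ e = t2 ∨ e ∈ u := by
    intro e he
    rw [hw', List.mem_cons, List.mem_cons] at he
    exact he
  refine ⟨π', A', b', ?_, ?_, ?_, ?_⟩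
  · intro e he
    rcases hcases e he with rfl | rfl | he
    · rw [π1, b1]
      obtain ⟨d1, d2, d3⟩ := c1 x hxm
      refine ⟨d1, ?_, d3.trans hl1⟩
      refine Part.car_vt ?_ (Part.car_sub hsub d2) (Relation.EqvGen.refl _)
      exact Relation.EqvGen.symm _ _ (Relation.EqvGen.rel _ _ ⟨hxR', hxB', sx.symm⟩)
    · rw [π2, b2]
      obtain ⟨d1, d2, d3⟩ := c1 (S.nx x) hnm
      refine ⟨d1, ⟨S.nx x, Or.inl ⟨ht2B.1, Relation.EqvGen.refl _, ?_⟩, Part.car_sub hsub d2⟩, ?_⟩
      · rw [hft2]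
        refine Relation.EqvGen.trans _ _ _ (Relation.EqvGen.rel _ _ ⟨ht0R', ht0B', rfl⟩) ?_
        rw [st0]
        have e1 : S.s x = S.f x := by
          show S.f (S.a x) = S.f x
          rw [hx.2]
        rw [e1]
        exact Part.vt_sub hsub (Part.vt_nx hx)
      · rw [List.length_cons]
        omega
    · rw [πu e he, bu e he]
      obtain ⟨d1, d2, d3⟩ := c1 e (hmem e he)
      exact ⟨d1, Part.car_sub hsub d2, d3.trans (hl e (hmem e he) (ux e he))⟩
  · intro e he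
    rcases hcases e he with rfl | rfl | he
    · rw [b1, A1, nx1, b2]
      exact Part.car_sub hsub (c2 x hxm)
    · rw [b2, A2, bn2]
      exact Relation.EqvGen.refl _
    · rw [bu e he, Au e he, bnu e he]
      exact Part.car_sub hsub (c2 e (hmem e he))
  · rw [hw']
    rw [hu] at c3
    have e1 : u.map (fun e => (A' e).length) = u.map (fun e => (A e).length) :=
      List.map_congr_left fun e he => by rw [Au e he]
    rw [List.map_cons, List.map_cons, List.sum_cons, List.sum_cons, e1, A1, A2]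
    rw [List.map_cons, List.sum_cons] at c3
    simpa using c3
  · intro e he G _ l hlf
    rcases hcases e he with rfl | rfl | he
    · rw [π1, A1, nx1, π2, hol_cons]
      have h3 := c4 x hxm G _ l hlf
      have h4 := hflat G _ l hlf
      rw [h4, h3, mul_inv_rev]
      simp only [mul_assoc]
    · rw [π2, A2, πn2, hol_cons, hol_nil, mul_one, mul_inv_cancel_right]
    · rw [πu e he, Au e he, πnu e he]
      exact c4 e (hmem e he) G _ l hlf

theorem col_face {T : Tri D} {S S' S0 : Part D} (h : S.Le T) {x : D} (hx : x ∈ S.B) (h0 : T.a x ∉ S.R)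
    (h1 : T.f (T.a x) ∉ S.R) (h2 : T.f (T.f (T.a x)) ∉ S.R)
    (hS' : S' = S.face x (T.a x) (T.f (T.a x)) (T.f (T.f (T.a x))) hx h0 h1 h2 (Part.tri_ne T _).1 (Part.tri_ne T _).2.1
        (Part.tri_ne T _).2.2) {lab lab' : D → ℕ} {q : ℕ} (hc : Col T S S0 x lab q)
    (hl1 : lab x ≤ lab' (T.f (T.a x))) (hl2 : lab (S.nx x) + 1 ≤ lab' (T.f (T.f (T.a x))))
    (hl : ∀ e ∈ S.hw x, e ≠ x → lab e ≤ lab' e) : Col T S' S0 (T.f (T.a x)) lab' q := by
  refine colF_aux hx h0 h1 h2 _ _ _ hS' ?_ hc hl1 hl2 hl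
  intro G _ l hlf
  have h3 := hlf.face (T.a x)
  rw [hlf.inv, mul_assoc, inv_mul_eq_one] at h3
  rw [h3, mul_inv_cancel_right]

end SYS
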