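import Pool.Agent.SYS.UT.Col

/-!
# SYS-UT-ColG: collar after a gluing which cuts off a contractible word

`S.hw x = x :: (u ++ y :: v)`, `T.a x = y`, `S' = S.glue x y`.  `col_glue_r`: `u` is trivial for all flat labellings, the new hole word is
`v = z :: w`.  `col_glue_l`: `v` is trivial, the new hole word is `u = z :: w` (this is `col_glue_r` for `y`: `S.hw y = y :: (v ++ x :: u)`, `S.glue y x`, which is
the same partial triangulation: `swap x y = swap y x`).

PLAN (`col_glue_r`).  `π`, `b` unchanged; `A' e = A e` except for the last element `e` of `v`: `A' e = A e ++ A x ++ (u.flatMap A) ++ A y`.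
* successors in `S'`: as in `S` inside `v`; for the last element: `nx' e = z`, `nx e = x`; `nx y = z`.
* `Car`: concatenation along `e, x, u, y, z` (`car_append`, `car_sub`).
* sum: the total over `x :: (u ++ y :: v)` is unchanged.
* labels: for the last element `e`: `l e = π e · A e · (π x)⁻¹` and `(π x)⁻¹ = A x · A(u) · A y · (π z)⁻¹` because
  `π x · A x · A(u) · A y · (π z)⁻¹ = l x · hol l u · l y = l x · (l x)⁻¹ = 1` (telescoping over `x, u, y`).
-/

namespace SYS

open Classical SST

variable {D : Type} [Finite D]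

omit [Finite D] in
private theorem cg_next {t : List D} {m e : D} (he : e ∈ t) :
    ∃ t1 e' t2, t ++ [m] = t1 ++ e :: e' :: t2 := by
  obtain ⟨t1, t2, h⟩ := List.append_of_mem he
  rw [h]
  cases t2 with
  | nil => exact ⟨t1, m, [], by simp⟩
  | cons e' t2 => exact ⟨t1, e', t2 ++ [m], by simp⟩

private theorem cg_car {T : Tri D} {S : Part D} {x y : D} (hx : x ∈ S.B) {A : D → List D} {b : D → D}
    (h2 : ∀ e ∈ S.hw x, S.Car T (b e) (A e) (b (S.nx e))) {v : List D} :
    ∀ (u : List D) (p : List D) (d : D), S.hw x = p ++ d :: (u ++ y :: v) →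
      S.Car T (b d) (A d ++ u.flatMap A) (b y) := by
  intro u
  induction u with
  | nil =>
    intro p d hw
    have h3 := h2 d (by rw [hw]; simp)
    rw [nx_append hx (u := p) (e := y) (v := v) hw] at h3
    rw [List.flatMap_nil, List.append_nil]
    exact h3
  | cons d' u ih =>
    intro p d hw
    have h3 := h2 d (by rw [hw]; simp)
    rw [nx_append hx (u := p) (e := d') (v := u ++ y :: v) hw] at h3
    have h4 := ih (p ++ [d]) d' (by rw [hw]; simp)
    rw [List.flatMap_cons]
    exact Part.car_append h3 h4

private theorem cg_hol {S : Part D} {x y : D} (hx : x ∈ S.B) {π A : D → List D} {G : Type} [Group G]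
    {l : D → G} (h4 : ∀ e ∈ S.hw x, l e = hol l (π e) * hol l (A e) * (hol l (π (S.nx e)))⁻¹) {v : List D} :
    ∀ (u : List D) (p : List D) (d : D), S.hw x = p ++ d :: (u ++ y :: v) →
      hol l (d :: u) = hol l (π d) * hol l (A d ++ u.flatMap A) * (hol l (π y))⁻¹ := by
  intro u
  induction u with
  | nil =>
    intro p d hw
    have h3 := h4 d (by rw [hw]; simp)
    rw [nx_append hx (u := p) (e := y) (v := v) hw] at h3
    rw [List.flatMap_nil, List.append_nil, hol_cons, hol_nil, mul_one]
    exact h3
  | cons d' u ih =>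
    intro p d hw
    have h3 := h4 d (by rw [hw]; simp)
    rw [nx_append hx (u := p) (e := d') (v := u ++ y :: v) hw] at h3
    have h5 := ih (p ++ [d]) d' (by rw [hw]; simp)
    rw [hol_cons, h5, h3, List.flatMap_cons, hol_append l (A d)]
    group

omit [Finite D] in
private theorem cg_len (A : D → List D) (u : List D) :
    (u.flatMap A).length = (u.map fun e => (A e).length).sum := by
  induction u with
  | nil => rfl
  | cons d u ih => rw [List.flatMap_cons, List.length_append, ih, List.map_cons, List.sum_cons]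

theorem col_glue_r {T : Tri D} {S S0 : Part D} (h : S.Le T) {x y : D} (hx : x ∈ S.B) (hy : y ∈ S.B)
    (ha : T.a x = y) {u w : List D} {z : D} (hw : S.hw x = x :: (u ++ y :: (z :: w))) (hu : FTriv T u)
    {lab : D → ℕ} {q : ℕ} (hc : Col T S S0 x lab q) : Col T (S.glue x y hx hy) S0 z lab q := by
  obtain ⟨π, A, b, h1, h2, h3, h4⟩ := hc
  obtain ⟨S', hS'⟩ : ∃ S', S' = S.glue x y hx hy := ⟨_, rfl⟩
  have hsub : S.Sub S' := by
    rw [hS']
    exact Part.glue_sub S hx hy
  have hn := S.hw_nodup hx
  have hwB : ∀ d ∈ S.hw x, d ∈ S.B := fun d hd => ((S.mem_hw hx).1 hd).1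
  rw [hw] at hn
  have hn1 := List.nodup_cons.mp hn
  have hxy : x ≠ y := fun h => hn1.1 (by rw [h]; simp)
  have hxz : z ≠ x := fun h => hn1.1 (by rw [← h]; simp)
  have hn2 := (List.nodup_append.mp hn1.2).2.1
  have hn3 := List.nodup_cons.mp hn2
  have hyz : z ≠ y := fun h => hn3.1 (by rw [← h]; simp)
  have hw' : S'.hw z = z :: w := by
    rw [hS']
    exact Part.hw_glue_split_right S hx hy hw rfl
  have hz : z ∈ S'.B := by
    rw [hS', Part.glue_B S hx hy hxy]
    refine ⟨hwB z (by rw [hw]; simp), ?_⟩
    rintro (h | h)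
    · exact hxz h
    · exact hyz h
  obtain ⟨t, m, htm⟩ : ∃ t m, z :: w = t ++ [m] :=
    ⟨(z :: w).dropLast, (z :: w).getLast (by simp), (List.dropLast_append_getLast _).symm⟩
  rw [htm] at hw' hw hn3
  have hmt : ∀ e ∈ t, e ≠ m := by
    intro e he hem
    have h5 := (List.nodup_append.mp hn3.2).2.2 e he m (by simp)
    exact h5 hem
  -- successors
  have nm : S.nx m = x := nx_last hx (u := x :: (u ++ y :: t)) (by rw [hw]; simp)
  have nm' : S'.nx m = z := nx_last hz hw'
  have ny : S.nx y = z := by
    refine nx_append hx (u := x :: u) (v := w) ?_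
    rw [hw, ← htm]
    simp
  have nt : ∀ e ∈ t, S'.nx e = S.nx e := by
    intro e he
    obtain ⟨t1, e', t2, h5⟩ := cg_next (m := m) he
    rw [nx_append hz (u := t1) (e := e') (v := t2) (by rw [hw', h5]),
      nx_append hx (u := x :: (u ++ y :: t1)) (e := e') (v := t2) (by rw [hw, h5]; simp)]
  have hmem : ∀ e ∈ S'.hw z, e ∈ S.hw x := by
    intro e he
    rw [hw'] at he
    rw [hw]
    exact List.mem_cons_of_mem _ (List.mem_append_right _ (List.mem_cons_of_mem _ he))
  have hym : y ∈ S.hw x := by rw [hw]; simp
  have hxm : x ∈ S.hw x := by rw [hw]; simp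
  have hmm : m ∈ S.hw x := by rw [hw]; simp
  obtain ⟨X, hX⟩ : ∃ X, X = (A x ++ u.flatMap A) ++ A y := ⟨_, rfl⟩
  have cX : S.Car T (b x) X (b z) := by
    rw [hX]
    refine Part.car_append (cg_car hx h2 u [] x (by rw [hw]; rfl)) ?_
    have h5 := h2 y hym
    rw [ny] at h5
    exact h5
  obtain ⟨A', hA'⟩ : ∃ A' : D → List D, A' = fun e => if e = m then A m ++ X else A e := ⟨_, rfl⟩
  have A'm : A' m = A m ++ X := by rw [hA']; simp
  have A't : ∀ e ∈ t, A' e = A e := by
    intro e he
    rw [hA']
    show (if e = m then A m ++ X else A e) = A e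
    rw [if_neg (hmt e he)]
  rw [← hS']
  refine ⟨π, A', b, ?_, ?_, ?_, ?_⟩
  · intro e he
    obtain ⟨h5, h6, h7⟩ := h1 e (hmem e he)
    exact ⟨h5, Part.car_sub hsub h6, h7⟩
  · intro e he
    rw [hw', List.mem_append] at he
    rcases he with he | he
    · rw [A't e he, nt e he]
      exact Part.car_sub hsub (h2 e (hmem e (by rw [hw']; exact List.mem_append_left _ he)))
    · rw [List.mem_singleton.1 he, A'm, nm']
      refine Part.car_sub hsub (Part.car_append ?_ cX)
      have h5 := h2 m hmm
      rw [nm] at h5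
      exact h5
  · have e1 : ((S'.hw z).map fun e => (A' e).length).sum =
        (t.map fun e => (A e).length).sum + ((A m).length + X.length) := by
      rw [hw', List.map_append, List.sum_append]
      congr 1
      · congr 1
        refine List.map_congr_left ?_
        intro e he
        rw [A't e he]
      · rw [List.map_singleton, List.sum_singleton, A'm, List.length_append]
    have e2 : X.length = (A x).length + (u.map fun e => (A e).length).sum + (A y).length := by
      rw [hX, List.length_append, List.length_append, cg_len]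
    rw [hw] at h3
    simp only [List.map_cons, List.map_append, List.sum_cons, List.sum_append, List.map_nil, List.sum_nil] at h3
    rw [e1, e2]
    omega
  · intro e he G _ l hl
    have h4' : ∀ e ∈ S.hw x, l e = hol l (π e) * hol l (A e) * (hol l (π (S.nx e)))⁻¹ :=
      fun e he => h4 e he G _ l hl
    rw [hw', List.mem_append] at he
    rcases he with he | he
    · rw [A't e he, nt e he]
      exact h4' e (hmem e (by rw [hw']; exact List.mem_append_left _ he))
    · rw [List.mem_singleton.1 he, A'm, nm']
      have h5 := h4' m hmm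
      rw [nm] at h5
      have h6 := cg_hol hx h4' u [] x (by rw [hw]; rfl)
      rw [hol_cons, hu G _ l hl, mul_one] at h6
      have h7 := h4' y hym
      rw [ny] at h7
      have h8 : l y = (l x)⁻¹ := by
        rw [← ha]
        exact hl.inv x
      have h9 : l x * l y = 1 := by rw [h8, mul_inv_cancel]
      have h10 : hol l (π x) * hol l X * (hol l (π z))⁻¹ = 1 := by
        rw [← h9, h6, h7, hX, hol_append l _ (A y)]
        group
      have h11 : (hol l (π x))⁻¹ = hol l X * (hol l (π z))⁻¹ := by
        rw [mul_assoc] at h10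
        exact (eq_inv_of_mul_eq_one_right h10).symm
      rw [h5, h11, hol_append l (A m)]
      group

theorem col_glue_l {T : Tri D} {S S0 : Part D} (h : S.Le T) {x y : D} (hx : x ∈ S.B) (hy : y ∈ S.B)
    (ha : T.a x = y) {v w : List D} {z : D} (hw : S.hw x = x :: ((z :: w) ++ y :: v)) (hv : FTriv T v)
    {lab : D → ℕ} {q : ℕ} (hc : Col T S S0 x lab q) : Col T (S.glue x y hx hy) S0 z lab q := by
  have hn := S.hw_nodup hx
  have hw1 : S.hw x = (x :: (z :: w)) ++ y :: v := by rw [hw]; simp
  have hw2 := Part.hw_rot S hx hw1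
  have hy' : y ∈ S.hw x := by rw [hw]; simp
  have hay : T.a y = x := by rw [← ha, T.aa]
  have h1 := col_glue_r h hy hx hay (u := v) (w := w) (z := z) hw2 hv (col_rep hx hy' hc)
  have h2 : S.glue y x hy hx = S.glue x y hx hy := by
    refine Part.ext' ?_ rfl
    show S.a * Equiv.swap y x = S.a * Equiv.swap x y
    rw [Equiv.swap_comm]
  rw [h2] at h1
  exact h1

end SYS
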