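import Pool.Agent.SYS.UT.Col

/-!
# SYS-UT-ColL: short walks from a collar

Concatenate the arcs of the collar along a chain of successors; the product of the labels telescopes.
-/

namespace SYS

open Classical SST

variable {D : Type} [Finite D]

private theorem chain_walk {T : Tri D} {S : Part D} {x y : D} {π A : D → List D} {b : D → D}
    (hA : ∀ e ∈ S.hw x, S.Car T (b e) (A e) (b (S.nx e)))
    (hl : ∀ e ∈ S.hw x, ∀ (G : Type) (_ : Group G) (l : D → G), Flat T l →
      l e = hol l (π e) * hol l (A e) * (hol l (π (S.nx e)))⁻¹) :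
    ∀ (c : List D) (z : D), (∀ e ∈ z :: c, e ∈ S.hw x) →
      List.IsChain (fun d e => S.nx d = e) (z :: (c ++ [y])) →
      S.Car T (b z) ((z :: c).flatMap A) (b y) ∧
      ∀ (G : Type) (_ : Group G) (l : D → G), Flat T l →
        hol l (z :: c) = hol l (π z) * hol l ((z :: c).flatMap A) * (hol l (π y))⁻¹ := by
  intro c
  induction c with
  | nil =>
    intro z hz hch
    have hz' : z ∈ S.hw x := hz z (by simp)
    have hn : S.nx z = y := by
      rw [List.nil_append] at hch
      exact (List.isChain_cons_cons.1 hch).1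
    have h1 := hA z hz'
    rw [hn] at h1
    refine ⟨by simpa using h1, ?_⟩
    intro G _ l hfl
    have h2 := hl z hz' G _ l hfl
    rw [hn] at h2
    rw [hol_cons, hol_nil, mul_one, h2]
    simp
  | cons d c ih =>
    intro z hz hch
    have hz' : z ∈ S.hw x := hz z (by simp)
    rw [List.cons_append] at hch
    have hch' := List.isChain_cons_cons.1 hch
    have hn : S.nx z = d := hch'.1
    obtain ⟨h3, h4⟩ := ih d (fun e he => hz e (List.mem_cons_of_mem _ he)) hch'.2
    have h1 := hA z hz'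
    rw [hn] at h1
    refine ⟨?_, ?_⟩
    · rw [List.flatMap_cons]
      exact Part.car_append h1 h3
    · intro G _ l hfl
      have h2 := hl z hz' G _ l hfl
      rw [hn] at h2
      rw [hol_cons, h4 G _ l hfl, h2, List.flatMap_cons (x := z), hol_append]
      group


theorem col_pt {T : Tri D} {S S0 : Part D} {x : D} {lab : D → ℕ} {q : ℕ} (hc : Col T S S0 x lab q) {e : D}
    (he : e ∈ S.hw x) : ∃ (b : D) (π : List D), b ∈ S0.R ∧ S.Car T e π b ∧ π.length ≤ lab e := by
  obtain ⟨π, A, b, h1, -, -, -⟩ := hc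
  exact ⟨b e, π e, h1 e he⟩

theorem col_around {T : Tri D} {S S0 : Part D} {x : D} (hx : x ∈ S.B) {lab : D → ℕ} {q : ℕ}
    (hc : Col T S S0 x lab q) : ∃ (b : D) (π α : List D), b ∈ S0.R ∧ S.Car T x π b ∧ π.length ≤ lab x ∧
      S.Car T b α b ∧ α.length ≤ q ∧ ∀ (G : Type) (_ : Group G) (l : D → G), Flat T l →
        hol l (S.hw x) = hol l π * hol l α * (hol l π)⁻¹ := by
  obtain ⟨π, A, b, h1, h2, h3, h4⟩ := hc
  obtain ⟨u, hu⟩ := Part.hw_cons S hx
  have hxm : x ∈ S.hw x := by
    rw [hu]
    simp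
  have hch : List.IsChain (fun d e => S.nx d = e) (x :: (u ++ [x])) := by
    rw [← List.cons_append, List.isChain_append]
    refine ⟨by rw [← hu]; exact Part.hw_chain S hx, by simp, ?_⟩
    intro d hd e he
    simp only [List.head?_cons, Option.mem_def, Option.some.injEq] at he
    subst he
    obtain ⟨c, hc⟩ := List.mem_getLast?_eq_getLast hd
    have h5 : (x :: u) = (x :: u).dropLast ++ [d] := by
      rw [hc]
      exact (List.dropLast_append_getLast c).symm
    exact nx_last hx (hu.trans h5)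
  obtain ⟨h5, h6⟩ := chain_walk h2 h4 u x (fun e he => by rw [hu]; exact he) hch
  refine ⟨b x, π x, (x :: u).flatMap A, (h1 x hxm).1, (h1 x hxm).2.1, (h1 x hxm).2.2, h5, ?_, ?_⟩
  · rw [List.length_flatMap, ← hu]
    exact h3
  · intro G _ l hfl
    rw [hu]
    exact h6 G _ l hfl

theorem col_arc {T : Tri D} {S S0 : Part D} {x : D} (hx : x ∈ S.B) {lab : D → ℕ} {q : ℕ}
    (hc : Col T S S0 x lab q) {y z : D} {w v : List D} (hw : S.hw x = x :: ((z :: w) ++ y :: v)) :
    ∃ (b b' : D) (π π' β : List D), b ∈ S0.R ∧ b' ∈ S0.R ∧ S.Car T z π b ∧ π.length ≤ lab z ∧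
      S.Car T y π' b' ∧ π'.length ≤ lab y ∧ S.Car T b β b' ∧ β.length ≤ q ∧
      ∀ (G : Type) (_ : Group G) (l : D → G), Flat T l →
        hol l (z :: w) = hol l π * hol l β * (hol l π')⁻¹ := by
  obtain ⟨π, A, b, h1, h2, h3, h4⟩ := hc
  have hzm : ∀ e ∈ z :: w, e ∈ S.hw x := by
    intro e he
    rw [hw]
    exact List.mem_cons_of_mem _ (List.mem_append_left _ he)
  have hym : y ∈ S.hw x := by
    rw [hw]
    simp
  have hch : List.IsChain (fun d e => S.nx d = e) (z :: (w ++ [y])) := by
    have h5 := Part.hw_chain S hx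
    rw [hw] at h5
    have h6 : x :: ((z :: w) ++ y :: v) = [x] ++ ((z :: (w ++ [y])) ++ v) := by simp
    rw [h6] at h5
    exact h5.right_of_append.left_of_append
  obtain ⟨h5, h6⟩ := chain_walk h2 h4 w z hzm hch
  refine ⟨b z, b y, π z, π y, (z :: w).flatMap A, (h1 z (hzm z (by simp))).1, (h1 y hym).1,
    (h1 z (hzm z (by simp))).2.1, (h1 z (hzm z (by simp))).2.2, (h1 y hym).2.1, (h1 y hym).2.2, h5, ?_, h6⟩
  rw [List.length_flatMap]
  refine le_trans ?_ h3
  rw [hw]
  simp only [List.map_cons, List.map_append, List.sum_cons, List.sum_append]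
  omega

end SYS
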