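import Pool.Agent.GNH.AreaZero
import Pool.Agent.GNH.Comm
import Pool.Agent.GNH.Sep

/-!
# SYS-UT-CommU: two closed walks at the same vertex with independent periods give a separating non-contractible closed walk
-/

namespace SYS

open Classical SST GNH

theorem comm_sep {n g : ℕ} (hn : 1 ≤ n) (hg : 3 ≤ g) {T : Tri (Fin (6 * n))} (hT : T ∈ Trn n g)
    {x y : Fin (6 * n) → ℝ} (hx : T.IsCoc x) (hy : T.IsCoc y) {v : T.V} {α β : List (Fin (6 * n))}
    (hα : T.IsWalk v α v) (hβ : T.IsWalk v β v) (h : per x α * per y β - per x β * per y α ≠ 0) {L : ℝ}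
    (hL : 2 * ((α.length : ℝ) + β.length) ≤ L) : T.HasSep L := by
  have : Nonempty (Fin (6 * n)) := ⟨⟨0, by omega⟩⟩
  obtain ⟨x', y', hx', hy', hA, hdet'⟩ := exists_area_zero T (by simp) hT.2 hg hx hy h
  obtain ⟨h1, h2, h4⟩ := comm_walk T hT.1 hx' hy' hA hα hβ hdet'
  refine ⟨α ++ β ++ (α.map T.a).reverse ++ (β.map T.a).reverse, ?_, h1, h2, h4, ?_⟩
  · intro h0
    apply h4
    rw [h0]
    exact Relation.EqvGen.refl _
  · refine le_trans ?_ hL
    simp only [List.length_append, List.length_reverse, List.length_map]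
    push_cast
    linarith

end SYS
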