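import Pool.Agent.SYS.UT.HFlow

/-!
# SYS-UT-FlowH: a closed flow which leaves a connected region through one hole and returns through another one

Sum of a flow in the hidden component and a flow in the region.
-/

namespace SYS

open Classical SST GNH

variable {D : Type} [Fintype D]

private theorem flowH_hfi {S : Part D} (T : Tri D) {d : D} (hd : d ∈ S.B) (c : D) :
    hfi S T d c = if c ∈ S.hw d then 1 else 0 := by
  unfold hfi
  refine if_congr ?_ rfl rfl
  constructor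
  · rintro (h | h)
    · exact absurd (S.B_sub_R hd) h.1
    · exact h.2
  · intro h
    exact Or.inr ⟨hd, h⟩

theorem flow_holes {S : Part D} {T : Tri D} (h : S.Le T) (hS : S.Con) {d e : D} (hd : d ∈ S.B) (he : e ∈ S.B)
    (hc : S.Hc T d e) : ∃ w : D → ℝ, T.IsCoc w ∧ (∀ c, w c ≠ 0 → (c ∈ S.R ∧ c ∉ S.B) ∨ c ∈ S.HC T d) ∧
      ∀ c ∈ S.B, per w (S.hw c) = (if c ∈ S.hw d then 1 else 0) - (if c ∈ S.hw e then 1 else 0) := by
  obtain ⟨w₁, hA, hsupp, hdiv, hper⟩ := hid_flow h (Or.inr hd : d ∈ S.X) hc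
  -- the divergence of `w₁` off the region
  have hz : ∀ c, c ∉ S.R → dvg T w₁ c = 0 := by
    intro c hcR
    have h1 : ∀ z, z ∈ S.B → c ∉ S.hw z := fun z hz hcz =>
      hcR (S.B_sub_R ((S.mem_hw hz).1 hcz).1)
    rw [hdiv c hcR, flowH_hfi T hd c, flowH_hfi T he c, if_neg (h1 d hd), if_neg (h1 e he),
      sub_zero]
  have hsum : ∑ c, dvg T w₁ c = 0 := by
    have h1 : ∑ c, w₁ (T.a c) = ∑ c, w₁ c := Equiv.sum_comp T.a w₁
    have h2 : ∑ c, w₁ (T.a c) = -∑ c, w₁ c := by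
      rw [← Finset.sum_neg_distrib]
      exact Finset.sum_congr rfl fun c _ => hA c
    have h3 : ∑ c, w₁ c = 0 := by linarith
    have h4 : ∑ c, w₁ (T.f c) = ∑ c, w₁ c := Equiv.sum_comp T.f w₁
    have h5 : ∑ c, w₁ (T.f (T.f c)) = ∑ c, w₁ c := by
      rw [← h4]
      exact Equiv.sum_comp T.f (fun c => w₁ (T.f c))
    show ∑ c, (w₁ c + w₁ (T.f c) + w₁ (T.f (T.f c))) = 0
    rw [Finset.sum_add_distrib, Finset.sum_add_distrib, h4, h5, h3]
    norm_num
  obtain ⟨w₂, hA2, hsupp2, hdiv2⟩ := con_flow h hS (m := fun c => - dvg T w₁ c)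
    (fun c => by rw [dvg_f]) (fun c hcR => by rw [hz c hcR, neg_zero])
    (by rw [Finset.sum_neg_distrib, hsum, neg_zero])
  refine ⟨fun c => w₁ c + w₂ c, ?_, ?_, ?_⟩
  · rw [isCoc_iff]
    refine ⟨hA.add hA2, fun c => ?_⟩
    rw [dvg_add, hdiv2]
    ring
  · intro c hcw
    by_cases h1 : w₁ c = 0
    · left
      refine hsupp2 c fun h2 => hcw ?_
      show w₁ c + w₂ c = 0
      rw [h1, h2, add_zero]
    · right
      exact hsupp c h1
  · intro c hcB
    have h2 : per w₂ (S.hw c) = 0 := by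
      unfold per
      refine List.sum_eq_zero fun x hx => ?_
      obtain ⟨z, hz', rfl⟩ := List.mem_map.1 hx
      by_contra hne
      exact (hsupp2 z hne).2 ((S.mem_hw hcB).1 hz').1
    rw [per_add, h2, add_zero, hper c hcB, flowH_hfi T hd c, flowH_hfi T he c]

end SYS
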