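import Pool.Agent.SYS.UT.GrdA

/-!
# SYS-UT-GrdC: periods of a gradient along carried walks

Induction on the walk; every edge contributes the difference of `q` at its ends.
-/

namespace SYS

open Classical SST GNH

variable {D : Type} [Finite D]

theorem car_per {S : Part D} {T : Tri D} {q : D → ℝ} (hq : VInv S q) {x : D → ℝ} (hx : ASy T x)
    (hxq : ∀ d ∈ S.R, x d = q (S.f d) - q d) {p p' : D} {c : List D} (hc : S.Car T p c p') :
    per x c = q p' - q p := by
  induction c generalizing p with
  | nil =>
    have h : q p = q p' := hq.vt hc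
    rw [per_nil, h, sub_self]
  | cons e c ih =>
    obtain ⟨r, hr, hc⟩ := hc
    rw [per_cons, ih hc]
    rcases hr with ⟨h1, h2, h3⟩ | ⟨h1, h2, h3⟩
    · have e1 := hxq e h1
      have e2 : q p = q e := hq.vt h2
      have e3 : q (S.f e) = q r := hq.vt h3
      linarith
    · have e0 : x (T.a e) = -x e := hx e
      have e1 := hxq (T.a e) h1
      have e2 : q p = q (S.f (T.a e)) := hq.vt h2
      have e3 : q (T.a e) = q r := hq.vt h3
      linarith

end SYS
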