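import Pool.Agent.SYS.UT.Zeta

/-!
# SYS-UT-ZetaC: short walks in a connected region

A path without repetitions in the graph of the darts of the region; each step is carried by at most
one dart.
-/

namespace SYS
namespace Part

open Classical SST

variable {D : Type} [Finite D]

omit [Finite D] in
private theorem zc_step_a {S : Part D} (T : Tri D) {d : D} (hd : d ∈ S.R) (h1 : S.Car T d [d] (S.f d)) :
    ∃ c : List D, S.Car T d c (S.a d) ∧ c.length ≤ 1 := by
  by_cases h : S.a d = d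
  · exact ⟨[], by rw [h]; exact Relation.EqvGen.refl d, Nat.zero_le _⟩
  · refine ⟨[d], ?_, le_rfl⟩
    have hR : S.a d ∈ S.R := (mem_R_a S d).2 hd
    have hB : S.a d ∉ S.B := by
      intro hb
      have h2 := hb.2
      rw [S.aa] at h2
      exact h h2.symm
    have hv : S.Vt (S.a d) (S.f d) := by
      refine Relation.EqvGen.rel _ _ ⟨hR, hB, ?_⟩
      show S.f d = S.f (S.a (S.a d))
      rw [S.aa]
    obtain ⟨r, hr1, hr2⟩ := h1
    exact ⟨r, hr1, Relation.EqvGen.trans _ _ _ hr2 (Relation.EqvGen.symm _ _ hv)⟩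

private def zcg (S : Part D) : SimpleGraph S.R :=
  SimpleGraph.fromRel fun d e => (e : D) = S.a d ∨ (e : D) = S.f d

private theorem zc_adj {S : Part D} (T : Tri D) {d e : S.R} (h : (zcg S).Adj d e) :
    ∃ c : List D, S.Car T (d : D) c (e : D) ∧ c.length ≤ 1 := by
  have key : ∀ d e : S.R, ((e : D) = S.a d ∨ (e : D) = S.f d) →
      ∃ c : List D, S.Car T (d : D) c (e : D) ∧ c.length ≤ 1 := by
    intro d e h
    rcases h with h | h
    · rw [h]
      exact zc_step_a T d.2 (car_single T d.2)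
    · rw [h]
      exact ⟨[(d : D)], car_single T d.2, le_rfl⟩
  rw [zcg, SimpleGraph.fromRel_adj] at h
  rcases h.2 with h | h
  · exact key d e h
  · obtain ⟨c, hc, hl⟩ := key e d h
    refine ⟨(c.map T.a).reverse, car_rev hc, ?_⟩
    rw [List.length_reverse, List.length_map]
    exact hl

private theorem zc_walk {S : Part D} (T : Tri D) {d e : S.R} (w : (zcg S).Walk d e) :
    ∃ c : List D, S.Car T (d : D) c (e : D) ∧ c.length ≤ w.length := by
  induction w with
  | nil => exact ⟨[], Relation.EqvGen.refl _, le_rfl⟩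
  | cons h w ih =>
    obtain ⟨c, hc, hl⟩ := ih
    obtain ⟨c', hc', hl'⟩ := zc_adj T h
    refine ⟨c' ++ c, car_append hc' hc, ?_⟩
    rw [List.length_append, SimpleGraph.Walk.length_cons]
    omega

private theorem zc_reach {S : Part D} {p q : D} (h : S.Cn p q) :
    (p ∈ S.R ↔ q ∈ S.R) ∧ ∀ (hp : p ∈ S.R) (hq : q ∈ S.R), (zcg S).Reachable ⟨p, hp⟩ ⟨q, hq⟩ := by
  unfold Cn at h
  induction h with
  | rel u v huv =>
    refine ⟨?_, fun hu hv => ?_⟩
    · rcases huv with rfl | rfl
      · exact (mem_R_a S u).symm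
      · exact (mem_R_f S u).symm
    · by_cases h : (⟨u, hu⟩ : S.R) = ⟨v, hv⟩
      · rw [h]
      · refine SimpleGraph.Adj.reachable ?_
        rw [zcg, SimpleGraph.fromRel_adj]
        exact ⟨h, Or.inl huv⟩
  | refl u => exact ⟨Iff.rfl, fun _ _ => SimpleGraph.Reachable.refl _⟩
  | symm u v _ ih => exact ⟨ih.1.symm, fun hu hv => (ih.2 hv hu).symm⟩
  | trans u v w _ _ ih1 ih2 =>
    refine ⟨ih1.1.trans ih2.1, fun hu hw => ?_⟩
    have hv := ih1.1.1 hu
    exact (ih1.2 hu hv).trans (ih2.2 hv hw)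

theorem car_conn {S : Part D} {T : Tri D} (h : S.Le T) (hS : S.Con) {p q : D} (hp : p ∈ S.R) (hq : q ∈ S.R) :
    ∃ c : List D, S.Car T p c q ∧ c.length ≤ S.R.ncard := by
  obtain ⟨w⟩ := (zc_reach (hS p hp q hq)).2 hp hq
  obtain ⟨c, hc, hl⟩ := zc_walk T (w.toPath : (zcg S).Walk ⟨p, hp⟩ ⟨q, hq⟩)
  refine ⟨c, hc, hl.trans ?_⟩
  have : Fintype S.R := Fintype.ofFinite _
  have h1 := w.toPath.2.length_lt
  rw [← Nat.card_eq_fintype_card] at h1
  have h2 : Nat.card S.R = S.R.ncard := rfl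
  omega

end Part
end SYS
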