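import Pool.Agent.SYS.UT.Inv
import Pool.Agent.SYS.UT.ColL
import Pool.Agent.SYS.UT.FlowH
import Pool.Agent.SYS.UT.Ring
import Pool.Agent.SYS.UT.CommU
import Pool.Agent.SYS.UT.GrdC
import Pool.Agent.SYS.UT.ZetaC

/-!
# SYS-UT-EndM: the two explored sides meet (case MRG)

Periods of the flow between the two holes and of the ring around one hole along two closed walks.
-/

namespace SYS

open Classical SST GNH

private theorem em_hol {D : Type} (x : D → ℝ) (c : List D) :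
    hol (fun d => Multiplicative.ofAdd (x d)) c = Multiplicative.ofAdd (per x c) := by
  induction c with
  | nil => rfl
  | cons d c ih => rw [hol_cons, ih, per_cons, ofAdd_add]

private theorem em_flat {D : Type} [Fintype D] {T : Tri D} {x : D → ℝ} (hx : T.IsCoc x) :
    Flat T (fun d => Multiplicative.ofAdd (x d)) where
  inv d := by rw [hx.1, ofAdd_neg]
  face d := by rw [← ofAdd_add, ← ofAdd_add, hx.2, ofAdd_zero]

private theorem em_per {D : Type} [Fintype D] {T : Tri D} {x : D → ℝ} (hx : T.IsCoc x) {u π α : List D}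
    (h : ∀ (G : Type) (_ : Group G) (l : D → G), Flat T l → hol l u = hol l π * hol l α * (hol l π)⁻¹) :
    per x u = per x α := by
  have h1 := h (Multiplicative ℝ) inferInstance _ (em_flat hx)
  rw [em_hol, em_hol, em_hol, ← ofAdd_add, ← ofAdd_neg, ← ofAdd_add] at h1
  have h2 := Multiplicative.ofAdd.injective h1
  linarith

theorem end_mrg {n g : ℕ} (hn : 1 ≤ n) (hg : 3 ≤ g) {T : Tri (Fin (6 * n))} (hT : T ∈ Trn n g)
    {S0 S : Part (Fin (6 * n))} (hS0 : S0.Con) {x y : Fin (6 * n)} {lab : Fin (6 * n) → ℕ} {q r : ℕ}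
    (h : TInv T S0 S x y lab q) (hr : ∀ e ∈ S.B, lab e ≤ r) {x' : Fin (6 * n)} (hx' : x' ∈ S.B) (ha : T.a x = x')
    (hm : x' ∉ S.hw x) : T.HasSep (4 * (r : ℝ) + 4 * q + 4 * S0.R.ncard) := by
  have hxy : x' ∈ S.hw y := (h.all x' hx').resolve_left hm
  obtain ⟨y', hy'⟩ : ∃ y', y' = S.nx x' := ⟨_, rfl⟩
  have hyB : y' ∈ S.B := by
    rw [hy']
    exact (S.nx_mem).2 hx'
  have hyw : y' ∈ S.hw y := by
    rw [S.mem_hw h.hy]
    refine ⟨hyB, ((S.mem_hw h.hy).1 hxy).2.trans ?_⟩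
    rw [hy']
    exact (ret_same S.s hx' ((S.nx_mem).2 hx')).1 ⟨1, by rw [zpow_one]; rfl⟩
  have h' : TInv T S0 S x y' lab q := tinv_swap (tinv_rep (tinv_swap h) hyw)
  clear h
  have hT1 : S0.Le T := Part.sub_le h'.sub h'.le
  have hxw : x ∈ S.hw x := (S.mem_hw h'.hx).2 ⟨h'.hx, Equiv.Perm.SameCycle.refl _ _⟩
  have hyw' : y' ∈ S.hw y' := (S.mem_hw h'.hy).2 ⟨h'.hy, Equiv.Perm.SameCycle.refl _ _⟩
  have hyx : y' ∉ S.hw x := fun hc => h'.ne ((S.mem_hw h'.hx).1 hc).2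
  obtain ⟨X, hX, _, hX2⟩ := flow_holes h'.le h'.con h'.hx h'.hy h'.hc
  obtain ⟨ϕ, Z, hϕ, hZ, hZ1, hZ2, hϕB, _⟩ := exists_ring h'.le h'.hx
  have pX : per X (S.hw y') = -1 := by
    rw [hX2 y' h'.hy, if_neg hyx, if_pos hyw']
    norm_num
  have pZ : per Z (S.hw y') = 0 := by
    have : ∀ c : List (Fin (6 * n)), (∀ d ∈ c, d ∈ S.B) → per Z c = 0 := by
      intro c
      induction c with
      | nil => exact fun _ => rfl
      | cons d c ih =>
        intro hc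
        rw [per_cons, ih fun e he => hc e (List.mem_cons_of_mem d he), add_zero]
        by_contra h0
        exact (hZ2 d h0).2 (hc d List.mem_cons_self)
    exact this _ fun d hd => ((S.mem_hw h'.hy).1 hd).1
  have ϕx : ϕ x = 1 := by rw [hϕB x h'.hx, if_pos hxw]
  have ϕy : ϕ y' = 0 := by rw [hϕB y' h'.hy, if_neg hyx]
  obtain ⟨b, π, hb, hπ, hπl⟩ := col_pt h'.cx hxw
  obtain ⟨b₂, π₂, α, hb₂, hπ₂, hπ₂l, hα, hαl, hhol⟩ := col_around h'.hy h'.cy
  obtain ⟨ζ, hζ, hζl⟩ := Part.car_conn hT1 hS0 hb hb₂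
  have hζ' : S.Car T b ζ b₂ := Part.car_sub h'.sub hζ
  have hbR : b ∈ S.R := h'.sub.R_sub hb
  have hb₂R : b₂ ∈ S.R := h'.sub.R_sub hb₂
  have tly : T.tl y' = T.tl x := by
    have c1 : S.Car T x' [x'] (S.f x') := Part.car_single T (S.B_sub_R hx')
    have c2 : S.Car T x' [x'] (S.nx x') := Part.car_vt (Relation.EqvGen.refl _) c1 (Part.vt_nx hx')
    have w : T.hd x' = T.tl (S.nx x') := (Part.car_walk h'.le (S.B_sub_R hx') c2).2
    rw [hy', ← w, ← ha]
    exact T.hd_a x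
  have w1 : T.IsWalk (T.tl b₂) (π₂.map T.a).reverse (T.tl y') := Part.car_walk h'.le hb₂R (Part.car_rev hπ₂)
  have w2 : T.IsWalk (T.tl x) π (T.tl b) := Part.car_walk h'.le (S.B_sub_R h'.hx) hπ
  have w3 : T.IsWalk (T.tl b) ζ (T.tl b₂) := Part.car_walk h'.le hbR hζ'
  have wα : T.IsWalk (T.tl b₂) α (T.tl b₂) := Part.car_walk h'.le hb₂R hα
  rw [tly] at w1
  have wβ : T.IsWalk (T.tl b₂) ((π₂.map T.a).reverse ++ π ++ ζ) (T.tl b₂) :=
    T.walk_append (T.walk_append w1 w2) w3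
  have qX : per X α = -1 := by rw [← em_per hX hhol, pX]
  have qZ : per Z α = 0 := by rw [← em_per hZ hhol, pZ]
  have pπ : per Z π = ϕ b - ϕ x := car_per hϕ hZ.1 hZ1 hπ
  have pπ₂ : per Z π₂ = ϕ b₂ - ϕ y' := car_per hϕ hZ.1 hZ1 hπ₂
  have pζ : per Z ζ = ϕ b₂ - ϕ b := car_per hϕ hZ.1 hZ1 hζ'
  have pβ : per Z ((π₂.map T.a).reverse ++ π ++ ζ) = -1 := by
    rw [per_append, per_append, per_rev T hZ.1, pπ, pπ₂, pζ, ϕx, ϕy]
    ring
  have hl1 : π.length ≤ r := hπl.trans (hr x h'.hx)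
  have hl2 : π₂.length ≤ r := hπ₂l.trans (hr y' h'.hy)
  refine comm_sep hn hg hT hX hZ wα wβ ?_ ?_
  · rw [qX, qZ, pβ]
    norm_num
  · rw [List.length_append, List.length_append, List.length_reverse, List.length_map]
    have e1 : (α.length : ℝ) ≤ q := by exact_mod_cast hαl
    have e2 : (π.length : ℝ) ≤ r := by exact_mod_cast hl1
    have e3 : (π₂.length : ℝ) ≤ r := by exact_mod_cast hl2
    have e4 : (ζ.length : ℝ) ≤ S0.R.ncard := by exact_mod_cast hζl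
    have e5 : (0 : ℝ) ≤ q := Nat.cast_nonneg q
    have e6 : (0 : ℝ) ≤ S0.R.ncard := Nat.cast_nonneg _
    push_cast
    linarith

end SYS
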