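import Pool.Agent.SYS.UT.Inv
import Pool.Agent.SYS.UT.ColL
import Pool.Agent.SYS.UT.FlowH
import Pool.Agent.SYS.UT.CommU
import Pool.Agent.SYS.UT.ZetaC

/-!
# SYS-UT-EndN: a gluing which does not separate (case NS)

PLAN.  `S' = S.glue x x'`, `S'.hw z₁ = u = z₁ :: w₁`, `S'.hw z = v = z :: w`, `S'.hw y = S.hw y`; all in one hidden component of `S'`.
* cocycles (`flow_holes` for `S'`, `con_glue`, `glue_le`): `X` from the hole of `z₁` to that of `z`: `per X u = 1`, `per X (S.hw y) = 0`; `Y` from the hole of `y` to that of `z`: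
  `per Y u = 0`, `per Y (S.hw y) = 1` (different holes: `mem_hw`).
* walks: `col_around` for `y`: `b₂, π₂, α`; `col_arc` for `x` (`y := x'`): `b, b', π, π', β`, `hol l u = π β π'⁻¹`.  `δ := β ++ rev π' ++ π`: closed at `T.tl b` because `T.tl z₁ = T.hd x`
  (`z₁ = nx x`, `vt_nx`: `T.tl (T.f x) = T.tl (nx x)`; e.g. `car_walk` for `Car x [x] (nx x)`) `= T.tl (T.a x) = T.tl x'`.  (`car_walk` gives walks; `walk_rev`.)
* `ζ` from `b₂` to `b` in `S0` (`car_conn`, `car_sub`), length `≤ S0.R.ncard`.  `β' := ζ ++ δ ++ rev ζ` closed at `T.tl b₂`, like `α`.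
* periods: for a cocycle `X` the labelling `Multiplicative.ofAdd (X d)` is flat, so the identities of `Col` give `per X α = per X (S.hw y)` and
  `per X β' = per X δ = per X β - per X π' + per X π = per X u` (private lemma: `hol` of this labelling is `ofAdd (per X c)`).
* `comm_sep`: determinant `per X α * per Y β' - per X β' * per Y α = 0 - 1 * 1`.  Length: `2 (q + (q + 2 r) + 2 |S0.R|)`.
-/

namespace SYS

open Classical SST GNH

private noncomputable def enL {D : Type} (X : D → ℝ) (d : D) : Multiplicative ℝ := Multiplicative.ofAdd (X d)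

private theorem en_flat {D : Type} {T : Tri D} {X : D → ℝ} (h : T.IsCoc X) : Flat T (enL X) := by
  refine ⟨fun d => ?_, fun d => ?_⟩
  · show Multiplicative.ofAdd (X (T.a d)) = (Multiplicative.ofAdd (X d))⁻¹
    rw [h.1 d, ofAdd_neg]
  · show Multiplicative.ofAdd (X d) * Multiplicative.ofAdd (X (T.f d)) *
      Multiplicative.ofAdd (X (T.f (T.f d))) = 1
    rw [← ofAdd_add, ← ofAdd_add, h.2 d, ofAdd_zero]

private theorem en_hol {D : Type} (X : D → ℝ) (c : List D) :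
    hol (enL X) c = Multiplicative.ofAdd (per X c) := by
  induction c with
  | nil => rfl
  | cons d c ih =>
    rw [hol_cons, ih]
    show Multiplicative.ofAdd (X d) * Multiplicative.ofAdd (per X c) = _
    rw [← ofAdd_add]
    congr 1

private theorem en_rev {D : Type} {T : Tri D} {X : D → ℝ} (h : T.IsCoc X) (c : List D) :
    per X (c.map T.a).reverse = - per X c := by
  have h1 := (en_flat h).hol_rev c
  rw [en_hol, en_hol, ← ofAdd_neg] at h1
  exact Multiplicative.ofAdd.injective h1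

/-- transfer of a conjugation identity to periods -/
private theorem en_id {D : Type} {T : Tri D} {X : D → ℝ} (h : T.IsCoc X) {u a b c : List D}
    (hid : ∀ (G : Type) (_ : Group G) (l : D → G), Flat T l → hol l u = hol l a * hol l b * (hol l c)⁻¹) :
    per X u = per X a + per X b - per X c := by
  have h1 := hid (Multiplicative ℝ) inferInstance (enL X) (en_flat h)
  rw [en_hol, en_hol, en_hol, en_hol, ← ofAdd_neg, ← ofAdd_add, ← ofAdd_add] at h1
  have h2 := Multiplicative.ofAdd.injective h1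
  rw [h2, sub_eq_add_neg]

theorem end_ns {n g : ℕ} (hn : 1 ≤ n) (hg : 3 ≤ g) {T : Tri (Fin (6 * n))} (hT : T ∈ Trn n g)
    {S0 S : Part (Fin (6 * n))} (hS0 : S0.Con) {x y : Fin (6 * n)} {lab : Fin (6 * n) → ℕ} {q r : ℕ}
    (h : TInv T S0 S x y lab q) (hr : ∀ e ∈ S.B, lab e ≤ r) {x' : Fin (6 * n)} (hx' : x' ∈ S.B) (ha : T.a x = x')
    {z₁ z : Fin (6 * n)} {w₁ w : List (Fin (6 * n))} (hw : S.hw x = x :: ((z₁ :: w₁) ++ x' :: z :: w))
    (h1 : (S.glue x x' h.hx hx').Hc T z₁ z) (h2 : (S.glue x x' h.hx hx').Hc T z₁ y) :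
    T.HasSep (4 * (r : ℝ) + 4 * q + 4 * S0.R.ncard) := by
  have hnd := S.hw_nodup h.hx
  rw [hw] at hnd
  have hin : ∀ d ∈ x :: ((z₁ :: w₁) ++ x' :: z :: w), d ∈ S.B ∧ S.s.SameCycle x d := by
    intro d hd
    rw [← hw] at hd
    exact (S.mem_hw h.hx).1 hd
  have hn1 := List.nodup_cons.mp hnd
  have hn2 := List.nodup_append.mp hn1.2
  have hn3 := List.nodup_cons.mp hn2.2.1
  have hxx' : x ≠ x' := fun e => hn1.1 (by rw [e]; simp)
  have hz₁ : z₁ ∈ S.B := (hin z₁ (by simp)).1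
  have hz : z ∈ S.B := (hin z (by simp)).1
  have hz₁x : z₁ ≠ x := fun e => hn1.1 (by rw [← e]; simp)
  have hz₁x' : z₁ ≠ x' := hn2.2.2 z₁ (by simp) x' (by simp)
  have hzx : z ≠ x := fun e => hn1.1 (by rw [← e]; simp)
  have hzx' : z ≠ x' := fun e => hn3.1 (by rw [← e]; simp)
  have hy : ∀ d ∈ x :: ((z₁ :: w₁) ++ x' :: z :: w), d ≠ y := fun d hd e => h.ne (e ▸ (hin d hd).2)
  have hyx : y ≠ x := fun e => hy x (by simp) e.symm
  have hyx' : y ≠ x' := fun e => hy x' (by simp) e.symm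
  have hxx'c : S.s.SameCycle x x' := (hin x' (by simp)).2
  have hne' : ¬ S.s.SameCycle x' y := fun h3 => h.ne (hxx'c.trans h3)
  have hle : (S.glue x x' h.hx hx').Le T := Part.glue_le S h.hx hx' h.le ha
  have hcon : (S.glue x x' h.hx hx').Con := Part.con_glue S h.hx hx' h.con
  have hB : ∀ d ∈ S.B, d ≠ x → d ≠ x' → d ∈ (S.glue x x' h.hx hx').B := by
    intro d hd h3 h4
    rw [Part.glue_B S h.hx hx' hxx']
    refine ⟨hd, ?_⟩
    rintro (h5 | h5)
    · exact h3 h5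
    · exact h4 h5
  have hz₁B := hB z₁ hz₁ hz₁x hz₁x'
  have hzB := hB z hz hzx hzx'
  have hyB := hB y h.hy hyx hyx'
  have e1 : (S.glue x x' h.hx hx').hw z₁ = z₁ :: w₁ := Part.hw_glue_split_left S h.hx hx' hw rfl
  have e2 : (S.glue x x' h.hx hx').hw z = z :: w := Part.hw_glue_split_right S h.hx hx' hw rfl
  have e3 : (S.glue x x' h.hx hx').hw y = S.hw y := Part.hw_glue_other S h.hx hx' h.hy h.ne hne'
  have m1 : z₁ ∉ z :: w := fun h3 => hn2.2.2 z₁ (by simp) z₁ (List.mem_cons_of_mem _ h3) rfl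
  have m2 : y ∉ z₁ :: w₁ := fun h3 =>
    hy y (List.mem_cons_of_mem _ (List.mem_append_left _ h3)) rfl
  have m3 : y ∉ z :: w := fun h3 =>
    hy y (List.mem_cons_of_mem _ (List.mem_append_right _ (List.mem_cons_of_mem _ h3))) rfl
  have m4 : y ∈ S.hw y := (S.mem_hw h.hy).2 ⟨h.hy, Equiv.Perm.SameCycle.refl _ _⟩
  have m5 : z₁ ∉ S.hw y := fun h3 => h.ne ((hin z₁ (by simp)).2.trans ((S.mem_hw h.hy).1 h3).2.symm)
  have m6 : z₁ ∈ z₁ :: w₁ := List.mem_cons_self
  obtain ⟨X, hX, -, hXp⟩ := flow_holes hle hcon hz₁B hzB h1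
  obtain ⟨Y, hY, -, hYp⟩ := flow_holes hle hcon hyB hzB (Part.hc_trans (Part.hc_symm h2) h1)
  have a1 : per X (z₁ :: w₁) = 1 := by
    have h3 := hXp z₁ hz₁B
    rw [e1, e2, if_pos m6, if_neg m1] at h3
    rw [h3, sub_zero]
  have a2 : per X (S.hw y) = 0 := by
    have h3 := hXp y hyB
    rw [e1, e2, e3, if_neg m2, if_neg m3] at h3
    rw [h3, sub_zero]
  have a3 : per Y (z₁ :: w₁) = 0 := by
    have h3 := hYp z₁ hz₁B
    rw [e1, e2, e3, if_neg m5, if_neg m1] at h3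
    rw [h3, sub_zero]
  have a4 : per Y (S.hw y) = 1 := by
    have h3 := hYp y hyB
    rw [e2, e3, if_pos m4, if_neg m3] at h3
    rw [h3, sub_zero]
  obtain ⟨b₂, π₂, α, hb₂, hc1, hl1, hc2, hl2, hid1⟩ := col_around h.hy h.cy
  obtain ⟨b, b', π, π', β, hb, hb', hd1, hk1, hd2, hk2, hd3, hk3, hid2⟩ := col_arc h.hx h.cx hw
  have hS0T : S0.Le T := Part.sub_le h.sub h.le
  obtain ⟨ζ, hζ, hζl⟩ := Part.car_conn hS0T hS0 hb₂ hb
  have hζ' : S.Car T b₂ ζ b := Part.car_sub h.sub hζ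
  have hRs := h.sub.R_sub
  have w1 : T.IsWalk (T.tl b₂) α (T.tl b₂) := Part.car_walk h.le (hRs hb₂) hc2
  have w2 : T.IsWalk (T.tl b₂) ζ (T.tl b) := Part.car_walk h.le (hRs hb₂) hζ'
  have w3 : T.IsWalk (T.tl b) β (T.tl b') := Part.car_walk h.le (hRs hb) hd3
  have w4 : T.IsWalk (T.tl x') π' (T.tl b') := Part.car_walk h.le (Part.B_sub_R S hx') hd2
  have w5 : T.IsWalk (T.tl z₁) π (T.tl b) := Part.car_walk h.le (Part.B_sub_R S hz₁) hd1
  have hnx : S.nx x = z₁ := nx_append h.hx (u := []) hw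
  have htl : T.tl x' = T.tl z₁ := by
    have h3 := Part.car_vt (Relation.EqvGen.refl x) (Part.car_single T (Part.B_sub_R S h.hx)) (Part.vt_nx h.hx)
    have h4 := Part.car_walk h.le (Part.B_sub_R S h.hx) h3
    have h5 : T.hd x = T.tl (S.nx x) := h4.2
    rw [hnx] at h5
    rw [← h5, ← ha]
    rfl
  rw [← htl] at w5
  have w6 := Tri.walk_append T w3 (Tri.walk_append T (Tri.walk_rev T w4) w5)
  have w7 := Tri.walk_append T w2 (Tri.walk_append T w6 (Tri.walk_rev T w2))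
  have pc : ∀ Z : Fin (6 * n) → ℝ, T.IsCoc Z →
      per Z (ζ ++ ((β ++ ((π'.map T.a).reverse ++ π)) ++ (ζ.map T.a).reverse)) = per Z (z₁ :: w₁) := by
    intro Z hZ
    rw [per_append, per_append, per_append, per_append, en_rev hZ, en_rev hZ, en_id hZ hid2]
    ring
  have pa : ∀ Z : Fin (6 * n) → ℝ, T.IsCoc Z → per Z α = per Z (S.hw y) := by
    intro Z hZ
    rw [en_id hZ hid1]
    ring
  refine comm_sep hn hg hT hX hY w1 w7 ?_ ?_
  · rw [pc X hX, pc Y hY, pa X hX, pa Y hY, a1, a2, a3, a4]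
    norm_num
  · have g1 : lab z₁ ≤ r := hr z₁ hz₁
    have g2 : lab x' ≤ r := hr x' hx'
    have g3 : (ζ ++ ((β ++ ((π'.map T.a).reverse ++ π)) ++ (ζ.map T.a).reverse)).length ≤
        2 * S0.R.ncard + q + 2 * r := by
      simp only [List.length_append, List.length_reverse, List.length_map]
      omega
    have g4 : ((ζ ++ ((β ++ ((π'.map T.a).reverse ++ π)) ++ (ζ.map T.a).reverse)).length : ℝ) ≤
        2 * (S0.R.ncard : ℝ) + q + 2 * r := by exact_mod_cast g3
    have g5 : (α.length : ℝ) ≤ q := by exact_mod_cast hl2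
    linarith

end SYS
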