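import Pool.Agent.SYS.UT.Ring
import Pool.Agent.SYS.UT.FlowH
import Pool.Agent.SYS.UT.HandC
import Pool.Agent.SYS.UT.SepH

/-!
# SYS-UT-SepY: the boundary of a non-planar hidden component is not contractible if another hidden component has two holes

`S` connected; `HC z` has only the hole of `z` and is not a disc; `z'`, `y` are boundary darts in different holes of one other
hidden component; there are no other holes outside.

PLAN.  `y1 := ` ring around the hole of `z'` (`exists_ring`), `y2 :=` the flow from the hole of `z'` to the hole of `y` (`flow_holes`):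
`Area y1 y2 = 6 per y2 (S.hw z') = 6 (1 - 0) ≠ 0` (`z' ∉ S.hw y`: `mem_hw`).  Supports: `exists_ring`, `flow_holes`.  `handle_coc` for `z`.  For the darts of `S.HC T z'`:
in `S.X`, not in `S.HC T z` (`hne`).  `sep_hol`.
-/

namespace SYS

open Classical SST GNH

variable {D : Type} [Fintype D]

theorem sep_two {T : Tri D} (hT : T.Conn) {S : Part D} (h : S.Le T) (hS : S.Con) {z z' y : D} (hz : z ∈ S.B)
    (hz' : z' ∈ S.B) (hy : y ∈ S.B) (hzy : S.Hc T z' y) (hd : ¬ S.s.SameCycle z' y)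
    (hne : ¬ S.Hc T z z') (hall : ∀ d ∈ S.B, S.Hc T z d ∨ S.Hc T z' d)
    (hu : ∀ d ∈ S.B, S.Hc T z d → d ∈ S.hw z) (hg : (S.fill T h z).gen12 ≠ S.gen12) :
    ∃ l : D → Hs, Flat T l ∧ hol l (S.hw z) ≠ 1 := by
  obtain ⟨q, y1, -, hc1, -, hs1, -, hA⟩ := exists_ring h hz'
  obtain ⟨y2, hc2, hs2, hp⟩ := flow_holes h hS hz' hy hzy
  obtain ⟨w1, w2, q1, q2, hw1, hw2, hq1, hq2, hg1, hg2, h01, h02, h0, hwA⟩ := handle_coc hT h hS hz hu hg
  have hself : z' ∈ S.hw z' := (S.mem_hw hz').2 ⟨hz', Equiv.Perm.SameCycle.refl _ _⟩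
  have hnot : z' ∉ S.hw y := fun h1 => hd ((S.mem_hw hy).1 h1).2.symm
  have hX : ∀ d ∈ S.HC T z', w1 d = 0 ∧ w2 d = 0 := by
    intro d hd'
    refine h0 d hd'.1 fun h1 => hne ?_
    exact Part.hc_trans h1.2 (Part.hc_symm hd'.2)
  refine sep_hol hT h hz hne hall hu hc1 hc2 (fun d hd' => Or.inl (hs1 d hd')) hs2 ?_ hw1 hw2 hq1 hq2 hg1 hg2 h01 h02
    (fun d hd' => (hX d hd').1) (fun d hd' => (hX d hd').2) hwA
  rw [hA y2 hc2, hp z' hz', if_pos hself, if_neg hnot]
  norm_num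

end SYS
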