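import Pool.Agent.SYS.UT.Inv
import Pool.Agent.SYS.UT.ColL
import Pool.Agent.SYS.UT.AbF
import Pool.Agent.SYS.UT.SepY
import Pool.Agent.GNH.Sep

/-!
# SYS-UT-EndS: a gluing which separates off a hidden component which is not a disc (case SEP)

`z₁` in the component without the hole of `y` (`end_sep_r`: it is the word `u = z₁ :: w₁`; `end_sep_l`: it is the word `v`).

`end_sep_r`: for `S' = S.glue x x'` the word `u = S'.hw z₁` is homologous to zero (`nullHom_side`) and detected by a flat labelling (`sep_two`); the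
collar of `x` gives `δ = π ++ β ++ rev π'` with `hol l δ = hol l u` for every flat `l`.  `end_sep_l`: the same with `x` and `x'` exchanged.
-/

namespace SYS

open Classical SST GNH

variable {D : Type} [Fintype D]

omit [Fintype D] in
private theorem glue_swap {S : Part D} {x y : D} (hx : x ∈ S.B) (hy : y ∈ S.B) :
    S.glue y x hy hx = S.glue x y hx hy := by
  refine Part.ext' ?_ rfl
  show S.a * Equiv.swap y x = S.a * Equiv.swap x y
  rw [Equiv.swap_comm]

theorem end_sep_r {T : Tri D} (hT : T.Conn) {S0 S : Part D} {x y : D} {lab : D → ℕ} {q r : ℕ}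
    (h : TInv T S0 S x y lab q) (hr : ∀ e ∈ S.B, lab e ≤ r) {x' : D} (hx' : x' ∈ S.B) (ha : T.a x = x')
    {z₁ z : D} {w₁ w : List D} (hw : S.hw x = x :: ((z₁ :: w₁) ++ x' :: z :: w))
    (hle : (S.glue x x' h.hx hx').Le T) (h1 : ¬ (S.glue x x' h.hx hx').Hc T z₁ z)
    (h2 : (S.glue x x' h.hx hx').Hc T z y)
    (hg : ((S.glue x x' h.hx hx').fill T hle z₁).gen12 ≠ (S.glue x x' h.hx hx').gen12) :
    T.HasSep (2 * (r : ℝ) + q) := by
  have hnd := S.hw_nodup h.hx
  rw [hw] at hnd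
  have hmem : ∀ d ∈ x :: ((z₁ :: w₁) ++ x' :: z :: w), d ∈ S.B ∧ S.s.SameCycle x d := by
    intro d hd
    rw [← hw] at hd
    exact (S.mem_hw h.hx).1 hd
  have hxx : x ≠ x' := by
    intro h3
    have h4 := (List.nodup_cons.mp hnd).1
    apply h4
    rw [h3]
    simp
  have hsx' : S.s.SameCycle x x' := (hmem x' (by simp)).2
  have hw1 : (S.glue x x' h.hx hx').hw z₁ = z₁ :: w₁ :=
    Part.hw_glue_split_left S h.hx hx' hw rfl
  have hw2 : (S.glue x x' h.hx hx').hw z = z :: w :=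
    Part.hw_glue_split_right S h.hx hx' hw rfl
  have hwy : (S.glue x x' h.hx hx').hw y = S.hw y :=
    Part.hw_glue_other S h.hx hx' h.hy h.ne (fun h3 => h.ne (hsx'.trans h3))
  have hB : ∀ d, d ∈ (S.glue x x' h.hx hx').B ↔ d ∈ S.B ∧ d ≠ x ∧ d ≠ x' := by
    intro d
    rw [Part.glue_B S h.hx hx' hxx]
    simp only [Set.mem_sdiff, Set.mem_insert_iff, Set.mem_singleton_iff, not_or]
  have hn1 := List.nodup_cons.mp hnd
  have hn2 := List.nodup_append.mp hn1.2
  have hn3 := List.nodup_cons.mp hn2.2.1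
  have hz1B : z₁ ∈ (S.glue x x' h.hx hx').B := by
    rw [hB]
    refine ⟨(hmem z₁ (by simp)).1, ?_, ?_⟩
    · rintro rfl
      exact hn1.1 (by simp)
    · rintro rfl
      exact hn2.2.2 z₁ (by simp) z₁ (by simp) rfl
  have hzB : z ∈ (S.glue x x' h.hx hx').B := by
    rw [hB]
    refine ⟨(hmem z (by simp)).1, ?_, ?_⟩
    · rintro rfl
      exact hn1.1 (by simp)
    · rintro rfl
      exact hn3.1 (by simp)
  have hyB : y ∈ (S.glue x x' h.hx hx').B := by
    rw [hB]
    refine ⟨h.hy, ?_, ?_⟩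
    · rintro rfl
      exact h.ne (Equiv.Perm.SameCycle.refl _ _)
    · rintro rfl
      exact h.ne hsx'
  have hcase : ∀ d ∈ (S.glue x x' h.hx hx').B,
      d ∈ (S.glue x x' h.hx hx').hw z₁ ∨ d ∈ (S.glue x x' h.hx hx').hw z ∨ d ∈ (S.glue x x' h.hx hx').hw y := by
    intro d hd
    obtain ⟨h3, h4, h5⟩ := (hB d).1 hd
    rw [hw1, hw2, hwy]
    rcases h.all d h3 with h6 | h6
    · rw [hw, List.mem_cons, List.mem_append] at h6
      rcases h6 with h6 | h6 | h6
      · exact absurd h6 h4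
      · exact Or.inl h6
      · rcases List.mem_cons.1 h6 with h7 | h7
        · exact absurd h7 h5
        · exact Or.inr (Or.inl h7)
    · exact Or.inr (Or.inr h6)
  have hall : ∀ d ∈ (S.glue x x' h.hx hx').B,
      (S.glue x x' h.hx hx').Hc T z₁ d ∨ (S.glue x x' h.hx hx').Hc T z d := by
    intro d hd
    rcases hcase d hd with h3 | h3 | h3
    · exact Or.inl (Part.hc_hole hz1B h3)
    · exact Or.inr (Part.hc_hole hzB h3)
    · exact Or.inr (Part.hc_trans h2 (Part.hc_hole hyB h3))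
  have hu : ∀ d ∈ (S.glue x x' h.hx hx').B, (S.glue x x' h.hx hx').Hc T z₁ d →
      d ∈ (S.glue x x' h.hx hx').hw z₁ := by
    intro d hd h3
    rcases hcase d hd with h4 | h4 | h4
    · exact h4
    · exact absurd (Part.hc_trans h3 (Part.hc_symm (Part.hc_hole hzB h4))) h1
    · exact absurd (Part.hc_trans h3 (Part.hc_symm (Part.hc_trans h2 (Part.hc_hole hyB h4)))) h1
  have hdis : ¬ (S.glue x x' h.hx hx').s.SameCycle z y := by
    intro h3
    have h4 : y ∈ (S.glue x x' h.hx hx').hw z := (Part.mem_hw _ hzB).2 ⟨hyB, h3⟩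
    rw [hw2] at h4
    apply h.ne
    refine (hmem y ?_).2
    rw [List.mem_cons, List.mem_append]
    exact Or.inr (Or.inr (List.mem_cons_of_mem _ h4))
  obtain ⟨l, hl, hne⟩ := sep_two hT hle (Part.con_glue S h.hx hx' h.con) hz1B hzB hyB h2 hdis h1 hall hu hg
  obtain ⟨b, b', π, π', β, hb, hb', hπ, hπl, hπ', hπl', hβ, hβl, hhol⟩ := col_arc h.hx h.cx hw
  have hv : T.tl x' = T.tl z₁ := by
    have h3 := Part.hw_walk h.le h.hx
    rw [hw] at h3
    have h4 : T.tl z₁ = T.hd x := h3.2.1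
    rw [h4, ← ha]
    rfl
  have hz1R : z₁ ∈ S.R := (hmem z₁ (by simp)).1.1
  have hbR : b ∈ S.R := h.sub.R_sub hb
  have hclosed : T.IsWalk (T.tl z₁) (π ++ β ++ (π'.map T.a).reverse) (T.tl z₁) := by
    refine T.walk_append (T.walk_append (Part.car_walk h.le hz1R hπ) (Part.car_walk h.le hbR hβ)) ?_
    have h3 := T.walk_rev (Part.car_walk h.le hx'.1 hπ')
    rw [hv] at h3
    exact h3
  have hholδ : ∀ (G : Type) (_ : Group G) (l : D → G), Flat T l →
      hol l (π ++ β ++ (π'.map T.a).reverse) = hol l ((S.glue x x' h.hx hx').hw z₁) := by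
    intro G _ l hl
    rw [hol_append, hol_append, hl.hol_rev, hw1, hhol G _ l hl]
  refine ⟨π ++ β ++ (π'.map T.a).reverse, ?_, ⟨_, hclosed⟩, ?_, ?_, ?_⟩
  · intro h3
    apply hne
    rw [← hholδ Hs _ l hl, h3, hol_nil]
  · obtain ⟨G, _, l', hl', hN⟩ := exists_flat_ab T
    rw [← hN, hholδ G _ l' hl', hN]
    exact nullHom_side hle hz1B hu
  · intro h3
    apply hne
    rw [← hholδ Hs _ l hl]
    exact hl.nullHtp h3
  · have h3 := hr z₁ (hmem z₁ (by simp)).1
    have h4 := hr x' hx'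
    have h5 : (π ++ β ++ (π'.map T.a).reverse).length ≤ 2 * r + q := by
      rw [List.length_append, List.length_append, List.length_reverse, List.length_map]
      omega
    exact_mod_cast h5

theorem end_sep_l {T : Tri D} (hT : T.Conn) {S0 S : Part D} {x y : D} {lab : D → ℕ} {q r : ℕ}
    (h : TInv T S0 S x y lab q) (hr : ∀ e ∈ S.B, lab e ≤ r) {x' : D} (hx' : x' ∈ S.B) (ha : T.a x = x')
    {z₁ z : D} {w₁ w : List D} (hw : S.hw x = x :: ((z₁ :: w₁) ++ x' :: z :: w))
    (hle : (S.glue x x' h.hx hx').Le T) (h1 : ¬ (S.glue x x' h.hx hx').Hc T z₁ z)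
    (h2 : (S.glue x x' h.hx hx').Hc T z₁ y)
    (hg : ((S.glue x x' h.hx hx').fill T hle z).gen12 ≠ (S.glue x x' h.hx hx').gen12) :
    T.HasSep (2 * (r : ℝ) + q) := by
  have hx'x : x' ∈ S.hw x := by
    rw [hw]
    simp
  have h' : TInv T S0 S x' y lab q := tinv_rep h hx'x
  have ha' : T.a x' = x := by rw [← ha, T.aa]
  have hw' : S.hw x' = x' :: ((z :: w) ++ x :: z₁ :: w₁) := by
    have h3 := S.hw_rot h.hx (u := x :: (z₁ :: w₁)) (y := x') (v := z :: w) hw
    rw [h3]
  have hsw : S.glue x' x h'.hx h.hx = S.glue x x' h.hx hx' := glue_swap h.hx hx'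
  have hle' : (S.glue x' x h'.hx h.hx).Le T := by
    rw [hsw]
    exact hle
  refine end_sep_r hT h' hr h.hx ha' hw' hle' ?_ ?_ ?_
  · rw [hsw]
    exact fun h3 => h1 (Part.hc_symm h3)
  · rw [hsw]
    exact h2
  · revert hle'
    rw [hsw]
    exact fun _ => hg

end SYS
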