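import Pool.Agent.SYS.UT.Flow
import Pool.Agent.SYS.Lib.HidB
import Pool.Agent.GNH.Defs

/-!
# SYS-UT-HFlow: flows in a hidden component

The hidden part is a map whose faces are the hidden triangles and the holes.  `hfi S T d c` = indicator of (`c` is in the face
of `d` in the hidden map).

PLAN (`hid_flow`).  `SYS.Part.hc_ind` for
`P d e := S.Hc T d e ∧ ∃ w, ASy T w ∧ (∀ c, w c ≠ 0 → c ∈ S.X ∧ S.Hc T d c) ∧ (∀ c ∉ S.R, dvg T w c = hfi S T d c - hfi S T e c) ∧
  ∀ c ∈ S.B, per w (S.hw c) = hfi S T d c - hfi S T e c`.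
* `hr`: `w = 0`.  `hs`: `-w` (the support: `S.Hc T e c ↔ S.Hc T d c`).  `ht`: the sum.
* `ha` (`e = T.a d`, `d ∈ X`): `w c = (if c = d then 1 else 0) - (if c = T.a d then 1 else 0)`.  For `c ∉ R` a dart `d' ∈ X` lies in
  `{c, T.f c, T.f (T.f c)}` iff `hfi d' c = 1` (if `d' ∈ B` it does not, `T.f` preserves `R`: `SYS.Part.mem_R_f` and `S.f = T.f` on `R`).
  For `c ∈ B`: `per` of the indicator of `d'` along `S.hw c` (no repetitions: `hw_nodup`) is `1` iff `d' ∈ S.hw c`, iff `d' ∈ B` and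
  `c ∈ S.hw d'` (`mem_hw`, symmetric).  `T.a d ∈ X` by `X_a`.
* `hf` (`d ∉ R`, `e = T.f d`) and `hn` (`d ∈ B`, `e = S.nx d`): `w = 0`, `hfi S T d = hfi S T e` (`nx d` is in the same hole: `mem_hw`).
(`P` requires `S.Hc T d e`: single steps by `hc_a, hc_f, hc_nx`.)
-/

namespace SYS

open Classical SST GNH

variable {D : Type} [Finite D]

/-- Indicator of the face of `d` in the hidden map. -/
noncomputable def hfi (S : Part D) (T : Tri D) (d c : D) : ℝ :=
  if (d ∉ S.R ∧ (c = d ∨ c = T.f d ∨ c = T.f (T.f d))) ∨ (d ∈ S.B ∧ c ∈ S.hw d) then 1 else 0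

private theorem hf_per (d e : D) (l : List D) (hl : l.Nodup) :
    per (fun x => (if x = d then (1 : ℝ) else 0) - (if x = e then (1 : ℝ) else 0)) l =
      (if d ∈ l then (1 : ℝ) else 0) - (if e ∈ l then (1 : ℝ) else 0) := by
  induction l with
  | nil => simp [per]
  | cons a l ih =>
    rw [per_cons, ih (List.nodup_cons.1 hl).2]
    have ha : a ∉ l := (List.nodup_cons.1 hl).1
    have key : ∀ z : D, (if z ∈ a :: l then (1 : ℝ) else 0) =
        (if a = z then (1 : ℝ) else 0) + (if z ∈ l then (1 : ℝ) else 0) := by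
      intro z
      by_cases h1 : a = z
      · subst h1
        simp [ha]
      · have h2 : z ≠ a := fun h => h1 h.symm
        by_cases h3 : z ∈ l
        · simp [h1, h3]
        · simp [h1, h2, h3]
    rw [key d, key e]
    ring

private theorem hf_zero (c : List D) : per (fun _ : D => (0 : ℝ)) c = 0 := by
  induction c with
  | nil => rfl
  | cons a l ih => rw [per_cons, ih, add_zero]

private theorem hf_dv {S : Part D} {T : Tri D} (h : S.Le T) {d' : D} (hd' : d' ∈ S.X) {c : D} (hc : c ∉ S.R) :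
    (if c = d' then (1 : ℝ) else 0) + (if T.f c = d' then (1 : ℝ) else 0) +
      (if T.f (T.f c) = d' then (1 : ℝ) else 0) = hfi S T d' c := by
  have hfc : T.f c ∉ S.R := fun h' => hc ((Part.le_f_mem h c).1 h')
  have hffc : T.f (T.f c) ∉ S.R := fun h' => hfc ((Part.le_f_mem h _).1 h')
  unfold hfi
  by_cases hR : d' ∈ S.R
  · have h1 : c ≠ d' := fun h' => hc (h' ▸ hR)
    have h2 : T.f c ≠ d' := fun h' => hfc (h' ▸ hR)
    have h3 : T.f (T.f c) ≠ d' := fun h' => hffc (h' ▸ hR)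
    rw [if_neg h1, if_neg h2, if_neg h3, if_neg]
    · ring
    · rintro (h4 | ⟨h4, h5⟩)
      · exact h4.1 hR
      · exact hc ((S.mem_hw h4).1 h5).1.1
  · have hB : d' ∉ S.B := fun h' => hR h'.1
    have e1 : T.f c = d' ↔ c = T.f (T.f d') := by
      constructor
      · intro h'
        rw [← h', T.fff]
      · intro h'
        rw [h', T.fff]
    have e2 : T.f (T.f c) = d' ↔ c = T.f d' := by
      constructor
      · intro h'
        rw [← h', T.fff]
      · intro h'
        rw [h', T.fff]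
    have n1 : T.f d' ≠ d' := T.fne d'
    have n2 : T.f (T.f d') ≠ T.f d' := T.fne _
    have n3 : T.f (T.f d') ≠ d' := by
      intro h'
      have h4 := T.fff d'
      rw [h'] at h4
      exact n1 h4
    simp only [e1, e2]
    by_cases h1 : c = d'
    · subst h1
      simp [hR, hB, n1.symm, n3.symm]
    · by_cases h2 : c = T.f d'
      · subst h2
        simp [hR, hB, n1, n2.symm]
      · by_cases h3 : c = T.f (T.f d')
        · subst h3
          simp [hR, hB, n2, n3]
        · simp [hR, hB, h1, h2, h3]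

private theorem hf_pr {S : Part D} {T : Tri D} (h : S.Le T) {d' : D} (hd' : d' ∈ S.X) {c : D} (hc : c ∈ S.B) :
    (if d' ∈ S.hw c then (1 : ℝ) else 0) = hfi S T d' c := by
  unfold hfi
  refine if_congr ?_ rfl rfl
  by_cases hR : d' ∈ S.R
  · have hB : d' ∈ S.B := hd'.resolve_left (fun h' => h' hR)
    rw [S.mem_hw hc, S.mem_hw hB]
    constructor
    · rintro ⟨_, h2⟩
      exact Or.inr ⟨hB, hc, h2.symm⟩
    · rintro (h1 | ⟨_, _, h2⟩)
      · exact absurd hR h1.1
      · exact ⟨hB, h2.symm⟩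
  · have hB : d' ∉ S.B := fun h' => hR h'.1
    have hf1 : T.f d' ∉ S.R := fun h' => hR ((Part.le_f_mem h d').1 h')
    have hf2 : T.f (T.f d') ∉ S.R := fun h' => hf1 ((Part.le_f_mem h _).1 h')
    constructor
    · intro h1
      exact absurd ((S.mem_hw hc).1 h1).1 hB
    · rintro (⟨_, h1 | h1 | h1⟩ | ⟨h1, _⟩)
      · exact absurd hc.1 (h1 ▸ hR)
      · exact absurd hc.1 (h1 ▸ hf1)
      · exact absurd hc.1 (h1 ▸ hf2)
      · exact absurd h1 hB

private theorem hf_f {S : Part D} {T : Tri D} (h : S.Le T) {d : D} (hd : d ∉ S.R) (c : D) :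
    hfi S T (T.f d) c = hfi S T d c := by
  have hf1 : T.f d ∉ S.R := fun h' => hd ((Part.le_f_mem h d).1 h')
  have hB : d ∉ S.B := fun h' => hd h'.1
  have hB1 : T.f d ∉ S.B := fun h' => hf1 h'.1
  unfold hfi
  refine if_congr ?_ rfl rfl
  rw [T.fff]
  constructor
  · rintro (⟨_, h1 | h1 | h1⟩ | ⟨h1, _⟩)
    · exact Or.inl ⟨hd, Or.inr (Or.inl h1)⟩
    · exact Or.inl ⟨hd, Or.inr (Or.inr h1)⟩
    · exact Or.inl ⟨hd, Or.inl h1⟩
    · exact absurd h1 hB1
  · rintro (⟨_, h1 | h1 | h1⟩ | ⟨h1, _⟩)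
    · exact Or.inl ⟨hf1, Or.inr (Or.inr h1)⟩
    · exact Or.inl ⟨hf1, Or.inl h1⟩
    · exact Or.inl ⟨hf1, Or.inr (Or.inl h1)⟩
    · exact absurd h1 hB

private theorem hf_n {S : Part D} {T : Tri D} {d : D} (hd : d ∈ S.B) (c : D) :
    hfi S T (S.nx d) c = hfi S T d c := by
  have hn : S.nx d ∈ S.B := (S.nx_mem).2 hd
  have hs : S.s.SameCycle d (S.nx d) := by
    obtain ⟨j, h1, _⟩ := ret_spec S.s hd
    have h2 : S.nx d = (S.s ^ (j + 1)) d := h1
    exact ⟨((j + 1 : ℕ) : ℤ), by rw [zpow_natCast, h2]⟩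
  unfold hfi
  refine if_congr ?_ rfl rfl
  rw [S.mem_hw hn, S.mem_hw hd]
  constructor
  · rintro (⟨h1, _⟩ | ⟨_, h1, h2⟩)
    · exact absurd hn.1 h1
    · exact Or.inr ⟨hd, h1, hs.trans h2⟩
  · rintro (⟨h1, _⟩ | ⟨_, h1, h2⟩)
    · exact absurd hd.1 h1
    · exact Or.inr ⟨hn, h1, hs.symm.trans h2⟩

private def hfP (S : Part D) (T : Tri D) (d e : D) : Prop :=
  S.Hc T d e ∧ ∃ w : D → ℝ, ASy T w ∧ (∀ c, w c ≠ 0 → c ∈ S.X ∧ S.Hc T d c) ∧
    (∀ c, c ∉ S.R → dvg T w c = hfi S T d c - hfi S T e c) ∧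
    ∀ c ∈ S.B, per w (S.hw c) = hfi S T d c - hfi S T e c

private theorem hf_triv {S : Part D} {T : Tri D} {d e : D} (hde : S.Hc T d e)
    (h : ∀ c, hfi S T e c = hfi S T d c) : hfP S T d e := by
  refine ⟨hde, fun _ => 0, fun c => by simp, fun c hc => absurd rfl hc, fun c _ => ?_, fun c _ => ?_⟩
  · rw [h c, sub_self]
    simp [dvg]
  · rw [h c, sub_self]
    exact hf_zero _

theorem hid_flow {S : Part D} {T : Tri D} (h : S.Le T) {d e : D} (hd : d ∈ S.X) (hc : S.Hc T d e) :
    ∃ w : D → ℝ, ASy T w ∧ (∀ c, w c ≠ 0 → c ∈ S.HC T d) ∧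
      (∀ c, c ∉ S.R → dvg T w c = hfi S T d c - hfi S T e c) ∧
      ∀ c ∈ S.B, per w (S.hw c) = hfi S T d c - hfi S T e c := by
  have key : hfP S T d e := by
    refine Part.hc_ind (S := S) (T := T) (hfP S T) ?_ ?_ ?_ ?_ ?_ ?_ hc
    · intro d
      exact hf_triv (Part.hc_refl S T d) fun _ => rfl
    · rintro d e ⟨h1, w, h2, h3, h4, h5⟩
      refine ⟨Part.hc_symm h1, fun c => (-1) * w c, fun c => ?_, fun c hc => ?_, fun c hc => ?_, fun c hc => ?_⟩
      · show (-1) * w (T.a c) = -((-1) * w c)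
        rw [h2 c]
        ring
      · have h6 : w c ≠ 0 := fun h' => hc (by show (-1) * w c = 0; rw [h', mul_zero])
        exact ⟨(h3 c h6).1, Part.hc_trans (Part.hc_symm h1) (h3 c h6).2⟩
      · have h6 := h4 c hc
        unfold dvg at h6 ⊢
        linarith
      · rw [per_smul, h5 c hc]
        ring
    · rintro d e k ⟨h1, w, h2, h3, h4, h5⟩ ⟨h1', w', h2', h3', h4', h5'⟩
      refine ⟨Part.hc_trans h1 h1', fun c => w c + w' c, fun c => ?_, fun c hc => ?_, fun c hc => ?_,
        fun c hc => ?_⟩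
      · show w (T.a c) + w' (T.a c) = -(w c + w' c)
        rw [h2 c, h2' c]
        ring
      · by_cases h6 : w c = 0
        · have h7 : w' c ≠ 0 := fun h' => hc (by show w c + w' c = 0; rw [h6, h', add_zero])
          exact ⟨(h3' c h7).1, Part.hc_trans h1 (h3' c h7).2⟩
        · exact h3 c h6
      · have h6 := h4 c hc
        have h7 := h4' c hc
        unfold dvg at h6 h7 ⊢
        linarith
      · rw [per_add, h5 c hc, h5' c hc]
        ring
    · intro d hd
      have ha : T.a d ∈ S.X := (Part.X_a h d).2 hd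
      refine ⟨Part.hc_a hd, fun c => (if c = d then (1 : ℝ) else 0) - (if c = T.a d then (1 : ℝ) else 0),
        fun c => ?_, fun c hc => ?_, fun c hc => ?_, fun c hc => ?_⟩
      · have e1 : T.a c = d ↔ c = T.a d := by
          constructor
          · intro h'
            rw [← h', T.aa]
          · intro h'
            rw [h', T.aa]
        have e2 : T.a c = T.a d ↔ c = d := T.a.injective.eq_iff
        show (if T.a c = d then (1 : ℝ) else 0) - (if T.a c = T.a d then (1 : ℝ) else 0) =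
          -((if c = d then (1 : ℝ) else 0) - (if c = T.a d then (1 : ℝ) else 0))
        simp only [e1, e2]
        ring
      · by_cases h1 : c = d
        · rw [h1]
          exact ⟨hd, Part.hc_refl S T d⟩
        · by_cases h2 : c = T.a d
          · rw [h2]
            exact ⟨ha, Part.hc_a hd⟩
          · exfalso
            apply hc
            simp only [h1, h2, if_false, sub_zero]
      · rw [← hf_dv h hd hc, ← hf_dv h ha hc]
        unfold dvg
        ring
      · rw [hf_per d (T.a d) _ (S.hw_nodup hc), hf_pr h hd hc, hf_pr h ha hc]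
    · intro d hd
      exact hf_triv (Part.hc_f hd) (hf_f h hd)
    · intro d hd
      exact hf_triv (Part.hc_nx hd) (hf_n hd)
  obtain ⟨_, w, h2, h3, h4, h5⟩ := key
  exact ⟨w, h2, fun c hc => h3 c hc, h4, h5⟩

end SYS
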