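import Pool.Agent.SYS.UT.Col
import Pool.Agent.SYS.Lib.HidB
import Pool.Agent.SYS.Lib.HidC
import Pool.Agent.SYS.Lib.HidD

/-!
# SYS-UT-Inv: the invariant of the two-sided exploration of stage 2

`S0` = region at the end of stage 1 (connected, exactly two holes, those of `x` and `y`, in one hidden component).  `S` = region after
planar peeling steps; the holes of `x` and `y` are its only holes, they are in one hidden component, and both have collars over `S0` with
labels `lab` and total arc length `q`.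

PLAN.
* `tinv_start`: `col_start`, `col_lab` (`S0.per x ≤ S0.R.ncard`: the hole is a subset of `R`: `per = (hole).ncard`), `sub_refl`.
* `tinv_swap`, `tinv_rep` (`col_rep`; `hw` of another dart of the hole has the same elements: `mem_hw`; `hc_hole`), `tinv_lab` (`col_lab`): immediate.
-/

namespace SYS

open Classical SST

variable {D : Type} [Finite D]

/-- The invariant. -/
structure TInv (T : Tri D) (S0 S : Part D) (x y : D) (lab : D → ℕ) (q : ℕ) : Prop where
  le : S.Le T
  sub : S0.Sub S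
  con : S.Con
  hx : x ∈ S.B
  hy : y ∈ S.B
  ne : ¬ S.s.SameCycle x y
  hc : S.Hc T x y
  all : ∀ d ∈ S.B, d ∈ S.hw x ∨ d ∈ S.hw y
  cx : Col T S S0 x lab q
  cy : Col T S S0 y lab q

theorem tinv_start {T : Tri D} {S0 : Part D} (h : S0.Le T) (hS : S0.Con) {x y : D} (hx : x ∈ S0.B) (hy : y ∈ S0.B)
    (hne : ¬ S0.s.SameCycle x y) (hc : S0.Hc T x y) (hall : ∀ d ∈ S0.B, d ∈ S0.hw x ∨ d ∈ S0.hw y) (lab : D → ℕ) :
    TInv T S0 S0 x y lab S0.R.ncard := by
  have hper : ∀ z : D, S0.per z ≤ S0.R.ncard := by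
    intro z
    unfold Part.per
    exact Set.ncard_le_ncard (fun d hd => Part.B_sub_R S0 hd.1) (Set.toFinite _)
  exact ⟨h, Part.sub_refl S0, hS, hx, hy, hne, hc, hall,
    col_lab (col_start h hx lab) (fun _ _ => le_rfl) (hper x),
    col_lab (col_start h hy lab) (fun _ _ => le_rfl) (hper y)⟩

section
variable {T : Tri D} {S0 S : Part D} {x y : D} {lab : D → ℕ} {q : ℕ}

theorem tinv_swap (h : TInv T S0 S x y lab q) : TInv T S0 S y x lab q :=
  ⟨h.le, h.sub, h.con, h.hy, h.hx, fun hs => h.ne hs.symm, Part.hc_symm h.hc,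
    fun d hd => (h.all d hd).symm, h.cy, h.cx⟩

theorem tinv_rep (h : TInv T S0 S x y lab q) {x' : D} (hx' : x' ∈ S.hw x) : TInv T S0 S x' y lab q := by
  obtain ⟨hB, hs⟩ := (Part.mem_hw S h.hx).1 hx'
  refine ⟨h.le, h.sub, h.con, hB, h.hy, fun hs' => h.ne (hs.trans hs'), ?_, ?_, ?_, h.cy⟩
  · exact Part.hc_trans (Part.hc_symm (Part.hc_hole h.hx hx')) h.hc
  · intro d hd
    rcases h.all d hd with hd' | hd'
    · left
      rw [Part.mem_hw S hB]
      exact ⟨hd, hs.symm.trans ((Part.mem_hw S h.hx).1 hd').2⟩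
    · exact Or.inr hd'
  · exact col_rep h.hx hx' h.cx

theorem tinv_lab (h : TInv T S0 S x y lab q) {lab' : D → ℕ} (hl : ∀ e ∈ S.B, lab e ≤ lab' e) :
    TInv T S0 S x y lab' q :=
  ⟨h.le, h.sub, h.con, h.hx, h.hy, h.ne, h.hc, h.all,
    col_lab h.cx (fun e he => hl e ((Part.mem_hw S h.hx).1 he).1) le_rfl,
    col_lab h.cy (fun e he => hl e ((Part.mem_hw S h.hy).1 he).1) le_rfl⟩

end

end SYS
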