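import Pool.Agent.SYS.UT.Inv
import Pool.Agent.SYS.UT.ColG
import Pool.Agent.SYS.Lib.Pla

/-!
# SYS-UT-InvD: the invariant after swallowing a disc

`S.hw x = x :: (u ++ x' :: v)`, `T.a x = x'`, `S₁ = S.glue x x'`, `u = z₁ :: w₁`, `v = z :: w`; the hidden component of `z₁` in `S₁` is a disc and is filled
(right), or the one of `z` is a disc and is filled (left).

Both cases are one private lemma: the word of the filled hole bounds a planar piece, so it is trivial in every flat labelling.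
-/

namespace SYS

open Classical SST

variable {D : Type} [Finite D]

private theorem core_fill {T : Tri D} (hT : T.Conn) {S0 S : Part D} {x y : D} {lab : D → ℕ} {q : ℕ}
    (h : TInv T S0 S x y lab q) {x' : D} (hx' : x' ∈ S.B) (hxx : x ≠ x') {G : Part D}
    (hG : G = S.glue x x' h.hx hx') (hle : G.Le T) {p r : D} {P Q : List D} {a : ℕ}
    (hP : G.hw p = P) (hQ : G.hw r = Q) (hr : r ∈ G.B) (hrQ : r ∈ Q) (hdis : ∀ d ∈ P, d ∉ Q)
    (hmem : ∀ d, d ∈ S.hw x ↔ d = x ∨ d ∈ P ∨ d = x' ∨ d ∈ Q)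
    (hcol : FTriv T P → Col T G S0 r lab q)
    (hsp : ∀ d e, d ∈ G.X → e ∈ G.X → S.Hc T d e →
      G.Hc T d e ∨ (∃ z ∈ P, G.Hc T z d) ∨ ∃ z ∈ P, G.Hc T z e)
    (hd : Part.IsDisc G T p a) : TInv T S0 (G.fill T hle p) r y lab q := by
  have hp : p ∈ G.B := hd.1
  have hB : G.B = S.B \ {x, x'} := by
    rw [hG]
    exact Part.glue_B S h.hx hx' hxx
  have hsub : S.Sub G := by
    rw [hG]
    exact Part.glue_sub S h.hx hx'
  have hcon : G.Con := by
    rw [hG]
    exact Part.con_glue S h.hx hx' h.con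
  have hyx : ¬ y ∈ S.hw x := fun hh => h.ne ((Part.mem_hw S h.hx).1 hh).2
  have hx'w : x' ∈ S.hw x := (hmem x').2 (Or.inr (Or.inr (Or.inl rfl)))
  have hcx' : S.s.SameCycle x x' := ((Part.mem_hw S h.hx).1 hx'w).2
  have hyB : y ∈ G.B := by
    rw [hB]
    refine ⟨h.hy, ?_⟩
    rintro (rfl | hh)
    · exact hyx ((hmem y).2 (Or.inl rfl))
    · rw [Set.mem_singleton_iff] at hh
      subst hh
      exact hyx hx'w
  have hwy : G.hw y = S.hw y := by
    rw [hG]
    exact Part.hw_glue_other S h.hx hx' h.hy h.ne (fun hh => h.ne (hcx'.trans hh))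
  have hrn : r ∉ G.HC T p := by
    intro hh
    have h1 := hd.2.1 r hr hh.2
    rw [hP] at h1
    exact hdis r h1 hrQ
  have hyn : y ∉ G.HC T p := by
    intro hh
    have h1 := hd.2.1 y hyB hh.2
    rw [hP] at h1
    exact hyx ((hmem y).2 (Or.inr (Or.inl h1)))
  have hPH : ∀ d ∈ P, G.Hc T p d := fun d hd' => Part.hc_hole hp (by rw [hP]; exact hd')
  have hXr : r ∈ G.X := Or.inr hr
  have hXy : y ∈ G.X := Or.inr hyB
  have hrB' : r ∈ (G.fill T hle p).B := by
    rw [Part.fill_B]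
    exact ⟨hr, hrn⟩
  have hyB' : y ∈ (G.fill T hle p).B := by
    rw [Part.fill_B]
    exact ⟨hyB, hyn⟩
  have hwr' : (G.fill T hle p).hw r = G.hw r := Part.hw_fill hle p hr hrn
  have hwy' : (G.fill T hle p).hw y = G.hw y := Part.hw_fill hle p hyB hyn
  have hPn : ∀ d ∈ P, d ∉ (G.fill T hle p).B := by
    intro d hd' hh
    rw [Part.fill_B] at hh
    exact hh.2 ⟨Or.inr hh.1, hPH d hd'⟩
  have hrw : r ∈ S.hw x := (hmem r).2 (Or.inr (Or.inr (Or.inr hrQ)))
  have hc1 : G.Hc T r y := by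
    have h1 : S.Hc T r y := Part.hc_trans (Part.hc_symm (Part.hc_hole h.hx hrw)) h.hc
    rcases hsp r y hXr hXy h1 with h2 | ⟨z, hz, hz'⟩ | ⟨z, hz, hz'⟩
    · exact h2
    · exact absurd ⟨hXr, Part.hc_trans (hPH z hz) hz'⟩ hrn
    · exact absurd ⟨hXy, Part.hc_trans (hPH z hz) hz'⟩ hyn
  refine ⟨Part.fill_le hle p, Part.sub_trans h.sub (Part.sub_trans hsub (Part.sub_fill hle p)),
    Part.con_fill hle hT hcon ⟨r, Part.B_sub_R _ hr⟩ p, hrB', hyB', ?_, ?_, ?_, ?_, ?_⟩
  · intro hh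
    have h1 : y ∈ (G.fill T hle p).hw r := (Part.mem_hw _ hrB').2 ⟨hyB', hh⟩
    rw [hwr', hQ] at h1
    exact hyx ((hmem y).2 (Or.inr (Or.inr (Or.inr h1))))
  · refine (Part.hc_fill hle p ?_ ?_).2 hc1
    · rw [Part.X_fill]
      exact ⟨hXr, hrn⟩
    · rw [Part.X_fill]
      exact ⟨hXy, hyn⟩
  · intro d hd'
    rw [Part.fill_B, hB] at hd'
    rcases h.all d hd'.1.1 with h1 | h1
    · rcases (hmem d).1 h1 with h2 | h2 | h2 | h2
      · exact absurd (Or.inl h2) hd'.1.2
      · exact absurd ⟨Or.inr (by rw [hB]; exact hd'.1), hPH d h2⟩ hd'.2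
      · exact absurd (Or.inr h2) hd'.1.2
      · left
        rw [hwr', hQ]
        exact h2
    · right
      rw [hwy', hwy]
      exact h1
  · refine col_other (Part.sub_fill hle p) hr hrB' hwr' (hcol ?_)
    have h1 : DW T (G.hw p) := Part.planar_word hcon (Part.sub_fill hle p) (Part.fill_le hle p)
      (by rw [Part.fill_B]; exact Set.sdiff_subset) (hd.2.2.2 hle) hp (by rw [hP]; exact hPn)
    rw [hP] at h1
    exact h1.ftriv
  · exact col_other (Part.sub_fill hle p) hyB hyB' hwy' (col_other hsub h.hy hyB hwy h.cy)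


theorem tinv_disc_r {T : Tri D} (hT : T.Conn) {S0 S : Part D} {x y : D} {lab : D → ℕ} {q : ℕ}
    (h : TInv T S0 S x y lab q) {x' : D} (hx' : x' ∈ S.B) (ha : T.a x = x') {z₁ z : D} {w₁ w : List D}
    (hw : S.hw x = x :: ((z₁ :: w₁) ++ x' :: z :: w)) (hle : (S.glue x x' h.hx hx').Le T) {a : ℕ}
    (hd : Part.IsDisc (S.glue x x' h.hx hx') T z₁ a) :
    TInv T S0 ((S.glue x x' h.hx hx').fill T hle z₁) z y lab q := by
  have hxx : x ≠ x' := by
    intro hh
    have h1 := Part.hw_nodup S h.hx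
    rw [hw, List.nodup_cons] at h1
    exact h1.1 (by rw [hh]; simp)
  have hnd := Part.hw_nodup S h.hx
  rw [hw] at hnd
  have hnd' := (List.nodup_cons.1 hnd)
  have happ := List.nodup_append.1 hnd'.2
  have hr : z ∈ (S.glue x x' h.hx hx').B := by
    rw [Part.glue_B S h.hx hx' hxx]
    have h1 : z ∈ S.hw x := by
      rw [hw]
      simp
    refine ⟨((Part.mem_hw S h.hx).1 h1).1, ?_⟩
    rintro (hh | hh)
    · exact hnd'.1 (by rw [← hh]; simp)
    · rw [Set.mem_singleton_iff] at hh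
      have h2 := (List.nodup_cons.1 happ.2.1).1
      exact h2 (by rw [← hh]; simp)
  refine core_fill (P := z₁ :: w₁) (Q := z :: w) hT h hx' hxx rfl hle
    (Part.hw_glue_split_left S h.hx hx' hw rfl) (Part.hw_glue_split_right S h.hx hx' hw rfl) hr (by simp) ?_ ?_
    (fun hu => col_glue_r h.le h.hx hx' ha hw hu h.cx) ?_ hd
  · intro d hd1 hd2
    exact happ.2.2 d hd1 d (List.mem_cons_of_mem _ hd2) rfl
  · intro d
    rw [hw]
    simp only [List.mem_cons, List.mem_append]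
  · intro d e hd1 he1 h1
    rcases (Part.hc_glue_split h.le h.hx hx' ha hw hd1 he1).1 h1 with h2 | h2 | h2
    · exact Or.inl h2
    · exact Or.inr (Or.inl h2.1)
    · exact Or.inr (Or.inr h2.2)

theorem tinv_disc_l {T : Tri D} (hT : T.Conn) {S0 S : Part D} {x y : D} {lab : D → ℕ} {q : ℕ}
    (h : TInv T S0 S x y lab q) {x' : D} (hx' : x' ∈ S.B) (ha : T.a x = x') {z₁ z : D} {w₁ w : List D}
    (hw : S.hw x = x :: ((z₁ :: w₁) ++ x' :: z :: w)) (hle : (S.glue x x' h.hx hx').Le T) {a : ℕ}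
    (hd : Part.IsDisc (S.glue x x' h.hx hx') T z a) :
    TInv T S0 ((S.glue x x' h.hx hx').fill T hle z) z₁ y lab q := by
  have hxx : x ≠ x' := by
    intro hh
    have h1 := Part.hw_nodup S h.hx
    rw [hw, List.nodup_cons] at h1
    exact h1.1 (by rw [hh]; simp)
  have hnd := Part.hw_nodup S h.hx
  rw [hw] at hnd
  have hnd' := (List.nodup_cons.1 hnd)
  have happ := List.nodup_append.1 hnd'.2
  have hr : z₁ ∈ (S.glue x x' h.hx hx').B := by
    rw [Part.glue_B S h.hx hx' hxx]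
    have h1 : z₁ ∈ S.hw x := by
      rw [hw]
      simp
    refine ⟨((Part.mem_hw S h.hx).1 h1).1, ?_⟩
    rintro (hh | hh)
    · exact hnd'.1 (by rw [← hh]; simp)
    · rw [Set.mem_singleton_iff] at hh
      exact happ.2.2 z₁ (by simp) x' (by simp) hh
  refine core_fill (P := z :: w) (Q := z₁ :: w₁) hT h hx' hxx rfl hle
    (Part.hw_glue_split_right S h.hx hx' hw rfl) (Part.hw_glue_split_left S h.hx hx' hw rfl) hr (by simp) ?_ ?_
    (fun hu => col_glue_l h.le h.hx hx' ha hw hu h.cx) ?_ hd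
  · intro d hd1 hd2
    exact happ.2.2 d hd2 d (List.mem_cons_of_mem _ hd1) rfl
  · intro d
    rw [hw]
    simp only [List.mem_cons, List.mem_append]
    tauto
  · intro d e hd1 he1 h1
    rcases (Part.hc_glue_split h.le h.hx hx' ha hw hd1 he1).1 h1 with h2 | h2 | h2
    · exact Or.inl h2
    · exact Or.inr (Or.inr h2.2)
    · exact Or.inr (Or.inl h2.1)

end SYS
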