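import Pool.Agent.SYS.UT.Inv
import Pool.Agent.SYS.UT.ColF

/-!
# SYS-UT-InvF: the invariant after a new face

PLAN.  `S' = S.face x t0 t1 t2`.  `le`: `face_le` (or the name in `Lib/Part.lean`), `sub`: `sub_trans`, `con`: `con_face`, `hx`: `t1 ∈ S'.B` (`face_B`), `hy`: `y ≠ x`
(`ne`, `SameCycle.refl`), so `y ∈ S'.B`.  `S'.hw t1 = t1 :: t2 :: u` (`hw_face`, `S.hw x = x :: u`), `S'.hw y = S.hw y` (`hw_face_other`).
`ne`: `y ∉ S'.hw t1`: `mem_hw` (`y ≠ t1, t2` because `y ∈ R`; `y ∉ u ⊆ S.hw x`).  `hc`: `hc_face`: `S'.Hc T t1 y ↔ S.Hc T t1 y`; `S.Hc T t1 t0` (`hc_f`, `T.f (T.f t1) = t0`),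
`S.Hc T t0 x` (`hc_a`, `X_a`), `S.Hc T x y`.  `all`: `face_B`: `d ∈ S.B \ {x}` or `d ∈ {t1, t2}`.  `cx`: `col_face`; `cy`: `col_other`, and the labels: `col_lab` with
`hl` (the elements of `S.hw y` are `≠ x`).
-/

namespace SYS

open Classical SST

variable {D : Type} [Finite D]

theorem tinv_face {T : Tri D} {S0 S S' : Part D} {x y : D} {lab lab' : D → ℕ} {q : ℕ} (h : TInv T S0 S x y lab q)
    (hx : x ∈ S.B) (h0 : T.a x ∉ S.R) (h1 : T.f (T.a x) ∉ S.R) (h2 : T.f (T.f (T.a x)) ∉ S.R)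
    (hS' : S' = S.face x (T.a x) (T.f (T.a x)) (T.f (T.f (T.a x))) hx h0 h1 h2 (Part.tri_ne T _).1 (Part.tri_ne T _).2.1
        (Part.tri_ne T _).2.2)
    (hl1 : lab x ≤ lab' (T.f (T.a x))) (hl2 : lab (S.nx x) + 1 ≤ lab' (T.f (T.f (T.a x))))
    (hl : ∀ e ∈ S.B, e ≠ x → lab e ≤ lab' e) : TInv T S0 S' (T.f (T.a x)) y lab' q := by
  obtain ⟨u, hu⟩ := S.hw_cons hx
  have hsub : S.Sub S' := by
    rw [hS']
    exact Part.face_sub S hx h0 h1 h2 _ _ _
  have hB : S'.B = (S.B \ {x}) ∪ {T.f (T.a x), T.f (T.f (T.a x))} := by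
    rw [hS']
    exact Part.face_B S hx h0 h1 h2 _ _ _
  have hw1 : S'.hw (T.f (T.a x)) = T.f (T.a x) :: T.f (T.f (T.a x)) :: u := by
    rw [hS']
    exact Part.hw_face S hx h0 h1 h2 _ _ _ hu
  have hwy : S'.hw y = S.hw y := by
    rw [hS']
    exact Part.hw_face_other S hx h0 h1 h2 _ _ _ h.hy h.ne
  have hyx : y ≠ x := by
    rintro rfl
    exact h.ne (Equiv.Perm.SameCycle.refl _ _)
  have hyR : y ∈ S.R := S.B_sub_R h.hy
  have ht1 : T.f (T.a x) ∈ S'.B := by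
    rw [hB]
    exact Or.inr (Or.inl rfl)
  have hyB : y ∈ S'.B := by
    rw [hB]
    exact Or.inl ⟨h.hy, hyx⟩
  refine ⟨?_, Part.sub_trans h.sub hsub, ?_, ht1, hyB, ?_, ?_, ?_, ?_, ?_⟩
  · rw [hS']
    exact Part.face_le S h.le hx h0 h1 h2 _ _ _
  · rw [hS']
    exact Part.con_face S hx h0 h1 h2 _ _ _ h.con
  · intro hc
    have h3 : y ∈ S'.hw (T.f (T.a x)) := (Part.mem_hw S' ht1).2 ⟨hyB, hc⟩
    rw [hw1, List.mem_cons, List.mem_cons] at h3
    rcases h3 with h3 | h3 | h3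
    · exact h1 (h3 ▸ hyR)
    · exact h2 (h3 ▸ hyR)
    · have h4 : y ∈ S.hw x := by
        rw [hu]
        exact List.mem_cons_of_mem _ h3
      exact h.ne ((Part.mem_hw S hx).1 h4).2
  · refine (Part.hc_face h.le hx h0 h1 h2 hS' (Or.inr ht1) (Or.inr hyB)).2 ?_
    have e1 : S.Hc T (T.f (T.a x)) (T.f (T.f (T.a x))) := Part.hc_f h1
    have e2 : S.Hc T (T.f (T.f (T.a x))) (T.a x) := by
      have e3 := Part.hc_f (S := S) (T := T) h2
      rw [T.fff] at e3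
      exact e3
    have e4 : S.Hc T (T.a x) x := Part.hc_symm (Part.hc_a (Or.inr hx))
    exact Part.hc_trans (Part.hc_trans (Part.hc_trans e1 e2) e4) h.hc
  · intro d hd
    rw [hB] at hd
    rcases hd with ⟨hd, hdx⟩ | hd | hd
    · rcases h.all d hd with h3 | h3
      · left
        rw [hu, List.mem_cons] at h3
        rw [hw1]
        rcases h3 with h3 | h3
        · exact absurd h3 hdx
        · exact List.mem_cons_of_mem _ (List.mem_cons_of_mem _ h3)
      · right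
        rw [hwy]
        exact h3
    · left
      rw [hw1, hd]
      exact List.mem_cons_self
    · left
      rw [Set.mem_singleton_iff] at hd
      rw [hw1, hd]
      exact List.mem_cons_of_mem _ List.mem_cons_self
  · exact col_face h.le hx h0 h1 h2 hS' h.cx hl1 hl2
      fun e he hne => hl e ((Part.mem_hw S hx).1 he).1 hne
  · refine col_other hsub h.hy hyB hwy (col_lab h.cy (fun e he => ?_) le_rfl)
    have h3 := (Part.mem_hw S h.hy).1 he
    refine hl e h3.1 ?_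
    rintro rfl
    exact h.ne h3.2.symm

end SYS
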