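import Pool.Agent.SYS.UT.Inv
import Pool.Agent.SYS.UT.ColG

/-! # SYS-UT-InvG: the invariant after gluing two consecutive darts of the hole -/

namespace SYS

open Classical SST

variable {D : Type} [Finite D]

private theorem ig_core {T : Tri D} {S0 S : Part D} {x y : D} {lab : D → ℕ} {q : ℕ} (h : TInv T S0 S x y lab q)
    {x' : D} (hx' : x' ∈ S.B) (ha : T.a x = x') {z : D} {w u v : List D} (hw : S.hw x = x :: (u ++ x' :: v))
    (huv : (u = [] ∧ v = z :: w) ∨ (u = z :: w ∧ v = [])) (hwz : (S.glue x x' h.hx hx').hw z = z :: w)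
    (hcx : Col T (S.glue x x' h.hx hx') S0 z lab q) : TInv T S0 (S.glue x x' h.hx hx') z y lab q := by
  have hn := S.hw_nodup h.hx
  have hxx : x ≠ x' := fun h1 => T.ane x (by rw [ha, ← h1])
  have hm : ∀ d ∈ z :: w, d ∈ S.hw x := by
    intro d hd
    rw [hw]
    rcases huv with ⟨h1, h2⟩ | ⟨h1, h2⟩
    · rw [h1, h2]
      exact List.mem_cons_of_mem _ (List.mem_cons_of_mem _ hd)
    · rw [h1, h2]
      exact List.mem_cons_of_mem _ (List.mem_append_left _ hd)
  have hx'm : x' ∈ S.hw x := by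
    rw [hw]
    exact List.mem_cons_of_mem _ (List.mem_append_right _ List.mem_cons_self)
  have hcyc : S.s.SameCycle x x' := ((S.mem_hw h.hx).1 hx'm).2
  have hne : ∀ d ∈ z :: w, d ≠ x ∧ d ≠ x' := by
    intro d hd
    rw [hw] at hn
    have hn1 := List.nodup_cons.mp hn
    have hn2 := List.nodup_append.mp hn1.2
    have hn3 := List.nodup_cons.mp hn2.2.1
    rcases huv with ⟨h1, h2⟩ | ⟨h1, h2⟩
    · rw [h1, h2] at hn1
      rw [h2] at hn3
      refine ⟨fun h3 => ?_, fun h3 => ?_⟩
      · rw [h3] at hd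
        exact hn1.1 (List.mem_cons_of_mem _ hd)
      · rw [h3] at hd
        exact hn3.1 hd
    · refine ⟨fun h3 => ?_, fun h3 => ?_⟩
      · rw [h3, ← h1] at hd
        exact hn1.1 (List.mem_append_left _ hd)
      · rw [h3, ← h1] at hd
        exact hn2.2.2 x' hd x' List.mem_cons_self rfl
  have hzm : z ∈ z :: w := List.mem_cons_self
  have hzB : z ∈ S.B := ((S.mem_hw h.hx).1 (hm z hzm)).1
  have hzB' : z ∈ (S.glue x x' h.hx hx').B := by
    rw [Part.glue_B S h.hx hx' hxx]
    exact ⟨hzB, fun h1 => h1.elim (hne z hzm).1 (hne z hzm).2⟩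
  have hyx : y ≠ x := fun h1 => h.ne (by rw [h1])
  have hyx' : y ≠ x' := fun h1 => h.ne (by rw [h1]; exact hcyc)
  have hyB' : y ∈ (S.glue x x' h.hx hx').B := by
    rw [Part.glue_B S h.hx hx' hxx]
    exact ⟨h.hy, fun h1 => h1.elim hyx hyx'⟩
  have hwy : (S.glue x x' h.hx hx').hw y = S.hw y :=
    Part.hw_glue_other S h.hx hx' h.hy h.ne fun h1 => h.ne (hcyc.trans h1)
  refine ⟨Part.glue_le S h.hx hx' h.le ha, Part.sub_trans h.sub (Part.glue_sub S h.hx hx'), Part.con_glue S h.hx hx' h.con, hzB', hyB',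
    ?_, ?_, ?_, hcx, col_other (Part.glue_sub S h.hx hx') h.hy hyB' hwy h.cy⟩
  · intro h1
    have h2 : y ∈ (S.glue x x' h.hx hx').hw z := ((S.glue x x' h.hx hx').mem_hw hzB').2 ⟨hyB', h1⟩
    rw [hwz] at h2
    exact h.ne ((S.mem_hw h.hx).1 (hm y h2)).2
  · have h1 : S.Hc T z y := Part.hc_trans (Part.hc_symm (Part.hc_hole h.hx (hm z hzm))) h.hc
    rcases (Part.hc_glue_split h.le h.hx hx' ha hw (Or.inr hzB') (Or.inr hyB')).1 h1 with h2 | ⟨⟨a, h2, _⟩, b, h3, _⟩ |
      ⟨⟨a, h2, _⟩, b, h3, _⟩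
    · exact h2
    · rcases huv with ⟨h4, h5⟩ | ⟨h4, h5⟩
      · rw [h4] at h2
        exact absurd h2 List.not_mem_nil
      · rw [h5] at h3
        exact absurd h3 List.not_mem_nil
    · rcases huv with ⟨h4, h5⟩ | ⟨h4, h5⟩
      · rw [h4] at h3
        exact absurd h3 List.not_mem_nil
      · rw [h5] at h2
        exact absurd h2 List.not_mem_nil
  · intro d hd
    rw [Part.glue_B S h.hx hx' hxx] at hd
    rw [hwz, hwy]
    rcases h.all d hd.1 with h1 | h1
    · left
      rw [hw] at h1
      rcases List.mem_cons.1 h1 with h2 | h2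
      · exact absurd (Or.inl h2) hd.2
      · rcases List.mem_append.1 h2 with h3 | h3
        · rcases huv with ⟨h4, h5⟩ | ⟨h4, h5⟩
          · rw [h4] at h3
            exact absurd h3 List.not_mem_nil
          · rw [← h4]
            exact h3
        · rcases List.mem_cons.1 h3 with h6 | h6
          · exact absurd (Or.inr h6) hd.2
          · rcases huv with ⟨h4, h5⟩ | ⟨h4, h5⟩
            · rw [← h5]
              exact h6
            · rw [h5] at h6
              exact absurd h6 List.not_mem_nil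
    · exact Or.inr h1

/-- The hole cannot be closed completely. -/
theorem tinv_no_close {T : Tri D} {S0 S : Part D} {x y : D} {lab : D → ℕ} {q : ℕ} (h : TInv T S0 S x y lab q)
    {x' : D} (ha : T.a x = x') (hw : S.hw x = [x, x']) : False := by
  have hx'm : x' ∈ S.hw x := by
    rw [hw]
    exact List.mem_cons_of_mem _ List.mem_cons_self
  have hx'B := ((S.mem_hw h.hx).1 hx'm).1
  have hcyc : S.s.SameCycle x x' := ((S.mem_hw h.hx).1 hx'm).2
  have n1 : S.nx x = x' := nx_append h.hx (u := []) (v := []) (by rw [hw]; rfl)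
  have n2 : S.nx x' = x := nx_last h.hx (u := [x]) (by rw [hw]; rfl)
  have ha' : T.a x' = x := by rw [← ha, T.aa]
  have h1 : (x = x ∨ x = x') ↔ (y = x ∨ y = x') := by
    refine Part.hc_ind (S := S) (T := T) (fun d e => (d = x ∨ d = x') ↔ (e = x ∨ e = x')) (fun _ => Iff.rfl)
      (fun _ _ h => h.symm) (fun _ _ _ h1 h2 => h1.trans h2) ?_ ?_ ?_ h.hc
    · intro d _
      constructor
      · rintro (rfl | rfl)
        · exact Or.inr ha
        · exact Or.inl ha'
      · rintro (h2 | h2)
        · right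
          rw [← T.aa d, h2, ha]
        · left
          rw [← T.aa d, h2, ha']
    · intro d hd
      have hd' : T.f d ∉ S.R := fun h' => hd ((Part.le_f_mem h.le d).1 h')
      constructor
      · rintro (h2 | h2)
        · exact absurd h.hx.1 (by rw [h2] at hd; exact hd)
        · exact absurd hx'B.1 (by rw [h2] at hd; exact hd)
      · rintro (h2 | h2)
        · exact absurd h.hx.1 (by rw [h2] at hd'; exact hd')
        · exact absurd hx'B.1 (by rw [h2] at hd'; exact hd')
    · intro d _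
      constructor
      · rintro (h2 | h2)
        · right
          rw [h2, n1]
        · left
          rw [h2, n2]
      · rintro (h2 | h2)
        · right
          exact S.nx.injective (h2.trans n2.symm)
        · left
          exact S.nx.injective (h2.trans n1.symm)
  rcases h1.1 (Or.inl rfl) with h2 | h2
  · exact h.ne (by rw [h2])
  · exact h.ne (by rw [h2]; exact hcyc)

theorem tinv_glue_r {T : Tri D} {S0 S : Part D} {x y : D} {lab : D → ℕ} {q : ℕ} (h : TInv T S0 S x y lab q)
    {x' : D} (hx' : x' ∈ S.B) (ha : T.a x = x') {z : D} {w : List D} (hw : S.hw x = x :: x' :: z :: w) :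
    TInv T S0 (S.glue x x' h.hx hx') z y lab q := by
  have hw' : S.hw x = x :: ([] ++ x' :: (z :: w)) := by
    rw [hw]
    rfl
  exact ig_core h hx' ha hw' (Or.inl ⟨rfl, rfl⟩) (Part.hw_glue_split_right S h.hx hx' hw' rfl)
    (col_glue_r h.le h.hx hx' ha hw' (FTriv.nil T) h.cx)

theorem tinv_glue_l {T : Tri D} {S0 S : Part D} {x y : D} {lab : D → ℕ} {q : ℕ} (h : TInv T S0 S x y lab q)
    {x' : D} (hx' : x' ∈ S.B) (ha : T.a x = x') {z : D} {w : List D} (hw : S.hw x = x :: ((z :: w) ++ [x'])) :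
    TInv T S0 (S.glue x x' h.hx hx') z y lab q := by
  exact ig_core h hx' ha hw (Or.inr ⟨rfl, rfl⟩) (Part.hw_glue_split_left S h.hx hx' hw rfl)
    (col_glue_l h.le h.hx hx' ha hw (FTriv.nil T) h.cx)

end SYS
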