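import Pool.Agent.SYS.UT.Main
import Pool.Agent.SYS.GR.LSt
import Pool.Agent.SYS.Lib.Alt

/-!
# SYS-UT-LInv: the layer rule and the invariant of stage 2: one planar step
-/

namespace SYS

open Classical SST

variable {D : Type} [Finite D]

/-- The labels of the hole of the gate `x` are bounded by the state of the layer rule: read from the successor of the
gate, `l.al` labels at most `l.r`, the others at most `l.r + 1`. -/
structure LInv (S : Part D) (x : D) (l : GR.LS) (lab : D → ℕ) : Prop where
  al : 1 ≤ l.al
  p : S.per x = l.p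
  le : ∀ (i : ℕ) (e : D), (S.hw (S.nx x))[i]? = some e → lab e ≤ l.r + if i < l.al then 0 else 1

/-- The new gate after the step: `nx z` after `T`, the dart before `z` after `L`, `R`. -/
noncomputable def gat (S' : Part D) : Stp → D → D
  | .T, z => S'.nx z
  | .L _ _, z => (S'.nx ^ (S'.per z - 1)) z
  | .R _ _, z => (S'.nx ^ (S'.per z - 1)) z

theorem hw_nx {S : Part D} {x : D} (hx : x ∈ S.B) {u : List D} (h : S.hw x = x :: u) :
    S.hw (S.nx x) = u ++ [x] := by
  cases u with
  | nil =>
    have h1 : S.nx x = x := nx_last hx (u := []) h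
    rw [h1, h]
    rfl
  | cons y u =>
    have h1 : S.nx x = y := nx_append hx (u := []) (v := u) h
    rw [h1]
    exact S.hw_rot hx (u := [x]) (v := u) h

theorem nx_pow_pred {S : Part D} {z : D} (hz : z ∈ S.B) :
    S.nx ((S.nx ^ (S.per z - 1)) z) = z ∧ (S.nx ^ (S.per z - 1)) z ∈ S.hw z := by
  obtain ⟨k, hk⟩ : ∃ k, S.per z = k + 1 := ⟨S.per z - 1, by have := S.per_pos hz; omega⟩
  have h1 : S.hw z = ((List.range k).map fun i => (S.nx ^ i) z) ++ [(S.nx ^ k) z] := by
    unfold Part.hw
    rw [hk, List.range_succ, List.map_append]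
    rfl
  have h2 : S.per z - 1 = k := by omega
  rw [h2]
  refine ⟨nx_last hz h1, ?_⟩
  rw [h1]
  simp

/-- The labels after an `L` or `R` step. -/
theorem linv_pred {S' : Part D} {z : D} (hz : z ∈ S'.B) {l : GR.LS} {lab : D → ℕ} (hal : 1 ≤ l.al)
    (hp : (S'.hw z).length = l.p)
    (hle : ∀ (i : ℕ) (e : D), (S'.hw z)[i]? = some e → lab e ≤ l.r + if i < l.al then 0 else 1) :
    LInv S' ((S'.nx ^ (S'.per z - 1)) z) l lab := by
  obtain ⟨h1, h2⟩ := nx_pow_pred hz
  refine ⟨hal, ?_, ?_⟩
  · have h3 := (S'.mem_hw hz).1 h2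
    rw [← hp, S'.hw_length hz]
    exact (Part.per_same S' h3.2).symm
  · rw [h1]
    exact hle

theorem ne_of_word {S : Part D} {x y : D} (hx : x ∈ S.B) {u v : List D} (hw : S.hw x = x :: (u ++ y :: v)) : x ≠ y := by
  have h := S.hw_nodup hx
  rw [hw, List.nodup_cons] at h
  intro h1
  apply h.1
  rw [← h1]
  simp

omit [Finite D] in
theorem gl_ax {T : Tri D} {S S' : Part D} {x y : D} (hx : x ∈ S.B) (hy : y ∈ S.B) (h : (S.glue x y hx hy).Sub S')
    (hL : S'.Le T) (hxy : x ≠ y) : T.a x = y := by
  have h1 : (S.glue x y hx hy).a x = y := by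
    show (S.a * Equiv.swap x y) x = y
    rw [Equiv.Perm.mul_apply, Equiv.swap_apply_left]
    exact hy.2
  have h2 := (Part.sub_le h hL).2 x (by rw [h1]; exact hxy.symm)
  rw [h2, h1]

theorem mem_glue_B {S : Part D} {x y : D} (hx : x ∈ S.B) (hy : y ∈ S.B) {u v : List D} (hw : S.hw x = x :: (u ++ y :: v))
    {d : D} (hd : d ∈ u ∨ d ∈ v) : d ∈ (S.glue x y hx hy).B := by
  have hn := S.hw_nodup hx
  rw [hw, List.nodup_cons] at hn
  have hn2 := List.nodup_append.1 hn.2
  have hn3 := List.nodup_cons.1 hn2.2.1
  rw [S.glue_B hx hy (ne_of_word hx hw)]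
  refine ⟨?_, ?_⟩
  · have h1 : d ∈ S.hw x := by
      rw [hw]
      rcases hd with h1 | h1
      · simp [h1]
      · simp [h1]
    exact ((S.mem_hw hx).1 h1).1
  · rintro (h1 | h1)
    · apply hn.1
      rw [← h1]
      rcases hd with h2 | h2
      · simp [h2]
      · simp [h2]
    · rcases hd with h2 | h2
      · exact hn2.2.2 d h2 y (List.mem_cons_self ..) h1
      · exact hn3.1 (h1 ▸ h2)

theorem hun_hw {S : Part D} {x : D} (hx : x ∈ S.B) : S.HUn {d | d ∈ S.hw x} := by
  refine ⟨fun d hd => ((S.mem_hw hx).1 hd).1, fun d hd e he hde => ?_⟩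
  exact (S.mem_hw hx).2 ⟨he, ((S.mem_hw hx).1 hd).2.trans hde⟩

/-- One planar step. -/
theorem tinv_st {T : Tri D} (hT : T.Conn) {S0 S S' : Part D} {x y z : D} {lab : D → ℕ} {q : ℕ} {l : GR.LS} {s : Stp}
    (h : TInv T S0 S x y lab q) (hl : LInv S x l lab) (hs : S.St x s S' z) (hL : S'.Le T) :
    s.Ok l.p ∧ ∃ lab' : D → ℕ, TInv T S0 S' (gat S' s z) y lab' q ∧ LInv S' (gat S' s z) (l.step s) lab' ∧
      (∀ d ∈ S.hw y, lab' d = lab d) ∧ S'.hw y = S.hw y := by
  have hother := Part.st_other hs h.hy h.ne
  have hlen := S.hw_length h.hx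
  have hp := hl.p
  cases s with
  | T =>
    refine ⟨trivial, ?_⟩
    obtain ⟨t0, t1, t2, hx, h0, h1, h2, h01, h12, h20, hS', hz⟩ := hs
    subst hz
    obtain ⟨u, hu⟩ := S.hw_cons hx
    have hw' := Part.hw_face S hx h0 h1 h2 h01 h12 h20 hu
    rw [← hS'] at hw'
    -- the triangle is the one of `T`
    have hxR : x ∈ S.R := S.B_sub_R hx
    have hne : ∀ {d e : D}, d ∈ S.R → e ∉ S.R → d ≠ e := fun hd he hde => he (hde ▸ hd)
    have e3 : S'.a x = t0 := by
      rw [hS']
      show (S.a * Equiv.swap x t0) x = t0
      rw [Equiv.Perm.mul_apply, Equiv.swap_apply_left]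
      exact S.af t0 (not_not.1 h0)
    have hzB : z ∈ S'.B := by
      rw [hS', Part.face_B]
      exact Or.inr (Or.inl rfl)
    have e0 : t0 = T.a x := by
      rw [← e3]
      refine (hL.2 x ?_).symm
      rw [e3]
      exact (hne hxR h0).symm
    have e4 : S'.f t0 = z := by
      have h3 := Part.face_s_x S hx h0 h1 h2 h01 h12 h20
      rw [← hS', Part.s_apply, e3] at h3
      exact h3
    have e1 : z = T.f t0 := by
      rw [← e4]
      refine (hL.1 t0 ?_).symm
      rw [e4]
      exact h01.symm
    have e5 : S'.f z = t2 := by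
      have h3 := Part.face_s_t1 S hx h0 h1 h2 h01 h12 h20
      rw [← hS', Part.s_apply, hzB.2] at h3
      exact h3
    have e2 : t2 = T.f z := by
      rw [← e5]
      refine (hL.1 z ?_).symm
      rw [e5]
      exact h12.symm
    have hnx : S'.nx z = t2 := nx_append hzB (u := []) (v := u) hw'
    have hB : ∀ e ∈ S.B, e ≠ z ∧ e ≠ t2 := fun e he => ⟨hne (S.B_sub_R he) h1, hne (S.B_sub_R he) h2⟩
    have hwx : S.hw (S.nx x) = u ++ [x] := hw_nx hx hu
    set lab' : D → ℕ := fun d => if d = z then lab x else if d = t2 then lab (S.nx x) + 1 else lab d with hlab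
    have l1 : lab' z = lab x := by simp [hlab]
    have l2 : lab' t2 = lab (S.nx x) + 1 := by simp [hlab, h12.symm]
    have l3 : ∀ e ∈ S.B, lab' e = lab e := by
      intro e he
      obtain ⟨g1, g2⟩ := hB e he
      simp [hlab, g1, g2]
    have hmem : ∀ e, e ∈ S.hw y → e ∈ S.B := fun e he => ((S.mem_hw h.hy).1 he).1
    refine ⟨lab', ?_, ?_, fun d hd => l3 d (hmem d hd), hother.2.1⟩
    · show TInv T S0 S' (S'.nx z) y lab' q
      have k1 : TInv T S0 S' z y lab' q := by
        subst e0
        subst e1
        subst e2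
        exact tinv_face h hx h0 h1 h2 hS' (by rw [l1]) (by rw [l2]) (fun e he _ => (l3 e he).ge)
      refine tinv_rep k1 ?_
      rw [hnx, hw']
      simp
    · show LInv S' (S'.nx z) (l.step .T) lab'
      have hzw : S'.hw t2 = (t2 :: u) ++ [z] := by
        have h9 := hw_nx hzB hw'
        rwa [hnx] at h9
      have ht2B : t2 ∈ S'.B := by
        have h9 := S'.nx_mem.2 hzB
        rwa [hnx] at h9
      have hzw2 : S'.hw (S'.nx t2) = (u ++ [z]) ++ [t2] := hw_nx ht2B (by rw [hzw]; rfl)
      have hup : u.length + 1 = l.p := by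
        rw [← hp, ← hlen, hu]
        rfl
      rw [hnx]
      refine ⟨hl.al, ?_, ?_⟩
      · rw [← S'.hw_length ht2B, hzw]
        show ((t2 :: u) ++ [z]).length = l.al + (l.be + 1)
        have : l.p = l.al + l.be := rfl
        simp only [List.cons_append, List.length_cons, List.length_append, List.length_nil]
        omega
      · intro i e hi
        show lab' e ≤ l.r + if i < l.al then 0 else 1
        rw [hzw2, List.append_assoc] at hi
        have hi0 := hl.le i e
        rw [hwx] at hi0
        have hlt : i < u.length + 2 := by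
          have := (List.getElem?_eq_some_iff.1 hi).1
          simpa using this
        rcases lt_or_ge i u.length with c1 | c1
        · rw [List.getElem?_append_left c1] at hi
          rw [List.getElem?_append_left c1] at hi0
          have he : e ∈ S.B := by
            have : e ∈ S.hw x := by
              rw [hu]
              exact List.mem_cons_of_mem _ (List.mem_of_getElem? hi)
            exact ((S.mem_hw hx).1 this).1
          rw [l3 e he]
          exact hi0 hi
        · rw [List.getElem?_append_right c1] at hi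
          rcases Nat.lt_or_ge i (u.length + 1) with c2 | c2
          · have h9 : i - u.length = 0 := by omega
            rw [h9] at hi
            have h10 : e = z := by simpa using hi.symm
            have h11 : i = u.length := by omega
            rw [h10, l1]
            have h12' := hl.le i x
            rw [hwx, h11] at h12'
            rw [h11]
            exact h12' (by simp)
          · have h9 : i - u.length = 1 := by omega
            rw [h9] at hi
            have h10 : e = t2 := by simpa using hi.symm
            rw [h10, l2, if_neg (by have : l.p = l.al + l.be := rfl; omega)]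
            have h13 := hl.le 0 (S.nx x)
            have h14 : (S.hw (S.nx x))[0]? = some (S.nx x) := by
              obtain ⟨v, hv⟩ := S.hw_cons (S.nx_mem.2 hx)
              rw [hv]
              rfl
            have h15 := h13 h14
            rw [if_pos (by have := hl.al; omega)] at h15
            omega
  | L k a =>
    obtain ⟨y', u, v, w, hx, hy', hw, hk, hu, hd⟩ := hs
    have hsx : S.St x (.L k a) S' z := ⟨y', u, v, w, hx, hy', hw, hk, hu, hd⟩
    have hzw : S'.hw z = u := by
      obtain ⟨y'', u'', v'', g1, g2, g3⟩ := Part.st_word_L hsx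
      rw [g3]
      rw [hw] at g1
      have g4 := List.tail_eq_of_cons_eq g1
      have g5 : u.length = u''.length := by
        have := congrArg List.length g4
        simp only [List.length_append, List.length_cons] at this
        omega
      exact ((List.append_inj g4 g5).1).symm
    have hzB : z ∈ S'.B := (Part.st_sub hsx).2.2
    have hub : u.length + v.length + 2 = l.p := by
      rw [← hp, ← hlen, hw]
      simp only [List.length_append, List.length_cons]
      omega
    have hul : 1 ≤ u.length := by rw [hu]; simp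
    have hwx : S.hw (S.nx x) = (u ++ y' :: v) ++ [x] := hw_nx hx hw
    refine ⟨show k + 3 ≤ l.p by omega, lab, ?_, ?_, fun _ _ => rfl, hother.2.1⟩
    · show TInv T S0 S' ((S'.nx ^ (S'.per z - 1)) z) y lab q
      refine tinv_rep ?_ (nx_pow_pred hzB).2
      have hgl : (S.glue x y' hx hy').Sub S' := by
        rcases hd with ⟨-, -, h1⟩ | ⟨-, V, -, hf⟩
        · rw [h1]; exact Part.sub_refl _
        · exact hf.sub
      have ha : T.a x = y' := gl_ax h.hx hy' hgl hL (ne_of_word h.hx hw)
      rcases hd with ⟨h0, -, h1⟩ | ⟨hne, V, hV, hf⟩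
      · rw [h1]
        rw [h0, hu] at hw
        exact tinv_glue_l h hy' ha hw
      · obtain ⟨z₂, w₂, hv⟩ := List.exists_cons_of_ne_nil hne
        have hle : (S.glue x y' hx hy').Le T := Part.sub_le hgl hL
        rw [hu, hv] at hw
        have hw2 : (S.glue x y' hx hy').hw z₂ = z₂ :: w₂ := Part.hw_glue_split_right S hx hy' hw rfl
        have hzB2 : z₂ ∈ (S.glue x y' hx hy').B := mem_glue_B hx hy' hw (Or.inr (List.mem_cons_self ..))
        have hdisc : (S.glue x y' hx hy').IsDisc T z₂ a :=
          (Part.disc_iff hle hzB2 a).2 ⟨S', by rw [hw2, ← hv]; exact Or.inr ⟨hne, V, hV, hf⟩, hL⟩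
        have hH : (S.glue x y' hx hy').HUn {d | d ∈ v} := by rw [hv, ← hw2]; exact hun_hw hzB2
        have hz2 : z₂ ∈ ({d | d ∈ v} : Set D) := by rw [hv]; exact List.mem_cons_self ..
        rw [(Part.fil_le_hc hle hH hf hL hz2).2]
        exact tinv_disc_l hT h hy' ha hw hle hdisc
    · show LInv S' ((S'.nx ^ (S'.per z - 1)) z) (l.step (.L k a)) lab
      have hpp : l.p = l.al + l.be := rfl
      have hal := hl.al
      have hidx : ∀ (i : ℕ) (e : D), (S'.hw z)[i]? = some e → i < u.length ∧ lab e ≤ l.r + if i < l.al then 0 else 1 := by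
        intro i e hi
        rw [hzw] at hi
        have h1 : i < u.length := (List.getElem?_eq_some_iff.1 hi).1
        refine ⟨h1, hl.le i e ?_⟩
        rw [hwx, List.append_assoc, List.getElem?_append_left h1]
        exact hi
      by_cases hb : k + 2 ≤ l.be
      · have h1 : l.step (.L k a) = ⟨l.r, l.al, l.be - (k + 2)⟩ := by simp only [GR.LS.step, if_pos hb]
        rw [h1]
        refine linv_pred hzB hal ?_ (fun i e hi => (hidx i e hi).2)
        rw [hzw]
        show u.length = l.al + (l.be - (k + 2))
        omega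
      · have h1 : l.step (.L k a) = ⟨l.r, l.al + l.be - (k + 2), 0⟩ := by simp only [GR.LS.step, if_neg hb]
        rw [h1]
        refine linv_pred hzB ?_ ?_ ?_
        · show 1 ≤ l.al + l.be - (k + 2)
          omega
        · rw [hzw]
          show u.length = l.al + l.be - (k + 2) + 0
          omega
        · intro i e hi
          obtain ⟨h2, h3⟩ := hidx i e hi
          rw [if_pos (by omega)] at h3
          exact h3.trans (by show l.r + 0 ≤ l.r + _; omega)
  | R k a =>
    obtain ⟨y', u, v, w, hx, hy', hw, hk, hv, hd⟩ := hs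
    have hsx : S.St x (.R k a) S' z := ⟨y', u, v, w, hx, hy', hw, hk, hv, hd⟩
    have hzw : S'.hw z = v := by
      obtain ⟨y'', u'', v'', g1, g2, g3⟩ := Part.st_word_R hsx
      rw [g3]
      rw [hw] at g1
      have g4 := List.tail_eq_of_cons_eq g1
      have g5 := (List.append_inj g4 (by omega)).2
      exact (List.tail_eq_of_cons_eq g5).symm
    have hzB : z ∈ S'.B := (Part.st_sub hsx).2.2
    have hub : u.length + v.length + 2 = l.p := by
      rw [← hp, ← hlen, hw]
      simp only [List.length_append, List.length_cons]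
      omega
    have hvl : 1 ≤ v.length := by rw [hv]; simp
    have hwx : S.hw (S.nx x) = (u ++ y' :: v) ++ [x] := hw_nx hx hw
    refine ⟨show k + 3 ≤ l.p by omega, lab, ?_, ?_, fun _ _ => rfl, hother.2.1⟩
    · show TInv T S0 S' ((S'.nx ^ (S'.per z - 1)) z) y lab q
      refine tinv_rep ?_ (nx_pow_pred hzB).2
      have hgl : (S.glue x y' hx hy').Sub S' := by
        rcases hd with ⟨-, -, h1⟩ | ⟨-, V, -, hf⟩
        · rw [h1]; exact Part.sub_refl _
        · exact hf.sub
      have ha : T.a x = y' := gl_ax h.hx hy' hgl hL (ne_of_word h.hx hw)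
      rcases hd with ⟨h0, -, h1⟩ | ⟨hne, V, hV, hf⟩
      · rw [h1]
        rw [h0, hv] at hw
        exact tinv_glue_r h hy' ha hw
      · obtain ⟨z₁, w₁, hu⟩ := List.exists_cons_of_ne_nil hne
        have hle : (S.glue x y' hx hy').Le T := Part.sub_le hgl hL
        rw [hu, hv] at hw
        have hw1 : (S.glue x y' hx hy').hw z₁ = z₁ :: w₁ := Part.hw_glue_split_left S hx hy' hw rfl
        have hzB1 : z₁ ∈ (S.glue x y' hx hy').B := mem_glue_B hx hy' hw (Or.inl (List.mem_cons_self ..))
        have hdisc : (S.glue x y' hx hy').IsDisc T z₁ a :=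
          (Part.disc_iff hle hzB1 a).2 ⟨S', by rw [hw1, ← hu]; exact Or.inr ⟨hne, V, hV, hf⟩, hL⟩
        have hH : (S.glue x y' hx hy').HUn {d | d ∈ u} := by rw [hu, ← hw1]; exact hun_hw hzB1
        have hz1 : z₁ ∈ ({d | d ∈ u} : Set D) := by rw [hu]; exact List.mem_cons_self ..
        rw [(Part.fil_le_hc hle hH hf hL hz1).2]
        exact tinv_disc_r hT h hy' ha hw hle hdisc
    · show LInv S' ((S'.nx ^ (S'.per z - 1)) z) (l.step (.R k a)) lab
      have hpp : l.p = l.al + l.be := rfl
      have hal := hl.al
      have hidx : ∀ (i : ℕ) (e : D), (S'.hw z)[i]? = some e → i < v.length ∧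
          lab e ≤ l.r + if k + 1 + i < l.al then 0 else 1 := by
        intro i e hi
        rw [hzw] at hi
        have h1 : i < v.length := (List.getElem?_eq_some_iff.1 hi).1
        refine ⟨h1, hl.le (k + 1 + i) e ?_⟩
        rw [hwx, List.append_assoc, List.getElem?_append_right (by omega)]
        have h2 : k + 1 + i - u.length = i + 1 := by omega
        rw [h2, List.cons_append, List.getElem?_cons_succ, List.getElem?_append_left h1]
        exact hi
      by_cases hb : l.be = 0
      · have h1 : l.step (.R k a) = ⟨l.r, l.al - (k + 2), 0⟩ := by simp only [GR.LS.step, if_pos hb]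
        rw [h1]
        refine linv_pred hzB ?_ ?_ ?_
        · show 1 ≤ l.al - (k + 2)
          omega
        · rw [hzw]
          show v.length = l.al - (k + 2) + 0
          omega
        · intro i e hi
          obtain ⟨h2, h3⟩ := hidx i e hi
          rw [if_pos (by omega)] at h3
          exact h3.trans (by show l.r + 0 ≤ l.r + _; omega)
      · by_cases hc : k + 2 ≤ l.al
        · have h1 : l.step (.R k a) = ⟨l.r, l.al - (k + 1), l.be - 1⟩ := by
            simp only [GR.LS.step, if_neg hb, if_pos hc]
          rw [h1]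
          refine linv_pred hzB ?_ ?_ ?_
          · show 1 ≤ l.al - (k + 1)
            omega
          · rw [hzw]
            show v.length = l.al - (k + 1) + (l.be - 1)
            omega
          · intro i e hi
            obtain ⟨h2, h3⟩ := hidx i e hi
            show lab e ≤ l.r + if i < l.al - (k + 1) then 0 else 1
            split_ifs at h3 ⊢ <;> omega
        · have h1 : l.step (.R k a) = ⟨l.r + 1, l.al + l.be - (k + 2), 0⟩ := by
            simp only [GR.LS.step, if_neg hb, if_neg hc]
          rw [h1]
          refine linv_pred hzB ?_ ?_ ?_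
          · show 1 ≤ l.al + l.be - (k + 2)
            omega
          · rw [hzw]
            show v.length = l.al + l.be - (k + 2) + 0
            omega
          · intro i e hi
            obtain ⟨h2, h3⟩ := hidx i e hi
            show lab e ≤ l.r + 1 + _
            split_ifs at h3 <;> omega

end SYS
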