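import Pool.Agent.SYS.UT.InvF
import Pool.Agent.SYS.UT.InvG
import Pool.Agent.SYS.UT.InvD
import Pool.Agent.SYS.UT.EndN
import Pool.Agent.SYS.UT.EndS
import Pool.Agent.SYS.UT.EndM
import Pool.Agent.SYS.UT.HCard

/-!
# SYS-UT-Main (TOPU): the first non-planar step of stage 2 gives a separating non-contractible closed walk
-/

namespace SYS

open Classical SST GNH

/-- First non-planar step, gluing of two darts `x`, `x'` of the same hole, neither side is a disc. -/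
theorem topu_split {n g : ℕ} (hn : 1 ≤ n) (hg : 3 ≤ g) {T : Tri (Fin (6 * n))} (hT : T ∈ Trn n g)
    {S0 S : Part (Fin (6 * n))} (hS0 : S0.Con) {x y : Fin (6 * n)} {lab : Fin (6 * n) → ℕ} {q r : ℕ}
    (h : TInv T S0 S x y lab q) (hr : ∀ e ∈ S.B, lab e ≤ r) {x' : Fin (6 * n)} (hx' : x' ∈ S.B) (ha : T.a x = x')
    {z₁ z : Fin (6 * n)} {w₁ w : List (Fin (6 * n))} (hw : S.hw x = x :: ((z₁ :: w₁) ++ x' :: z :: w))
    (hd1 : ∀ a, ¬ Part.IsDisc (S.glue x x' h.hx hx') T z₁ a) (hd2 : ∀ a, ¬ Part.IsDisc (S.glue x x' h.hx hx') T z a) :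
    T.HasSep (4 * (r : ℝ) + 4 * q + 4 * S0.R.ncard) := by
  have hle : (S.glue x x' h.hx hx').Le T := Part.glue_le S h.hx hx' h.le ha
  have hxx : x ≠ x' := fun h1 => T.ane x (ha.trans h1.symm)
  have hw1 : (S.glue x x' h.hx hx').hw z₁ = z₁ :: w₁ := Part.hw_glue_split_left S h.hx hx' hw rfl
  have hw2 : (S.glue x x' h.hx hx').hw z = z :: w := Part.hw_glue_split_right S h.hx hx' hw rfl
  have hmx : ∀ d, d ∈ S.hw x ↔ d = x ∨ d ∈ z₁ :: w₁ ∨ d = x' ∨ d ∈ z :: w := by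
    intro d
    rw [hw]
    simp only [List.mem_cons, List.mem_append]
    try tauto
  have hnd : (x :: ((z₁ :: w₁) ++ x' :: z :: w)).Nodup := hw ▸ S.hw_nodup h.hx
  have hB : (S.glue x x' h.hx hx').B = S.B \ {x, x'} := Part.glue_B S h.hx hx' hxx
  have hyx : ∀ d ∈ S.hw x, d ∉ S.hw y := by
    intro d hd hd'
    exact h.ne (((S.mem_hw h.hx).1 hd).2.trans ((S.mem_hw h.hy).1 hd').2.symm)
  have hself : y ∈ S.hw y := (S.mem_hw h.hy).2 ⟨h.hy, Equiv.Perm.SameCycle.refl _ _⟩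
  have hyB : y ∈ (S.glue x x' h.hx hx').B := by
    rw [hB]
    refine ⟨h.hy, ?_⟩
    rintro (h1 | h1)
    · exact hyx x ((hmx x).2 (Or.inl rfl)) (h1 ▸ hself)
    · exact hyx x' ((hmx x').2 (Or.inr (Or.inr (Or.inl rfl)))) (h1 ▸ hself)
  have hz1B : z₁ ∈ (S.glue x x' h.hx hx').B := by
    rw [hB]
    refine ⟨((S.mem_hw h.hx).1 ((hmx z₁).2 (Or.inr (Or.inl (List.mem_cons_self ..))))).1, ?_⟩
    rintro (h1 | h1)
    · rw [List.nodup_cons] at hnd
      apply hnd.1
      rw [← h1]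
      simp
    · rw [List.nodup_cons] at hnd
      have h2 := (List.nodup_append.1 hnd.2).2.2 z₁ (List.mem_cons_self ..) x' (List.mem_cons_self ..)
      exact h2 h1
  have hzB : z ∈ (S.glue x x' h.hx hx').B := by
    rw [hB]
    refine ⟨((S.mem_hw h.hx).1 ((hmx z).2 (Or.inr (Or.inr (Or.inr (List.mem_cons_self ..)))))).1, ?_⟩
    rw [List.nodup_cons] at hnd
    rintro (h1 | h1)
    · apply hnd.1
      rw [← h1]
      simp
    · have h2 := (List.nodup_append.1 hnd.2).2.1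
      rw [List.nodup_cons] at h2
      apply h2.1
      rw [← h1]
      exact List.mem_cons_self ..
  have hwy : (S.glue x x' h.hx hx').hw y = S.hw y := by
    refine Part.hw_glue_other S h.hx hx' h.hy h.ne ?_
    intro h1
    exact h.ne (((S.mem_hw h.hx).1 ((hmx x').2 (Or.inr (Or.inr (Or.inl rfl))))).2.trans h1)
  -- every boundary dart of `S'` is in one of the three hole words
  have hall : ∀ d ∈ (S.glue x x' h.hx hx').B, d ∈ (S.glue x x' h.hx hx').hw z₁ ∨
      d ∈ (S.glue x x' h.hx hx').hw z ∨ d ∈ (S.glue x x' h.hx hx').hw y := by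
    intro d hd
    rw [hB] at hd
    rw [hw1, hw2, hwy]
    rcases h.all d hd.1 with h1 | h1
    · rcases (hmx d).1 h1 with h2 | h2 | h2 | h2
      · exact absurd (Or.inl h2) hd.2
      · exact Or.inl h2
      · exact absurd (Or.inr h2) hd.2
      · exact Or.inr (Or.inl h2)
    · exact Or.inr (Or.inr h1)
  have hX : ∀ {d}, d ∈ (S.glue x x' h.hx hx').B → d ∈ (S.glue x x' h.hx hx').X := fun hd => Or.inr hd
  have hSzy : S.Hc T z₁ y := by
    refine Part.hc_trans (Part.hc_symm (Part.hc_hole h.hx ?_)) h.hc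
    exact (hmx z₁).2 (Or.inr (Or.inl (List.mem_cons_self ..)))
  have hsplit := Part.hc_glue_split h.le h.hx hx' ha hw (hX hz1B) (hX hyB)
  have hu1 : ∀ d ∈ z₁ :: w₁, (S.glue x x' h.hx hx').Hc T z₁ d := by
    intro d hd
    exact Part.hc_hole hz1B (by rw [hw1]; exact hd)
  have hu2 : ∀ d ∈ z :: w, (S.glue x x' h.hx hx').Hc T z d := by
    intro d hd
    exact Part.hc_hole hzB (by rw [hw2]; exact hd)
  -- `y` is related to `z₁` or to `z`
  have hy12 : (S.glue x x' h.hx hx').Hc T z₁ y ∨ (S.glue x x' h.hx hx').Hc T z y := by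
    rcases hsplit.1 hSzy with h1 | ⟨-, ⟨d, hd, h2⟩⟩ | ⟨-, ⟨d, hd, h2⟩⟩
    · exact Or.inl h1
    · exact Or.inr (Part.hc_trans (hu2 d hd) h2)
    · exact Or.inl (Part.hc_trans (hu1 d hd) h2)
  have hbig : (2 * (r : ℝ) + q) ≤ 4 * (r : ℝ) + 4 * q + 4 * S0.R.ncard := by
    have e1 : (0 : ℝ) ≤ r := Nat.cast_nonneg _
    have e2 : (0 : ℝ) ≤ q := Nat.cast_nonneg _
    have e3 : (0 : ℝ) ≤ S0.R.ncard := Nat.cast_nonneg _
    linarith
  have hmono : ∀ {L : ℝ}, T.HasSep L → L ≤ 4 * (r : ℝ) + 4 * q + 4 * S0.R.ncard →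
      T.HasSep (4 * (r : ℝ) + 4 * q + 4 * S0.R.ncard) := by
    rintro L ⟨c, c1, c2, c3, c4, c5⟩ hL
    exact ⟨c, c1, c2, c3, c4, c5.trans hL⟩
  by_cases h12 : (S.glue x x' h.hx hx').Hc T z₁ z
  · refine end_ns hn hg hT hS0 h hr hx' ha hw h12 ?_
    rcases hy12 with h1 | h1
    · exact h1
    · exact Part.hc_trans h12 h1
  · rcases hy12 with h1 | h1
    · -- the component of `z` has one hole
      refine hmono (end_sep_l hT.1 h hr hx' ha hw hle h12 h1 ?_) hbig
      intro hgen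
      obtain ⟨a, ha3⟩ := Part.hc_three hle z
      refine hd2 a ⟨hzB, ?_, ha3, fun _ => hgen⟩
      intro d hd hzd
      rcases hall d hd with h2 | h2 | h2
      · exact absurd (Part.hc_trans (Part.hc_hole hz1B h2) (Part.hc_symm hzd)) h12
      · exact h2
      · have h3 : (S.glue x x' h.hx hx').Hc T y d := Part.hc_hole hyB h2
        exact absurd (Part.hc_trans h1 (Part.hc_trans h3 (Part.hc_symm hzd))) h12
    · refine hmono (end_sep_r hT.1 h hr hx' ha hw hle h12 h1 ?_) hbig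
      intro hgen
      obtain ⟨a, ha3⟩ := Part.hc_three hle z₁
      refine hd1 a ⟨hz1B, ?_, ha3, fun _ => hgen⟩
      intro d hd hzd
      rcases hall d hd with h2 | h2 | h2
      · exact h2
      · exact absurd (Part.hc_trans hzd (Part.hc_symm (Part.hc_hole hzB h2))) h12
      · have h3 : (S.glue x x' h.hx hx').Hc T y d := Part.hc_hole hyB h2
        exact absurd (Part.hc_trans hzd (Part.hc_trans (Part.hc_symm h3) (Part.hc_symm h1))) h12

/-- First non-planar step, gluing of a dart of the peeled hole and a dart of the other hole. -/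
theorem topu_merge {n g : ℕ} (hn : 1 ≤ n) (hg : 3 ≤ g) {T : Tri (Fin (6 * n))} (hT : T ∈ Trn n g)
    {S0 S : Part (Fin (6 * n))} (hS0 : S0.Con) {x y : Fin (6 * n)} {lab : Fin (6 * n) → ℕ} {q r : ℕ}
    (h : TInv T S0 S x y lab q) (hr : ∀ e ∈ S.B, lab e ≤ r) {x' : Fin (6 * n)} (hx' : x' ∈ S.B) (ha : T.a x = x')
    (hm : x' ∉ S.hw x) : T.HasSep (4 * (r : ℝ) + 4 * q + 4 * S0.R.ncard) :=
  end_mrg hn hg hT hS0 h hr hx' ha hm

end SYS
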