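import Pool.Agent.SYS.UT.SumB
import Pool.Agent.SYS.Lib.HidB

/-!
# SYS-UT-SepA: a gradient near one hole is orthogonal to the cocycles of the other side

PLAN.  Every dart is in `R \ B`, in `HC z` or in `HC z'` (a dart of `X` is related to a boundary dart: `hc_meets`, `S.R` is non-empty because of `hz`; `hall`).
`y` vanishes on `HC z` (`HC z ∩ HC z' = ∅` by `hne`; `HC z` is disjoint from `R \ B`, `X`).  `Area w y = ∑_d (w d * y (f d) - w (f d) * y d)`:
* `d ∈ R`: `w = grd S q` there and at `f d`; `area_grd` gives `3 ∑_{e ∈ B} (q (nx e) + q e) * y e = 0`: for `e ∈ S.hw z`: `y e = 0` (`hc_hole`), otherwise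
  `q e = 0` and `q (nx e) = 0` (`nx e` is in the hole of `e`, not in `S.hw z`; `mem_hw`);
* `d ∉ R`, `d ∈ HC z`: `f d ∈ HC z` (`hc_f`), `y d = y (f d) = 0`; `d ∉ R`, `d ∈ HC z'`: `w d = w (f d) = 0`.
-/

namespace SYS

open Classical SST GNH

variable {D : Type} [Fintype D]

private theorem spa_nx {S : Part D} {z e : D} (hz : z ∈ S.B) (he : e ∈ S.B) (h : S.nx e ∈ S.hw z) : e ∈ S.hw z := by
  have h1 := (S.mem_hw hz).1 h
  refine (S.mem_hw hz).2 ⟨he, h1.2.trans ?_⟩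
  obtain ⟨j, h2, _⟩ := ret_spec S.s he
  have h3 : S.nx e = (S.s ^ (j + 1)) e := h2
  refine Equiv.Perm.SameCycle.symm ⟨((j + 1 : ℕ) : ℤ), ?_⟩
  rw [zpow_natCast, h3]

theorem area_cross {T : Tri D} (hT : T.Conn) {S : Part D} (h : S.Le T) {z z' : D} (hz : z ∈ S.B)
    (hne : ¬ S.Hc T z z') (hall : ∀ d ∈ S.B, S.Hc T z d ∨ S.Hc T z' d) {w y q : D → ℝ}
    (hy : T.IsCoc y) (hs : ∀ d, y d ≠ 0 → (d ∈ S.R ∧ d ∉ S.B) ∨ d ∈ S.HC T z') (hq : VInv S q)
    (hg : ∀ d ∈ S.R, w d = q (S.f d) - q d) (h0 : ∀ d ∈ S.B, d ∉ S.hw z → q d = 0)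
    (hz' : ∀ d ∈ S.HC T z', w d = 0) : T.Area w y = 0 := by
  have hR : S.R.Nonempty := ⟨z, S.B_sub_R hz⟩
  have hX : ∀ d ∈ S.X, S.Hc T z d ∨ S.Hc T z' d := by
    intro d hd
    obtain ⟨e, he, hde⟩ := Part.hc_meets h hT hR hd
    rcases hall e he with h1 | h1
    · exact Or.inl (Part.hc_trans h1 (Part.hc_symm hde))
    · exact Or.inr (Part.hc_trans h1 (Part.hc_symm hde))
  have hyz : ∀ d ∈ S.X, S.Hc T z d → y d = 0 := by
    intro d hd h1
    by_contra hcon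
    rcases hs d hcon with h2 | h2
    · rcases hd with h3 | h3
      · exact h3 h2.1
      · exact h2.2 h3
    · exact hne (Part.hc_trans h1 (Part.hc_symm h2.2))
  have hfR : ∀ d, T.f d ∈ S.R ↔ d ∈ S.R := Part.le_f_mem h
  have hgr : ∀ d ∈ S.R, w d = grd S q d := by
    intro d hd
    rw [hg d hd]
    unfold grd
    rw [if_pos hd]
  have hsplit : T.Area w y = ∑ d ∈ Finset.univ.filter (fun d => d ∈ S.R), (w d * y (T.f d) - w (T.f d) * y d) +
      ∑ d ∈ Finset.univ.filter (fun d => ¬ d ∈ S.R), (w d * y (T.f d) - w (T.f d) * y d) :=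
    (Finset.sum_filter_add_sum_filter_not _ _ _).symm
  have h1 : ∑ d ∈ Finset.univ.filter (fun d => ¬ d ∈ S.R), (w d * y (T.f d) - w (T.f d) * y d) = 0 := by
    refine Finset.sum_eq_zero fun d hd => ?_
    have hdR : d ∉ S.R := (Finset.mem_filter.1 hd).2
    have hfd : T.f d ∉ S.R := fun h2 => hdR ((hfR d).1 h2)
    have hst : S.Hc T d (T.f d) := Part.hc_f hdR
    rcases hX d (Or.inl hdR) with h2 | h2
    · rw [hyz d (Or.inl hdR) h2, hyz (T.f d) (Or.inl hfd) (Part.hc_trans h2 hst), mul_zero, mul_zero, sub_zero]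
    · rw [hz' d ⟨Or.inl hdR, h2⟩, hz' (T.f d) ⟨Or.inl hfd, Part.hc_trans h2 hst⟩, zero_mul, zero_mul, sub_zero]
  have h2 : ∑ d ∈ Finset.univ.filter (fun d => d ∈ S.R), (w d * y (T.f d) - w (T.f d) * y d) = 0 := by
    have e1 : ∑ d ∈ Finset.univ.filter (fun d => d ∈ S.R), (w d * y (T.f d) - w (T.f d) * y d) =
        ∑ d ∈ Finset.univ.filter (fun d => d ∈ S.R), (grd S q d * y (T.f d) - grd S q (T.f d) * y d) := by
      refine Finset.sum_congr rfl fun d hd => ?_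
      have hdR : d ∈ S.R := (Finset.mem_filter.1 hd).2
      rw [hgr d hdR, hgr (T.f d) ((hfR d).2 hdR)]
    rw [e1, area_grd h hq (Finset.univ.filter (fun d => d ∈ S.R)) (Finset.univ.filter (fun d => d ∈ S.B))
      (fun d => by rw [Finset.mem_filter]; exact ⟨fun h3 => h3.2, fun h3 => ⟨Finset.mem_univ _, h3⟩⟩)
      (fun d => by rw [Finset.mem_filter]; exact ⟨fun h3 => h3.2, fun h3 => ⟨Finset.mem_univ _, h3⟩⟩) hy]
    rw [Finset.sum_eq_zero, mul_zero]
    intro e he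
    have heB : e ∈ S.B := (Finset.mem_filter.1 he).2
    by_cases h3 : e ∈ S.hw z
    · rw [hyz e (Or.inr heB) (Part.hc_hole hz h3), mul_zero]
    · have h4 : q e = 0 := h0 e heB h3
      have h5 : q (S.nx e) = 0 := h0 _ (S.nx_mem.2 heB) fun h6 => h3 (spa_nx hz heB h6)
      rw [h4, h5, add_zero, zero_mul]
  rw [hsplit, h1, h2, add_zero]

end SYS
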