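import Pool.Agent.SYS.Lib.ExplC

/-!
# SYS-UT-Zeta: carried walks: calculus
-/

namespace SYS
namespace Part

open Classical SST

variable {D : Type} [Finite D]

theorem vt_sub {S S' : Part D} (h : S.Sub S') {p q : D} (hc : S.Vt p q) : S'.Vt p q := by
  induction hc with
  | rel x y hx =>
    obtain ⟨hR, hB, rfl⟩ := hx
    have h1 : S.a x ≠ x := fun h1 => hB ⟨hR, h1⟩
    have h2 : S'.a x = S.a x := h.2 x h1
    have h3 : S'.s x = S.s x := by
      rw [s_apply, s_apply, h2]
      exact h.1 _ ((mem_R_a S x).2 hR)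
    refine Relation.EqvGen.rel _ _ ⟨h.R_sub hR, fun hB' => h1 ?_, h3.symm⟩
    rw [← h2]
    exact hB'.2
  | refl x => exact Relation.EqvGen.refl x
  | symm x y _ ih => exact Relation.EqvGen.symm _ _ ih
  | trans x y z _ _ ih1 ih2 => exact Relation.EqvGen.trans _ _ _ ih1 ih2

private theorem ze_refl (S : Part D) (p : D) : S.Vt p p := Relation.EqvGen.refl p

private theorem ze_symm {S : Part D} {p q : D} (h : S.Vt p q) : S.Vt q p :=
  Relation.EqvGen.symm _ _ h

private theorem ze_trans {S : Part D} {p q r : D} (h : S.Vt p q) (h' : S.Vt q r) : S.Vt p r :=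
  Relation.EqvGen.trans _ _ _ h h'

private theorem ze_left {S : Part D} {T : Tri D} {p p' q : D} {c : List D} (hp : S.Vt p' p)
    (h : S.Car T p c q) : S.Car T p' c q := by
  cases c with
  | nil => exact ze_trans hp h
  | cons e c =>
    obtain ⟨r, h1, h2⟩ := h
    refine ⟨r, ?_, h2⟩
    rcases h1 with h1 | h1
    · exact Or.inl ⟨h1.1, ze_trans hp h1.2.1, h1.2.2⟩
    · exact Or.inr ⟨h1.1, ze_trans hp h1.2.1, h1.2.2⟩

private theorem ze_right {S : Part D} {T : Tri D} {q q' : D} (hq : S.Vt q q') {c : List D} :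
    ∀ {p : D}, S.Car T p c q → S.Car T p c q' := by
  induction c with
  | nil => exact fun {p} h => ze_trans h hq
  | cons e c ih =>
    rintro p ⟨r, h1, h2⟩
    exact ⟨r, h1, ih h2⟩

theorem car_sub {S S' : Part D} {T : Tri D} (h : S.Sub S') {p q : D} {c : List D} (hc : S.Car T p c q) :
    S'.Car T p c q := by
  induction c generalizing p with
  | nil => exact vt_sub h hc
  | cons e c ih =>
    obtain ⟨r, h1, h2⟩ := hc
    refine ⟨r, ?_, ih h2⟩
    rcases h1 with h1 | h1
    · refine Or.inl ⟨h.R_sub h1.1, vt_sub h h1.2.1, ?_⟩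
      rw [h.1 e h1.1]
      exact vt_sub h h1.2.2
    · refine Or.inr ⟨h.R_sub h1.1, ?_, vt_sub h h1.2.2⟩
      rw [h.1 (T.a e) h1.1]
      exact vt_sub h h1.2.1

theorem car_append {S : Part D} {T : Tri D} {p q r : D} {c c' : List D} (h : S.Car T p c q) (h' : S.Car T q c' r) :
    S.Car T p (c ++ c') r := by
  induction c generalizing p with
  | nil => exact ze_left h h'
  | cons e c ih =>
    obtain ⟨t, h1, h2⟩ := h
    exact ⟨t, h1, ih h2⟩

theorem car_vt {S : Part D} {T : Tri D} {p p' q q' : D} {c : List D} (hp : S.Vt p' p) (h : S.Car T p c q)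
    (hq : S.Vt q q') : S.Car T p' c q' := by
  exact ze_left hp (ze_right hq h)

theorem car_single {S : Part D} (T : Tri D) {e : D} (he : e ∈ S.R) : S.Car T e [e] (S.f e) := by
  exact ⟨S.f e, Or.inl ⟨he, ze_refl S e, ze_refl S _⟩, ze_refl S _⟩

theorem car_rev {S : Part D} {T : Tri D} {p q : D} {c : List D} (h : S.Car T p c q) :
    S.Car T q (c.map T.a).reverse p := by
  induction c generalizing p with
  | nil => exact ze_symm h
  | cons e c ih =>
    obtain ⟨r, h1, h2⟩ := h
    rw [List.map_cons, List.reverse_cons]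
    refine car_append (ih h2) ⟨p, ?_, ze_refl S p⟩
    rcases h1 with h1 | h1
    · refine Or.inr ?_
      rw [T.aa]
      exact ⟨h1.1, ze_symm h1.2.2, ze_symm h1.2.1⟩
    · exact Or.inl ⟨h1.1, ze_symm h1.2.2, ze_symm h1.2.1⟩

theorem vt_mem {S : Part D} {p q : D} (h : S.Vt p q) : p ∈ S.R ↔ q ∈ S.R := by
  induction h with
  | rel x y h => rw [h.2.2, mem_R_s]
  | refl x => rfl
  | symm x y _ ih => exact ih.symm
  | trans x y z _ _ ih1 ih2 => exact ih1.trans ih2

private theorem ze_path {S : Part D} {e : D} (he : e ∈ S.B) {j : ℕ}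
    (h : ∀ i < j, (S.s ^ (i + 1)) e ∉ S.B) : ∀ i ≤ j, S.Vt (S.s e) ((S.s ^ (i + 1)) e) := by
  intro i
  induction i with
  | zero =>
    intro _
    rw [Nat.zero_add, pow_one]
    exact ze_refl S _
  | succ i ih =>
    intro hi
    refine ze_trans (ih (by omega)) (Relation.EqvGen.rel _ _ ⟨?_, h i (by omega), ?_⟩)
    · have h1 : ∀ m : ℕ, (S.s ^ m) e ∈ S.R := by
        intro m
        induction m with
        | zero => exact he.1
        | succ m ih =>
          rw [pow_succ', Equiv.Perm.mul_apply, mem_R_s]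
          exact ih
      exact h1 _
    · rw [pow_succ' S.s (i + 1), Equiv.Perm.mul_apply]

theorem car_mem {S : Part D} {T : Tri D} {p q : D} {c : List D} (h : S.Car T p c q) : p ∈ S.R ↔ q ∈ S.R := by
  induction c generalizing p with
  | nil => exact vt_mem h
  | cons e c ih =>
    obtain ⟨r, h1, h2⟩ := h
    rw [← ih h2]
    rcases h1 with h1 | h1
    · rw [vt_mem h1.2.1, ← vt_mem h1.2.2, mem_R_f]
    · rw [vt_mem h1.2.1, ← vt_mem h1.2.2, mem_R_f]

/-- From the last corner of a boundary dart to the next boundary dart. -/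
theorem vt_nx {S : Part D} {e : D} (he : e ∈ S.B) : S.Vt (S.f e) (S.nx e) := by
  obtain ⟨j, h1, h2, h3⟩ := ret_spec S.s he
  have h4 := ze_path he h3 j le_rfl
  rw [s_apply, he.2] at h4
  unfold nx
  rw [h1]
  exact h4

end Part
end SYS
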